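import Pool.Agent.H43.OWN.Sat

/-!
# SAT for three families at three depths

`u` (heights of `V1`), `v`, `w`: the joint families `(u, v, w)`, `(v, w)` and `w` have additive
numbers. `u` is known to the ball `j`, `v` to the ball `m ≥ j`, `w` to the ball `k ≥ m`.
-/

set_option autoImplicit false

namespace Pool.SAT43

open Finset Real
open Pool.Agent.H49.Ent Pool.Agent.H32.Dense

variable {Ω : Type} [Fintype Ω] {ι Z Y U V W : Type} {p : Ω → ℝ}
  {x : ι → ℝ} {z : ι → Ω → Z} {y : Ω → Y} {u : ι → ι → Ω → U} {v : ι → ι → Ω → V}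
  {w : ι → ι → Ω → W} {g3 g2 g1 : ι → ι → ℝ} {κ e : ℝ}

/-- **THREE DEPTHS.** -/
theorem three_depth (hp : ∀ ω, 0 ≤ p ω)
    (J3 : Add p x z y (fun i k ω => (u i k ω, (v i k ω, w i k ω))) g3 κ e)
    (J2 : Add p x z y (fun i k ω => (v i k ω, w i k ω)) g2 κ e) (A : Add p x z y w g1 κ e)
    (hz : Nest p x z y e) {i j m k : ι} (hij : x i ≤ x j) (hjm : x j ≤ x m) (hmk : x m ≤ x k) :
    CH p (fun ω => (u i j ω, (v i m ω, w i k ω))) (fun ω => (z i ω, y ω)) ≤
        g3 i j + g2 j m + g1 m k + (7 * κ + 2 * e) ∧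
      g3 i j + g2 j m + g1 m k - (3 * κ + 10 * e) ≤
        CH p (fun ω => (u i j ω, (v i m ω, w i k ω))) (fun ω => (z i ω, y ω)) := by
  -- the joint family at the ball `j`
  have hG : CH p (fun ω => (u i j ω, (v i j ω, w i j ω))) (fun ω => (z j ω, (z i ω, y ω))) ≤ e := by
    refine le_trans (le_of_eq ?_) (J3.c1 i j hij)
    refine CH_congr hp ?_ ?_ ?_ ?_ <;>
    · intro a a' _ _ h
      simp only [Prod.mk.injEq] at h ⊢
      tauto
  have hD : CH p (fun ω => (v i j ω, w i j ω))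
      (fun ω => ((u i j ω, (v i j ω, w i j ω)), (z i ω, y ω))) ≤ 0 := by
    refine le_of_eq (CH_eq_zero hp ?_)
    intro a a' _ _ h
    simp only [Prod.mk.injEq] at h ⊢
    tauto
  obtain ⟨s1, -, s3⟩ := J2.step hp hz (G := fun ω => (u i j ω, (v i j ω, w i j ω))) hij hjm hG hD
  -- everything up to the ball `m`
  have hG2 : CH p (fun ω => ((u i j ω, (v i j ω, w i j ω)), (v i m ω, w i m ω)))
      (fun ω => (z m ω, (z i ω, y ω))) ≤ 3 * e := by
    have h1 := CH_subadd hp (fun ω => (u i j ω, (v i j ω, w i j ω))) (fun ω => (v i m ω, w i m ω))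
      (fun ω => (z m ω, (z i ω, y ω)))
    have h2 : CH p (fun ω => (v i m ω, w i m ω)) (fun ω => (z m ω, (z i ω, y ω))) ≤ e := by
      refine le_trans (le_of_eq ?_) (J2.c1 i m (hij.trans hjm))
      refine CH_congr hp ?_ ?_ ?_ ?_ <;>
      · intro a a' _ _ h
        simp only [Prod.mk.injEq] at h ⊢
        tauto
    have h3 : CH p (fun ω => (u i j ω, (v i j ω, w i j ω))) (fun ω => (z m ω, (z i ω, y ω))) ≤
        CH p (z j) (fun ω => (z m ω, (z i ω, y ω))) +
          CH p (fun ω => (u i j ω, (v i j ω, w i j ω)))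
            (fun ω => (z j ω, (z m ω, (z i ω, y ω)))) := CH_le_add hp _ _ _
    have h4 : CH p (z j) (fun ω => (z m ω, (z i ω, y ω))) ≤ e := by
      refine le_trans ?_ (hz j m hjm)
      refine CH_mono_cond hp ?_
      intro a a' _ _ h
      simp only [Prod.mk.injEq] at h ⊢
      tauto
    have h5 : CH p (fun ω => (u i j ω, (v i j ω, w i j ω)))
        (fun ω => (z j ω, (z m ω, (z i ω, y ω)))) ≤ e := by
      refine le_trans ?_ hG
      refine CH_mono_cond hp ?_
      intro a a' _ _ h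
      simp only [Prod.mk.injEq] at h ⊢
      tauto
    linarith
  have hD2 : CH p (w i m)
      (fun ω => (((u i j ω, (v i j ω, w i j ω)), (v i m ω, w i m ω)), (z i ω, y ω))) ≤ 0 := by
    refine le_of_eq (CH_eq_zero hp ?_)
    intro a a' _ _ h
    simp only [Prod.mk.injEq] at h ⊢
    tauto
  obtain ⟨t1, -, t3⟩ := A.step hp hz
    (G := fun ω => ((u i j ω, (v i j ω, w i j ω)), (v i m ω, w i m ω))) (hij.trans hjm) hmk hG2 hD2
  -- the sum
  have c1 := CH_swap3 hp (fun ω => (u i j ω, (v i j ω, w i j ω))) (fun ω => (v i m ω, w i m ω))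
    (fun ω => (z i ω, y ω))
  have c2 := CH_swap3 hp (fun ω => ((u i j ω, (v i j ω, w i j ω)), (v i m ω, w i m ω))) (w i k)
    (fun ω => (z i ω, y ω))
  have c3 := J3.lo i j hij
  have c4 := J3.hi i j hij
  constructor
  · have h1 : CH p (fun ω => (u i j ω, (v i m ω, w i k ω))) (fun ω => (z i ω, y ω)) ≤
        CH p (fun ω => (((u i j ω, (v i j ω, w i j ω)), (v i m ω, w i m ω)), w i k ω))
          (fun ω => (z i ω, y ω)) := by
      refine CH_mono_left hp ?_
      intro a a' _ _ h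
      simp only [Prod.mk.injEq] at h ⊢
      tauto
    linarith
  · -- the extra components cost two times `e`
    have h1 : CH p (fun ω => (((u i j ω, (v i j ω, w i j ω)), (v i m ω, w i m ω)), w i k ω))
        (fun ω => (z i ω, y ω)) ≤
        CH p (fun ω => (u i j ω, (v i m ω, w i k ω))) (fun ω => (z i ω, y ω)) +
          CH p (fun ω => (((u i j ω, (v i j ω, w i j ω)), (v i m ω, w i m ω)), w i k ω))
            (fun ω => ((u i j ω, (v i m ω, w i k ω)), (z i ω, y ω))) := CH_le_add hp _ _ _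
    have h2 : CH p (fun ω => (((u i j ω, (v i j ω, w i j ω)), (v i m ω, w i m ω)), w i k ω))
        (fun ω => ((u i j ω, (v i m ω, w i k ω)), (z i ω, y ω))) =
        CH p (fun ω => ((v i j ω, w i j ω), w i m ω))
          (fun ω => ((u i j ω, (v i m ω, w i k ω)), (z i ω, y ω))) := by
      refine CH_congr hp ?_ ?_ ?_ ?_ <;>
      · intro a a' _ _ h
        simp only [Prod.mk.injEq] at h ⊢
        tauto
    have h3 := CH_chain hp (fun ω => (v i j ω, w i j ω)) (w i m)
      (fun ω => ((u i j ω, (v i m ω, w i k ω)), (z i ω, y ω)))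
    have h4 : CH p (w i m) (fun ω => ((u i j ω, (v i m ω, w i k ω)), (z i ω, y ω))) ≤ e := by
      refine le_trans ?_ (A.c3 i m k (hij.trans hjm) hmk)
      refine CH_mono_cond hp ?_
      intro a a' _ _ h
      simp only [Prod.mk.injEq] at h ⊢
      tauto
    have h5 : CH p (fun ω => (v i j ω, w i j ω))
        (fun ω => (w i m ω, ((u i j ω, (v i m ω, w i k ω)), (z i ω, y ω)))) ≤ e := by
      refine le_trans ?_ (J2.c3 i j m hij hjm)
      refine CH_mono_cond hp ?_
      intro a a' _ _ h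
      simp only [Prod.mk.injEq] at h ⊢
      tauto
    have e0 : 0 ≤ e := (CH_nonneg hp _ _).trans h4
    linarith

/-- Two depths for `(v, w)` in the letters of this file. -/
theorem tail_depth (hp : ∀ ω, 0 ≤ p ω)
    (J2 : Add p x z y (fun i k ω => (v i k ω, w i k ω)) g2 κ e) (A : Add p x z y w g1 κ e)
    (hz : Nest p x z y e) {i m k : ι} (him : x i ≤ x m) (hmk : x m ≤ x k) :
    CH p (fun ω => (v i m ω, w i k ω)) (fun ω => (z i ω, y ω)) ≤ g2 i m + g1 m k + (4 * κ + e) ∧
      g2 i m + g1 m k - (2 * κ + 4 * e) ≤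
        CH p (fun ω => (v i m ω, w i k ω)) (fun ω => (z i ω, y ω)) :=
  two_depth' hp J2 A hz him hmk

/-- **NEAR DIGITS** with the tail `(v to m, w to k)` in the condition. -/
theorem near_three (hp : ∀ ω, 0 ≤ p ω)
    (J3 : Add p x z y (fun i k ω => (u i k ω, (v i k ω, w i k ω))) g3 κ e)
    (J2 : Add p x z y (fun i k ω => (v i k ω, w i k ω)) g2 κ e) (A : Add p x z y w g1 κ e)
    (hz : Nest p x z y e)
    (hu : ∀ i j k, x i ≤ x j → x j ≤ x k → CH p (u i j) (fun ω => (u i k ω, (z i ω, y ω))) ≤ e)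
    {i j j' m k : ι} (hij : x i ≤ x j) (hjj : x j ≤ x j') (hjm : x j' ≤ x m) (hmk : x m ≤ x k) :
    CH p (u i j') (fun ω => (u i j ω, ((v i m ω, w i k ω), (z i ω, y ω)))) ≤
        g3 j j' - g2 j j' + (12 * κ + 13 * e) ∧
      g3 j j' - g2 j j' - (12 * κ + 12 * e) ≤
        CH p (u i j') (fun ω => (u i j ω, ((v i m ω, w i k ω), (z i ω, y ω)))) := by
  obtain ⟨h1, h2⟩ := three_depth hp J3 J2 A hz hij (hjj.trans hjm) hmk
  obtain ⟨h3, h4⟩ := three_depth hp J3 J2 A hz (hij.trans hjj) hjm hmk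
  have h5 := CH_chain hp (u i j') (fun ω => (v i m ω, w i k ω)) (fun ω => (z i ω, y ω))
  have h6 := CH_chain hp (u i j) (fun ω => (v i m ω, w i k ω)) (fun ω => (z i ω, y ω))
  have h7 := CH_bayes hp (u i j') (u i j) (fun ω => ((v i m ω, w i k ω), (z i ω, y ω)))
  have h8 := CH_nonneg hp (u i j) (fun ω => (u i j' ω, ((v i m ω, w i k ω), (z i ω, y ω))))
  have h9 : CH p (u i j) (fun ω => (u i j' ω, ((v i m ω, w i k ω), (z i ω, y ω)))) ≤ e := by
    refine le_trans ?_ (hu i j j' hij hjj)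
    refine CH_mono_cond hp ?_
    intro a a' _ _ h
    simp only [Prod.mk.injEq] at h ⊢
    tauto
  have h10 := abs_le.mp (J3.add i j j' hij hjj)
  have h11 := abs_le.mp (J2.add j j' m hjj hjm)
  have e0 : 0 ≤ e := h8.trans h9
  constructor <;> linarith

/-- The base ball is `j` itself. -/
theorem near_base3 (hp : ∀ ω, 0 ≤ p ω)
    (J3 : Add p x z y (fun i k ω => (u i k ω, (v i k ω, w i k ω))) g3 κ e)
    (J2 : Add p x z y (fun i k ω => (v i k ω, w i k ω)) g2 κ e) (A : Add p x z y w g1 κ e)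
    (hz : Nest p x z y e) {j j' m k : ι} (hjj : x j ≤ x j') (hjm : x j' ≤ x m) (hmk : x m ≤ x k) :
    CH p (u j j') (fun ω => ((v j m ω, w j k ω), (z j ω, y ω))) ≤
        g3 j j' - g2 j j' + (10 * κ + 6 * e) ∧
      g3 j j' - g2 j j' - (8 * κ + 11 * e) ≤
        CH p (u j j') (fun ω => ((v j m ω, w j k ω), (z j ω, y ω))) := by
  obtain ⟨h1, h2⟩ := three_depth hp J3 J2 A hz hjj hjm hmk
  obtain ⟨h3, h4⟩ := tail_depth hp J2 A hz (hjj.trans hjm) hmk
  have h5 := CH_chain hp (u j j') (fun ω => (v j m ω, w j k ω)) (fun ω => (z j ω, y ω))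
  have h6 := abs_le.mp (J2.add j j' m hjj hjm)
  constructor <;> linarith

/-- **THE BALL `j` DOES NOT HELP**, three families. -/
theorem learn_three (hp : ∀ ω, 0 ≤ p ω)
    (J3 : Add p x z y (fun i k ω => (u i k ω, (v i k ω, w i k ω))) g3 κ e)
    (J2 : Add p x z y (fun i k ω => (v i k ω, w i k ω)) g2 κ e) (A : Add p x z y w g1 κ e)
    (hz : Nest p x z y e)
    (hu2 : ∀ i j k, x i ≤ x j → x j ≤ x k →
      CH p (u j k) (fun ω => (u i k ω, (z j ω, (z i ω, y ω)))) ≤ e)
    {i j j' m k : ι} (hij : x i ≤ x j) (hjj : x j ≤ x j') (hjm : x j' ≤ x m) (hmk : x m ≤ x k) :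
    g3 j j' - g2 j j' - (16 * κ + 25 * e) ≤
      CH p (u i j') (fun ω => (u i j ω, ((v i m ω, w i k ω), (z j ω, (z i ω, y ω))))) := by
  obtain ⟨-, h1⟩ := near_base3 hp J3 J2 A hz hjj hjm hmk
  have h2 : CH p (u j j') (fun ω => ((v j m ω, w j k ω), (z j ω, y ω))) ≤
      CH p (fun ω => ((v i m ω, w i k ω), (u i j ω, z i ω)))
        (fun ω => ((v j m ω, w j k ω), (z j ω, y ω))) +
        CH p (u j j') (fun ω => (((v i m ω, w i k ω), (u i j ω, z i ω)),
          ((v j m ω, w j k ω), (z j ω, y ω)))) := CH_le_add hp _ _ _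
  have h3 : CH p (fun ω => ((v i m ω, w i k ω), (u i j ω, z i ω)))
        (fun ω => ((v j m ω, w j k ω), (z j ω, y ω))) =
      CH p (fun ω => (u i j ω, z i ω)) (fun ω => ((v j m ω, w j k ω), (z j ω, y ω))) +
        CH p (fun ω => (v i m ω, w i k ω))
          (fun ω => ((u i j ω, z i ω), ((v j m ω, w j k ω), (z j ω, y ω)))) := CH_chain hp _ _ _
  have h4 : CH p (fun ω => (u i j ω, z i ω)) (fun ω => ((v j m ω, w j k ω), (z j ω, y ω))) =
      CH p (z i) (fun ω => ((v j m ω, w j k ω), (z j ω, y ω))) +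
        CH p (u i j) (fun ω => (z i ω, ((v j m ω, w j k ω), (z j ω, y ω)))) := CH_chain hp _ _ _
  have h5 : CH p (z i) (fun ω => ((v j m ω, w j k ω), (z j ω, y ω))) ≤ e := by
    refine le_trans ?_ (hz i j hij)
    refine CH_mono_cond hp ?_
    intro a a' _ _ h
    simp only [Prod.mk.injEq] at h ⊢
    tauto
  have h6 : CH p (u i j) (fun ω => (z i ω, ((v j m ω, w j k ω), (z j ω, y ω)))) ≤ e := by
    have h7 : CH p (u i j) (fun ω => (z i ω, (z j ω, y ω))) ≤ e := by
      refine le_trans ?_ (J3.c1 i j hij)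
      refine CH_mono_left hp ?_
      intro a a' _ _ h
      simp only [Prod.mk.injEq] at h ⊢
      tauto
    refine le_trans ?_ h7
    refine CH_mono_cond hp ?_
    intro a a' _ _ h
    simp only [Prod.mk.injEq] at h ⊢
    tauto
  -- the tail over the base `i` from the tail over the base `j`
  have h7 : CH p (fun ω => (v i m ω, w i k ω))
      (fun ω => ((u i j ω, z i ω), ((v j m ω, w j k ω), (z j ω, y ω)))) ≤ 8 * κ + 11 * e := by
    have a1 := CH_chain hp (v i m) (w i k)
      (fun ω => ((u i j ω, z i ω), ((v j m ω, w j k ω), (z j ω, y ω))))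
    have a2 : CH p (w i k) (fun ω => ((u i j ω, z i ω), ((v j m ω, w j k ω), (z j ω, y ω)))) ≤
        4 * κ + 5 * e := by
      refine le_trans ?_ (A.rebase hp hz hij ((hjj.trans hjm).trans hmk))
      refine CH_mono_cond hp ?_
      intro a a' _ _ h
      simp only [Prod.mk.injEq] at h ⊢
      tauto
    have a3 : CH p (v i m)
        (fun ω => (w i k ω, ((u i j ω, z i ω), ((v j m ω, w j k ω), (z j ω, y ω))))) ≤
        CH p (w j m)
          (fun ω => (w i k ω, ((u i j ω, z i ω), ((v j m ω, w j k ω), (z j ω, y ω))))) +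
        CH p (v i m)
          (fun ω => (w j m ω, (w i k ω, ((u i j ω, z i ω), ((v j m ω, w j k ω), (z j ω, y ω)))))) :=
      CH_le_add hp _ _ _
    have a4 : CH p (w j m)
        (fun ω => (w i k ω, ((u i j ω, z i ω), ((v j m ω, w j k ω), (z j ω, y ω))))) ≤ e := by
      refine le_trans ?_ (A.c3 j m k (hjj.trans hjm) hmk)
      refine CH_mono_cond hp ?_
      intro a a' _ _ h
      simp only [Prod.mk.injEq] at h ⊢
      tauto
    have a5 : CH p (v i m)
        (fun ω => (w j m ω, (w i k ω, ((u i j ω, z i ω), ((v j m ω, w j k ω), (z j ω, y ω)))))) ≤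
        4 * κ + 5 * e := by
      have b1 := J2.rebase hp hz hij (hjj.trans hjm)
      have b2 : CH p (v i m) (fun ω => ((v j m ω, w j m ω), (z j ω, (z i ω, y ω)))) ≤
          CH p (fun ω => (v i m ω, w i m ω)) (fun ω => ((v j m ω, w j m ω), (z j ω, (z i ω, y ω)))) := by
        refine CH_mono_left hp ?_
        intro a a' _ _ h
        simp only [Prod.mk.injEq] at h ⊢
        tauto
      refine le_trans ?_ (b2.trans b1)
      refine CH_mono_cond hp ?_
      intro a a' _ _ h
      simp only [Prod.mk.injEq] at h ⊢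
      tauto
    linarith
  have h8 : CH p (u j j') (fun ω => (((v i m ω, w i k ω), (u i j ω, z i ω)),
          ((v j m ω, w j k ω), (z j ω, y ω)))) ≤
      CH p (u j j') (fun ω => (u i j ω, ((v i m ω, w i k ω), (z j ω, (z i ω, y ω))))) := by
    refine CH_mono_cond hp ?_
    intro a a' _ _ h
    simp only [Prod.mk.injEq] at h ⊢
    tauto
  have h9 : CH p (u j j') (fun ω => (u i j ω, ((v i m ω, w i k ω), (z j ω, (z i ω, y ω))))) ≤
      CH p (u i j') (fun ω => (u i j ω, ((v i m ω, w i k ω), (z j ω, (z i ω, y ω))))) +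
        CH p (u j j')
          (fun ω => (u i j' ω, (u i j ω, ((v i m ω, w i k ω), (z j ω, (z i ω, y ω)))))) :=
    CH_le_add hp _ _ _
  have h10 : CH p (u j j')
      (fun ω => (u i j' ω, (u i j ω, ((v i m ω, w i k ω), (z j ω, (z i ω, y ω)))))) ≤ e := by
    refine le_trans ?_ (hu2 i j j' hij hjj)
    refine CH_mono_cond hp ?_
    intro a a' _ _ h
    simp only [Prod.mk.injEq] at h ⊢
    tauto
  linarith

end Pool.SAT43
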