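import Pool.Agent.H43.OWN.Sat3
import Pool.Agent.H68.OWN.Dead

/-!
# One rough coordinate: no defect, from the numbers of the row

`Pool.OWN68.dead` with inputs from additive numbers (`Add`): the family `dd` of the velocity, the
joint family `(vv, dd)` of the position and the velocity. `Xh` are the digits of the position in the
chart, `X` the digits relative to the path which is known by the context. The position to `q + i` places belongs to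
the ball `jv i`, the velocity to `q + i` places to the ball `jd i`, and all position balls come
before the velocity balls. `Inp` are the inputs for one law; they are used for the law and for its
conditional laws on events of mass at least `c₀`.
-/

set_option autoImplicit false

namespace Pool.SAT43

open Finset Real
open Pool.Agent.H49.Ent Pool.Agent.H32.Dense Pool.STK Pool.OWN68

/-- The inputs for the law `r`. -/
structure Inp {Ω ι Z Y 𝒱 𝒟 ζ 𝒳 : Type} [Fintype Ω] (r : Ω → ℝ) (x : ι → ℝ) (z : ι → Ω → Z)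
    (y : Ω → Y) (vv : ι → ι → Ω → 𝒱) (dd : ι → ι → Ω → 𝒟) (o : ι) (jv jd : ℕ → ι) (g b : ℕ)
    (W : Ω → ζ) (A N c X : Ω → ℤ) (Xh : Ω → 𝒳) (gJ fD : ι → ι → ℝ) (F κ e eT : ℝ) : Prop where
  nest : Nest r x z y e
  J : Add r x z y (fun i k ω => (vv i k ω, dd i k ω)) gJ κ e
  D : Add r x z y dd fD κ e
  V3 : ∀ i j k, x i ≤ x j → x j ≤ x k → CH r (vv i j) (fun ω => (vv i k ω, (z i ω, y ω))) ≤ e
  LX : CH r Xh (fun ω => (vv o (jv g) ω, (z o ω, y ω))) ≤ e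
  LX1 : CH r X (fun ω => (Xh ω, (c ω, W ω))) ≤ e
  Lc : ∀ i, i ≤ g → b ∣ i → CH r (fun ω => (vv o (jv i) ω, (dd o (jd i) ω, z o ω)))
    (fun ω => (y ω, (c ω, ((A ω / 2 ^ (g - i), N ω / 2 ^ (g - i)), W ω)))) ≤ e
  fy : CH r y (fun ω => (c ω, W ω)) ≤ F
  yf : F - eT ≤ CH r y (fun ω => ((A ω, N ω), (c ω, W ω)))

section

variable {Ω ι Z Y 𝒱 𝒟 ζ 𝒳 : Type} [Fintype Ω] {x : ι → ℝ} {z : ι → Ω → Z}
    {y : Ω → Y} {vv : ι → ι → Ω → 𝒱} {dd : ι → ι → Ω → 𝒟} {o : ι} {jv jd : ℕ → ι} {g b : ℕ}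
    {W : Ω → ζ} {A N c X : Ω → ℤ} {Xh : Ω → 𝒳} {gJ fD : ι → ι → ℝ} {F κ e eT : ℝ}

/-- The fine time costs little. -/
theorem fine {r : Ω → ℝ} (hr : IsLaw r) {K : ℕ}
    (hX : ∀ ω, 0 < r ω → |2 ^ g * X ω - (2 ^ g * N ω + A ω * c ω)| ≤ K * 2 ^ g)
    (fy : CH r y (fun ω => (c ω, W ω)) ≤ F)
    (yf : F - eT ≤ CH r y (fun ω => ((A ω, N ω), (c ω, W ω)))) {G : Type} (R : Ω → G)
    (hR1 : Det r R (fun ω => (c ω, W ω)))
    (hR2 : Det r (fun ω => ((A ω, N ω), (c ω, W ω))) R) :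
    CH r X R ≤ CH r X (fun ω => (y ω, R ω)) + (eT + Real.log (4 * K + 1)) := by
  have h0 := hr.nonneg
  have b1 := CH_bayes h0 X y R
  have b2 : CH r y R ≤ CH r y (fun ω => (c ω, W ω)) := CH_mono_cond h0 hR1
  have b3 : CH r y (fun ω => ((A ω, N ω), (c ω, W ω))) ≤
      CH r X (fun ω => ((A ω, N ω), (c ω, W ω))) +
        CH r y (fun ω => (X ω, ((A ω, N ω), (c ω, W ω)))) := CH_le_add h0 _ _ _
  have b4 : CH r y (fun ω => (X ω, ((A ω, N ω), (c ω, W ω)))) ≤ CH r y (fun ω => (X ω, R ω)) := by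
    refine CH_mono_cond h0 ?_
    intro a a' ha ha' h
    have h1 := (Prod.ext_iff.mp h).1
    have h2 := hR2 a a' ha ha' (Prod.ext_iff.mp h).2
    exact Prod.ext h1 h2
  have b5 : CH r X (fun ω => ((A ω, N ω), (c ω, W ω))) ≤ Real.log (4 * K + 1) := by
    have h1 := CH_le_int h0 hr.sum_one X (fun ω => ((A ω, N ω), (c ω, W ω)))
      (fun _ => (2 * K : ℝ)) (by
        intro ω ω' hω hω' h
        simp only [Prod.mk.injEq] at h
        obtain ⟨⟨hA, hN⟩, hc, -⟩ := h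
        have k1 := abs_le.mp (hX ω hω)
        have k2 := abs_le.mp (hX ω' hω')
        rw [← hA, ← hN, ← hc] at k2
        have hS : (0 : ℤ) < 2 ^ g := by positivity
        have k3 : 2 ^ g * (X ω - X ω') ≤ 2 ^ g * (2 * K) := by linarith [k1.2, k2.1]
        have k4 : 2 ^ g * (X ω' - X ω) ≤ 2 ^ g * (2 * K) := by linarith [k1.1, k2.2]
        have k5 := le_of_mul_le_mul_left k3 hS
        have k6 := le_of_mul_le_mul_left k4 hS
        have k7 : |X ω - X ω'| ≤ 2 * (K : ℤ) := abs_le.mpr ⟨by linarith, k5⟩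
        have k8 : ((|X ω - X ω'| : ℤ) : ℝ) ≤ ((2 * (K : ℤ) : ℤ) : ℝ) := Int.cast_le.mpr k7
        push_cast at k8 ⊢
        exact k8)
    refine h1.trans (le_of_eq ?_)
    rw [Ex_const hr.sum_one]
    congr 1
    ring
  linarith

/-- **The defect at all levels** from the numbers. -/
theorem Inp.hnf {r : Ω → ℝ} (hr : IsLaw r) {K : ℕ}
    (hX : ∀ ω, 0 < r ω → |2 ^ g * X ω - (2 ^ g * N ω + A ω * c ω)| ≤ K * 2 ^ g)
    (I : Inp r x z y vv dd o jv jd g b W A N c X Xh gJ fD F κ e eT)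
    (x1 : ∀ i, i ≤ g → x o ≤ x (jv i)) (x2 : ∀ i, i ≤ g → x (jv i) ≤ x (jv g))
    (x3 : ∀ i, i ≤ g → x (jv g) ≤ x (jd i)) {i : ℕ} (hi : i ≤ g) (hb : b ∣ i) :
    CH r X (fun ω => (c ω, ((A ω / 2 ^ (g - i), N ω / 2 ^ (g - i)), W ω))) ≤
      gJ (jv i) (jv g) - fD (jv i) (jv g) + (8 * κ + 9 * e + eT + Real.log (4 * K + 1)) := by
  have h0 := hr.nonneg
  have a1 := fine (W := W) (A := A) (N := N) hr hX I.fy I.yf
    (fun ω => (c ω, ((A ω / 2 ^ (g - i), N ω / 2 ^ (g - i)), W ω)))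
    (by
      intro a a' _ _ h
      simp only [Prod.mk.injEq] at h ⊢
      tauto)
    (by
      intro a a' _ _ h
      simp only [Prod.mk.injEq] at h ⊢
      obtain ⟨⟨h1, h2⟩, h3, h4⟩ := h
      rw [h1, h2, h3, h4]
      exact ⟨rfl, ⟨rfl, rfl⟩, rfl⟩)
  have a10 := CH_le_add h0 X Xh
    (fun ω => (y ω, (c ω, ((A ω / 2 ^ (g - i), N ω / 2 ^ (g - i)), W ω))))
  have a11 : CH r X (fun ω => (Xh ω,
      (y ω, (c ω, ((A ω / 2 ^ (g - i), N ω / 2 ^ (g - i)), W ω))))) ≤ e := by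
    refine le_trans ?_ I.LX1
    refine CH_mono_cond h0 ?_
    intro a a' _ _ h
    simp only [Prod.mk.injEq] at h ⊢
    tauto
  have a2 := CH_le_add h0 Xh (fun ω => (vv o (jv i) ω, (dd o (jd i) ω, z o ω)))
    (fun ω => (y ω, (c ω, ((A ω / 2 ^ (g - i), N ω / 2 ^ (g - i)), W ω))))
  have a3 := I.Lc i hi hb
  have a4 : CH r Xh (fun ω => ((vv o (jv i) ω, (dd o (jd i) ω, z o ω)),
      (y ω, (c ω, ((A ω / 2 ^ (g - i), N ω / 2 ^ (g - i)), W ω))))) ≤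
      CH r Xh (fun ω => (vv o (jv i) ω, (dd o (jd i) ω, (z o ω, y ω)))) := by
    refine CH_mono_cond h0 ?_
    intro a a' _ _ h
    simp only [Prod.mk.injEq] at h ⊢
    tauto
  have a5 := CH_le_add h0 Xh (vv o (jv g)) (fun ω => (vv o (jv i) ω, (dd o (jd i) ω, (z o ω, y ω))))
  have a6 : CH r Xh (fun ω => (vv o (jv g) ω, (vv o (jv i) ω, (dd o (jd i) ω, (z o ω, y ω))))) ≤
      CH r Xh (fun ω => (vv o (jv g) ω, (z o ω, y ω))) := by
    refine CH_mono_cond h0 ?_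
    intro a a' _ _ h
    simp only [Prod.mk.injEq] at h ⊢
    tauto
  have a7 := I.LX
  obtain ⟨a8, -⟩ := near_two h0 I.J I.D I.nest I.V3 (x1 i hi) (x2 i hi) (x3 i hi)
  linarith

/-- `Pool.OWN68.dead` with the digits `Xh` of the chart in the last ball. -/
theorem dead2 {𝒜 ℬ : Type} {p : Ω → ℝ} (hp : IsLaw p) (Y' : Ω → Y) (Qa : Ω → 𝒜) (Qb : Ω → ℬ)
    (d : Ω → 𝒟) {C : ℕ} (hC : 1 ≤ C) (hb : 1 ≤ b) {K : ℕ}
    (hA : ∀ ω, 0 < p ω → |A ω| ≤ ((C * 2 ^ g : ℕ) : ℤ))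
    (hc : ∀ ω, 0 < p ω → |c ω| ≤ ((C * 2 ^ g : ℕ) : ℤ))
    (hX : ∀ ω, 0 < p ω → |2 ^ g * X ω - (2 ^ g * N ω + A ω * c ω)| ≤ K * 2 ^ g)
    {τ c₀ e₁ ec err : ℝ} (hτ : 0 < τ) (hc₀ : 0 ≤ c₀) (he₁ : 0 ≤ e₁)
    (herr : 2 * ec + (b * Real.log 2 + Real.log (2 * (g + 1)) + Real.log (nlb 1 C g)) +
      Real.log (2 * C + 5) + 2 * Real.log (2 * (K + 1) + 1) ≤ err)
    (hct : Real.log (2 * (C * 2 ^ g : ℕ) + 1) - ec ≤ CH p c (fun ω => ((A ω, N ω), W ω)))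
    (hnf : ∀ E : Ω → Prop, (∀ ω ω', W ω = W ω' → A ω = A ω' → N ω = N ω' → (E ω ↔ E ω')) →
      0 < law p E True → c₀ ≤ law p E True → ∀ i, i ≤ g → b ∣ i →
      CH (cond p E True) X
        (fun ω => (c ω, ((A ω / 2 ^ (g - i), N ω / 2 ^ (g - i)), W ω))) ≤
        (1 - τ) * (((g : ℝ) - i) * Real.log 2) + e₁)
    (hall : CH p X (fun ω => (c ω, W ω)) ≤ (1 - τ) * (g * Real.log 2) + e₁)
    {ea eb eB eR eX ρ : ℝ} (hρ : 0 ≤ ρ)
    (hWa : CH p (fun ω => (X ω, (c ω, W ω))) (fun ω => (Qa ω, Y' ω)) ≤ ea)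
    (hWb : CH p (fun ω => (c ω, W ω)) (fun ω => (d ω, (Qb ω, Y' ω))) ≤ eb)
    (hR : CH p d (fun ω => (Qb ω, Y' ω)) ≤ ρ * CH p A (fun ω => (Qa ω, Y' ω)) + eR)
    (hXh : CH p Xh (fun ω => (X ω, (c ω, W ω))) ≤ eX)
    (hL : g * Real.log 2 - eB ≤ CH p Xh (fun ω => (Qb ω, Y' ω))) :
    τ * (g * Real.log 2) ≤ e₁ + eB + eb + eR + eX +
      ρ * (((g / b : ℕ) + 1) * (c₀ * (g * Real.log 2)) + (e₁ + err) / τ + err + ea) := by
  have h0 := hp.nonneg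
  have key := ktz hp W hC g hb A N c X hA hc hX hτ hc₀ he₁
    (by linarith : 2 * (Real.log (2 * (C * 2 ^ g : ℕ) + 1) -
      CH p c (fun ω => ((A ω, N ω), W ω))) +
      (b * Real.log 2 + Real.log (2 * (g + 1)) + Real.log (nlb 1 C g)) +
      Real.log (2 * C + 5) + 2 * Real.log (2 * (K + 1) + 1) ≤ err) hnf
  -- the velocity in the ball `Qa`
  have a1 : CH p A (fun ω => (Qa ω, Y' ω)) ≤
      ((g / b : ℕ) + 1) * (c₀ * (g * Real.log 2)) + (e₁ + err) / τ + err + ea := by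
    have b1 := CH_le_add h0 A (fun ω => (X ω, (c ω, W ω))) (fun ω => (Qa ω, Y' ω))
    have b2 : CH p A (fun ω => ((X ω, (c ω, W ω)), (Qa ω, Y' ω))) ≤
        CH p A (fun ω => (X ω, (c ω, W ω))) :=
      CH_mono_cond h0 fun ω ω' _ _ h => (Prod.ext_iff.mp h).1
    have b3 : CH p A (fun ω => (X ω, (c ω, W ω))) ≤
        CH p (fun ω => (A ω, N ω)) (fun ω => (X ω, (c ω, W ω))) :=
      CH_mono_left h0 fun ω ω' _ _ h => (Prod.ext_iff.mp (Prod.ext_iff.mp h).1).1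
    linarith
  have a2 := mul_le_mul_of_nonneg_left a1 hρ
  -- the coordinate in the ball `Qb`
  have a3 := CH_le_add h0 Xh d (fun ω => (Qb ω, Y' ω))
  have a4 := CH_le_add h0 Xh (fun ω => (c ω, W ω)) (fun ω => (d ω, (Qb ω, Y' ω)))
  have a5 : CH p Xh (fun ω => ((c ω, W ω), (d ω, (Qb ω, Y' ω)))) ≤
      CH p Xh (fun ω => (c ω, W ω)) :=
    CH_mono_cond h0 fun ω ω' _ _ h => (Prod.ext_iff.mp h).1
  have a6 := CH_le_add h0 Xh X (fun ω => (c ω, W ω))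
  linarith

/-- **One rough coordinate, from the numbers.** `κ`, `e`, `eT`, `ec`, `eB` are errors, `τ` the
defect: `J - D` on the blocks from `jv i` to `jv g` is at most `(1 - τ) (g - i) log 2`. -/
theorem dead_add {p : Ω → ℝ} (hp : IsLaw p) {C : ℕ} (hC : 1 ≤ C) (hb : 1 ≤ b) {K : ℕ}
    (hA : ∀ ω, 0 < p ω → |A ω| ≤ ((C * 2 ^ g : ℕ) : ℤ))
    (hc : ∀ ω, 0 < p ω → |c ω| ≤ ((C * 2 ^ g : ℕ) : ℤ))
    (hX : ∀ ω, 0 < p ω → |2 ^ g * X ω - (2 ^ g * N ω + A ω * c ω)| ≤ K * 2 ^ g)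
    {τ c₀ ec eB ρ err e₁ : ℝ} (hτ : 0 < τ) (hc₀ : 0 ≤ c₀) (hρ : 0 ≤ ρ)
    (x1 : ∀ i, i ≤ g → x o ≤ x (jv i)) (x2 : ∀ i, i ≤ g → x (jv i) ≤ x (jv g))
    (x3 : ∀ i, i ≤ g → x (jv g) ≤ x (jd i)) (x4 : x (jd 0) ≤ x (jd g))
    (hI : Inp p x z y vv dd o jv jd g b W A N c X Xh gJ fD F κ e eT)
    (hE : ∀ E : Ω → Prop, (∀ ω ω', W ω = W ω' → A ω = A ω' → N ω = N ω' → (E ω ↔ E ω')) →
      0 < law p E True → c₀ ≤ law p E True →
      Inp (cond p E True) x z y vv dd o jv jd g b W A N c X Xh gJ fD F κ e eT)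
    (hdef : ∀ i, i ≤ g → b ∣ i →
      gJ (jv i) (jv g) - fD (jv i) (jv g) ≤ (1 - τ) * (((g : ℝ) - i) * Real.log 2) + κ)
    (hnum : fD (jv 0) (jd 0) ≤ ρ * fD (jd 0) (jd g) + κ)
    (L0 : CH p (fun ω => (vv o (jv 0) ω, (dd o (jd 0) ω, z o ω)))
      (fun ω => (y ω, (c ω, W ω))) ≤ e)
    (LW : CH p (fun ω => (c ω, W ω))
      (fun ω => (vv o (jv 0) ω, (dd o (jd 0) ω, (z o ω, y ω)))) ≤ e)
    (LA : CH p (dd o (jd g)) (fun ω => (A ω, (dd o (jd 0) ω, (z o ω, y ω)))) ≤ e)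
    (LX2 : CH p Xh (fun ω => (X ω, (c ω, W ω))) ≤ e)
    (hct : Real.log (2 * (C * 2 ^ g : ℕ) + 1) - ec ≤ CH p c (fun ω => ((A ω, N ω), W ω)))
    (hL : g * Real.log 2 - eB ≤ CH p Xh (fun ω => (z (jv 0) ω, y ω)))
    (he₁ : 9 * κ + 9 * e + eT + Real.log (4 * K + 1) ≤ e₁) (he₁0 : 0 ≤ e₁)
    (herr : 2 * ec + (b * Real.log 2 + Real.log (2 * (g + 1)) + Real.log (nlb 1 C g)) +
      Real.log (2 * C + 5) + 2 * Real.log (2 * (K + 1) + 1) ≤ err) :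
    τ * (g * Real.log 2) ≤ e₁ + eB + 3 * e + (4 * κ + 4 * e + ρ * (κ + 4 * e)) + e +
      ρ * (((g / b : ℕ) + 1) * (c₀ * (g * Real.log 2)) + (e₁ + err) / τ + err + 7 * e) := by
  have h0 := hp.nonneg
  have h01 := x1 0 (Nat.zero_le g)
  have h02 := x2 0 (Nat.zero_le g)
  have h03 := x3 0 (Nat.zero_le g)
  -- the defect on events
  have hnf : ∀ E : Ω → Prop, (∀ ω ω', W ω = W ω' → A ω = A ω' → N ω = N ω' → (E ω ↔ E ω')) →
      0 < law p E True → c₀ ≤ law p E True → ∀ i, i ≤ g → b ∣ i →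
      CH (cond p E True) X
        (fun ω => (c ω, ((A ω / 2 ^ (g - i), N ω / 2 ^ (g - i)), W ω))) ≤
        (1 - τ) * (((g : ℝ) - i) * Real.log 2) + e₁ := by
    intro E hEi hE0 hE1 i hi hbi
    have hr : IsLaw (cond p E True) := ⟨cond_nonneg h0 E True, sum_cond p E hE0.ne'⟩
    have I := hE E hEi hE0 hE1
    have h1 := I.hnf hr (K := K) (fun ω hω => hX ω (((cond_pos_iff h0 E True ω).mp hω).1))
      x1 x2 x3 hi hbi
    have h2 := hdef i hi hbi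
    linarith
  -- the defect given the context alone
  have hall : CH p X (fun ω => (c ω, W ω)) ≤ (1 - τ) * (g * Real.log 2) + e₁ := by
    have a1 := fine (W := W) (A := A) (N := N) hp hX hI.fy hI.yf (fun ω => (c ω, W ω))
      (fun a a' _ _ h => h) (fun a a' _ _ h => (Prod.ext_iff.mp h).2)
    have a10 := CH_le_add h0 X Xh (fun ω => (y ω, (c ω, W ω)))
    have a11 : CH p X (fun ω => (Xh ω, (y ω, (c ω, W ω)))) ≤ e := by
      refine le_trans ?_ hI.LX1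
      refine CH_mono_cond h0 ?_
      intro a a' _ _ h
      simp only [Prod.mk.injEq] at h ⊢
      tauto
    have a2 := CH_le_add h0 Xh (fun ω => (vv o (jv 0) ω, (dd o (jd 0) ω, z o ω)))
      (fun ω => (y ω, (c ω, W ω)))
    have a4 : CH p Xh (fun ω => ((vv o (jv 0) ω, (dd o (jd 0) ω, z o ω)), (y ω, (c ω, W ω)))) ≤
        CH p Xh (fun ω => (vv o (jv 0) ω, (dd o (jd 0) ω, (z o ω, y ω)))) := by
      refine CH_mono_cond h0 ?_
      intro a a' _ _ h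
      simp only [Prod.mk.injEq] at h ⊢
      tauto
    have a5 := CH_le_add h0 Xh (vv o (jv g))
      (fun ω => (vv o (jv 0) ω, (dd o (jd 0) ω, (z o ω, y ω))))
    have a6 : CH p Xh (fun ω => (vv o (jv g) ω, (vv o (jv 0) ω, (dd o (jd 0) ω, (z o ω, y ω))))) ≤
        CH p Xh (fun ω => (vv o (jv g) ω, (z o ω, y ω))) := by
      refine CH_mono_cond h0 ?_
      intro a a' _ _ h
      simp only [Prod.mk.injEq] at h ⊢
      tauto
    have a7 := hI.LX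
    obtain ⟨a8, -⟩ := near_two h0 hI.J hI.D hI.nest hI.V3 h01 h02 h03
    have a9 := hdef 0 (Nat.zero_le g) (dvd_zero b)
    push_cast at a9
    rw [sub_zero] at a9
    linarith
  -- the record `z o` given a deeper record
  have hz : ∀ j, x o ≤ x j → CH p (z o) (fun ω => (z j ω, y ω)) ≤ e := fun j hj =>
    hI.nest o j hj
  -- the paths in the ball `j`
  have hball : ∀ j, x o ≤ x j → CH p (fun ω => (z o ω, (vv o j ω, dd o j ω)))
      (fun ω => (z j ω, y ω)) ≤ 2 * e := by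
    intro j hj
    have b1 := CH_swap3 h0 (z o) (fun ω => (vv o j ω, dd o j ω)) (fun ω => (z j ω, y ω))
    have b2 := hz j hj
    have b3 : CH p (fun ω => (vv o j ω, dd o j ω)) (fun ω => (z o ω, (z j ω, y ω))) ≤ e :=
      hI.J.c1 o j hj
    linarith
  have hWa' : CH p (fun ω => (Xh ω, (c ω, W ω))) (fun ω => (z (jd 0) ω, y ω)) ≤ 6 * e := by
    have b1 := hball (jd 0) (h01.trans (h02.trans h03))
    have b2 := CH_le_add h0 (fun ω => (Xh ω, (c ω, W ω)))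
      (fun ω => (z o ω, (vv o (jd 0) ω, dd o (jd 0) ω))) (fun ω => (z (jd 0) ω, y ω))
    -- the two positions
    have b3 := CH_le_add h0 (fun ω => (Xh ω, (c ω, W ω))) (fun ω => (vv o (jv 0) ω, vv o (jv g) ω))
      (fun ω => ((z o ω, (vv o (jd 0) ω, dd o (jd 0) ω)), (z (jd 0) ω, y ω)))
    have b4 := CH_subadd h0 (vv o (jv 0)) (vv o (jv g))
      (fun ω => ((z o ω, (vv o (jd 0) ω, dd o (jd 0) ω)), (z (jd 0) ω, y ω)))
    have b5 : CH p (vv o (jv 0))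
        (fun ω => ((z o ω, (vv o (jd 0) ω, dd o (jd 0) ω)), (z (jd 0) ω, y ω))) ≤ e := by
      refine le_trans ?_ (hI.V3 o (jv 0) (jd 0) h01 (h02.trans h03))
      refine CH_mono_cond h0 ?_
      intro a a' _ _ h
      simp only [Prod.mk.injEq] at h ⊢
      tauto
    have b6 : CH p (vv o (jv g))
        (fun ω => ((z o ω, (vv o (jd 0) ω, dd o (jd 0) ω)), (z (jd 0) ω, y ω))) ≤ e := by
      refine le_trans ?_ (hI.V3 o (jv g) (jd 0) (x1 g le_rfl) h03)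
      refine CH_mono_cond h0 ?_
      intro a a' _ _ h
      simp only [Prod.mk.injEq] at h ⊢
      tauto
    have b7 := CH_subadd h0 Xh (fun ω => (c ω, W ω))
      (fun ω => ((vv o (jv 0) ω, vv o (jv g) ω),
        ((z o ω, (vv o (jd 0) ω, dd o (jd 0) ω)), (z (jd 0) ω, y ω))))
    have b8 : CH p Xh (fun ω => ((vv o (jv 0) ω, vv o (jv g) ω),
        ((z o ω, (vv o (jd 0) ω, dd o (jd 0) ω)), (z (jd 0) ω, y ω)))) ≤ e := by
      refine le_trans ?_ hI.LX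
      refine CH_mono_cond h0 ?_
      intro a a' _ _ h
      simp only [Prod.mk.injEq] at h ⊢
      tauto
    have b9 : CH p (fun ω => (c ω, W ω)) (fun ω => ((vv o (jv 0) ω, vv o (jv g) ω),
        ((z o ω, (vv o (jd 0) ω, dd o (jd 0) ω)), (z (jd 0) ω, y ω)))) ≤ e := by
      refine le_trans ?_ LW
      refine CH_mono_cond h0 ?_
      intro a a' _ _ h
      simp only [Prod.mk.injEq] at h ⊢
      tauto
    linarith
  have hWa : CH p (fun ω => (X ω, (c ω, W ω))) (fun ω => (z (jd 0) ω, y ω)) ≤ 7 * e := by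
    have b1 := CH_le_add h0 (fun ω => (X ω, (c ω, W ω))) (fun ω => (Xh ω, (c ω, W ω)))
      (fun ω => (z (jd 0) ω, y ω))
    have b2 : CH p (fun ω => (X ω, (c ω, W ω)))
        (fun ω => ((Xh ω, (c ω, W ω)), (z (jd 0) ω, y ω))) ≤
        CH p (fun ω => (X ω, (c ω, W ω))) (fun ω => (Xh ω, (c ω, W ω))) :=
      CH_mono_cond h0 fun ω ω' _ _ h => (Prod.ext_iff.mp h).1
    have b3 : CH p (fun ω => (X ω, (c ω, W ω))) (fun ω => (Xh ω, (c ω, W ω))) =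
        CH p X (fun ω => (Xh ω, (c ω, W ω))) := by
      refine CH_congr h0 ?_ ?_ ?_ ?_ <;>
      · intro w w' _ _ h
        simp only [Prod.mk.injEq] at h ⊢
        tauto
    have b4 := hI.LX1
    linarith
  have hWb : CH p (fun ω => (c ω, W ω)) (fun ω => (dd o (jd 0) ω, (z (jv 0) ω, y ω))) ≤
      3 * e := by
    have b1 := hball (jv 0) h01
    have b2 := CH_le_add h0 (fun ω => (c ω, W ω)) (fun ω => (z o ω, (vv o (jv 0) ω, dd o (jv 0) ω)))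
      (fun ω => (dd o (jd 0) ω, (z (jv 0) ω, y ω)))
    have b3 : CH p (fun ω => (z o ω, (vv o (jv 0) ω, dd o (jv 0) ω)))
        (fun ω => (dd o (jd 0) ω, (z (jv 0) ω, y ω))) ≤
        CH p (fun ω => (z o ω, (vv o (jv 0) ω, dd o (jv 0) ω))) (fun ω => (z (jv 0) ω, y ω)) := by
      refine CH_mono_cond h0 ?_
      intro a a' _ _ h
      exact (Prod.ext_iff.mp h).2
    have b4 : CH p (fun ω => (c ω, W ω)) (fun ω => ((z o ω, (vv o (jv 0) ω, dd o (jv 0) ω)),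
        (dd o (jd 0) ω, (z (jv 0) ω, y ω)))) ≤ e := by
      refine le_trans ?_ LW
      refine CH_mono_cond h0 ?_
      intro a a' _ _ h
      simp only [Prod.mk.injEq] at h ⊢
      tauto
    linarith
  have hR : CH p (dd o (jd 0)) (fun ω => (z (jv 0) ω, y ω)) ≤
      ρ * CH p A (fun ω => (z (jd 0) ω, y ω)) + (4 * κ + 4 * e + ρ * (κ + 4 * e)) := by
    -- upper bound
    have b1 := hball (jv 0) h01
    have b2 := CH_le_add h0 (dd o (jd 0)) (fun ω => (z o ω, (vv o (jv 0) ω, dd o (jv 0) ω)))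
      (fun ω => (z (jv 0) ω, y ω))
    have b3 : CH p (dd o (jd 0)) (fun ω => ((z o ω, (vv o (jv 0) ω, dd o (jv 0) ω)),
        (z (jv 0) ω, y ω))) ≤ CH p (dd o (jd 0)) (fun ω => (dd o (jv 0) ω, (z o ω, y ω))) := by
      refine CH_mono_cond h0 ?_
      intro a a' _ _ h
      simp only [Prod.mk.injEq] at h ⊢
      tauto
    have b4 := hI.D.up h0 h01 (h02.trans h03)
    -- lower bound
    have hG : CH p (dd o (jd 0)) (fun ω => (z (jd 0) ω, (z o ω, y ω))) ≤ e := by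
      refine le_trans (le_of_eq ?_) (hI.D.c1 o (jd 0) (h01.trans (h02.trans h03)))
      refine CH_congr h0 ?_ ?_ ?_ ?_ <;>
      · intro w w' _ _ h
        simp only [Prod.mk.injEq] at h ⊢
        tauto
    have c1 := hI.D.down h0 hI.nest (G := dd o (jd 0)) (h01.trans (h02.trans h03)) x4 hG
    have c2 := CH_le_add h0 (dd o (jd g)) A (fun ω => (z (jd 0) ω, (dd o (jd 0) ω, (z o ω, y ω))))
    have c3 : CH p A (fun ω => (z (jd 0) ω, (dd o (jd 0) ω, (z o ω, y ω)))) ≤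
        CH p A (fun ω => (z (jd 0) ω, y ω)) := by
      refine CH_mono_cond h0 ?_
      intro a a' _ _ h
      simp only [Prod.mk.injEq] at h ⊢
      tauto
    have c4 : CH p (dd o (jd g)) (fun ω => (A ω, (z (jd 0) ω, (dd o (jd 0) ω, (z o ω, y ω))))) ≤
        e := by
      refine le_trans ?_ LA
      refine CH_mono_cond h0 ?_
      intro a a' _ _ h
      simp only [Prod.mk.injEq] at h ⊢
      tauto
    have c5 : fD (jd 0) (jd g) ≤ CH p A (fun ω => (z (jd 0) ω, y ω)) + (κ + 4 * e) := by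
      linarith
    have c6 := mul_le_mul_of_nonneg_left c5 hρ
    have e0 : 0 ≤ e := (CH_nonneg h0 _ _).trans c4
    linarith
  exact dead2 hp y (z (jd 0)) (z (jv 0)) (dd o (jd 0)) hC hb hA hc hX hτ hc₀ he₁0 herr hct hnf hall
    hρ hWa hWb hR LX2 hL

end

/-! ### Small errors -/

/-- All inputs of `dead_add`. -/
structure DIn {Ω ι Z Y 𝒱 𝒟 ζ 𝒳 : Type} [Fintype Ω] (p : Ω → ℝ) (x : ι → ℝ) (z : ι → Ω → Z)
    (y : Ω → Y) (vv : ι → ι → Ω → 𝒱) (dd : ι → ι → Ω → 𝒟) (o : ι) (jv jd : ℕ → ι) (g b : ℕ)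
    (W : Ω → ζ) (A N c X : Ω → ℤ) (Xh : Ω → 𝒳) (gJ fD : ι → ι → ℝ) (F κ e eT : ℝ) (C K : ℕ)
    (τ c₀ ec eB ρ : ℝ) : Prop where
  hp : IsLaw p
  hA : ∀ ω, 0 < p ω → |A ω| ≤ ((C * 2 ^ g : ℕ) : ℤ)
  hc : ∀ ω, 0 < p ω → |c ω| ≤ ((C * 2 ^ g : ℕ) : ℤ)
  hX : ∀ ω, 0 < p ω → |2 ^ g * X ω - (2 ^ g * N ω + A ω * c ω)| ≤ K * 2 ^ g
  x1 : ∀ i, i ≤ g → x o ≤ x (jv i)
  x2 : ∀ i, i ≤ g → x (jv i) ≤ x (jv g)
  x3 : ∀ i, i ≤ g → x (jv g) ≤ x (jd i)
  x4 : x (jd 0) ≤ x (jd g)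
  hI : Inp p x z y vv dd o jv jd g b W A N c X Xh gJ fD F κ e eT
  hE : ∀ E : Ω → Prop, (∀ ω ω', W ω = W ω' → A ω = A ω' → N ω = N ω' → (E ω ↔ E ω')) →
      0 < law p E True → c₀ ≤ law p E True →
      Inp (cond p E True) x z y vv dd o jv jd g b W A N c X Xh gJ fD F κ e eT
  hdef : ∀ i, i ≤ g → b ∣ i →
      gJ (jv i) (jv g) - fD (jv i) (jv g) ≤ (1 - τ) * (((g : ℝ) - i) * Real.log 2) + κ
  hnum : fD (jv 0) (jd 0) ≤ ρ * fD (jd 0) (jd g) + κ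
  L0 : CH p (fun ω => (vv o (jv 0) ω, (dd o (jd 0) ω, z o ω)))
      (fun ω => (y ω, (c ω, W ω))) ≤ e
  LW : CH p (fun ω => (c ω, W ω))
      (fun ω => (vv o (jv 0) ω, (dd o (jd 0) ω, (z o ω, y ω)))) ≤ e
  LA : CH p (dd o (jd g)) (fun ω => (A ω, (dd o (jd 0) ω, (z o ω, y ω)))) ≤ e
  LX2 : CH p Xh (fun ω => (X ω, (c ω, W ω))) ≤ e
  hct : Real.log (2 * (C * 2 ^ g : ℕ) + 1) - ec ≤ CH p c (fun ω => ((A ω, N ω), W ω))
  hL : g * Real.log 2 - eB ≤ CH p Xh (fun ω => (z (jv 0) ω, y ω))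

/-- The logarithms are small. -/
theorem logs_small (C : ℕ) (D η : ℝ) (hη : 0 < η) : ∃ G₀ : ℕ, ∀ g : ℕ, G₀ ≤ g →
    Real.log (2 * (g + 1)) + Real.log (nlb 1 C g) + D ≤ η * g := by
  obtain ⟨M, hM⟩ : ∃ M : ℕ, M = (2 * (2 * C + 1) + 1) ^ 1 * (2 * (1 + 2 * 1 * C ^ 2 + 1) + 1) :=
    ⟨_, rfl⟩
  have hM1 : 1 ≤ M := by
    rw [hM]
    exact Nat.one_le_iff_ne_zero.mpr (by positivity)
  have hM0 : (0 : ℝ) < M := by exact_mod_cast hM1
  obtain ⟨R, hR⟩ : ∃ R : ℝ, R = 2 * Real.log (4 / η) + Real.log 2 + Real.log M + D := ⟨_, rfl⟩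
  obtain ⟨G₀, hG⟩ := exists_nat_ge ((R + η) / (η / 2))
  refine ⟨G₀, fun g hg => ?_⟩
  have hg' : (R + η) / (η / 2) ≤ (g : ℝ) := hG.trans (by exact_mod_cast hg)
  rw [div_le_iff₀ (by positivity)] at hg'
  have g1 : (0 : ℝ) < (g : ℝ) + 1 := by positivity
  have h1 : Real.log ((g : ℝ) + 1) ≤ η / 4 * ((g : ℝ) + 1) + Real.log (4 / η) := by
    have k1 : (g : ℝ) + 1 = (η / 4 * ((g : ℝ) + 1)) * (4 / η) := by field_simp
    have k2 : Real.log ((g : ℝ) + 1) = Real.log (η / 4 * ((g : ℝ) + 1)) + Real.log (4 / η) := by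
      rw [← Real.log_mul (by positivity) (by positivity), ← k1]
    have k3 := Real.log_le_sub_one_of_pos (show 0 < η / 4 * ((g : ℝ) + 1) by positivity)
    linarith
  have h2 : Real.log (2 * ((g : ℝ) + 1)) = Real.log 2 + Real.log ((g : ℝ) + 1) :=
    Real.log_mul (by norm_num) g1.ne'
  have h3 : Real.log (nlb 1 C g) = Real.log ((g : ℝ) + 1) + Real.log M := by
    have k1 : ((nlb 1 C g : ℕ) : ℝ) = ((g : ℝ) + 1) * M := by
      rw [hM]
      unfold nlb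
      push_cast
      ring
    rw [k1, Real.log_mul g1.ne' hM0.ne']
  rw [h2, h3]
  linarith

/-- **No defect.** For `τ` and `ρ` there is `η > 0` such that the inputs with all errors at most
`η g` are contradictory, if `g` is large in terms of the constants `C` and `K`. -/
theorem dead_false {τ ρ : ℝ} (hτ : 0 < τ) (hρ : 0 ≤ ρ) :
    ∃ η : ℝ, 0 < η ∧ ∀ C K : ℕ, 1 ≤ C → ∃ G₀ : ℕ, ∀ {Ω ι Z Y 𝒱 𝒟 ζ 𝒳 : Type} [Fintype Ω] (p : Ω → ℝ) (x : ι → ℝ)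
    (z : ι → Ω → Z) (y : Ω → Y) (vv : ι → ι → Ω → 𝒱) (dd : ι → ι → Ω → 𝒟) (o : ι)
    (jv jd : ℕ → ι) (g b : ℕ) (W : Ω → ζ) (A N c X : Ω → ℤ) (Xh : Ω → 𝒳) (gJ fD : ι → ι → ℝ)
    (F κ e eT c₀ ec eB : ℝ), G₀ ≤ g → 1 ≤ b → (b : ℝ) ≤ η * g → 0 ≤ c₀ →
    ((g / b : ℕ) + 1) * c₀ ≤ η → κ ≤ η * g → e ≤ η * g → eT ≤ η * g → ec ≤ η * g →
    eB ≤ η * g →
    ¬ DIn p x z y vv dd o jv jd g b W A N c X Xh gJ fD F κ e eT C K τ c₀ ec eB ρ := by
  obtain ⟨t, ht⟩ : ∃ t, t = min 1 τ := ⟨_, rfl⟩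
  have t0 : 0 < t := by
    rw [ht]
    exact lt_min one_pos hτ
  have t1 : t ≤ 1 := by
    rw [ht]
    exact min_le_left _ _
  have t2 : t ≤ τ := by
    rw [ht]
    exact min_le_right _ _
  obtain ⟨η, hη⟩ : ∃ η, η = τ * t / (200 * (1 + ρ)) := ⟨_, rfl⟩
  have η0 : 0 < η := by
    rw [hη]
    positivity
  refine ⟨η, η0, fun C K hC => ?_⟩
  obtain ⟨G₁, hG₁⟩ := logs_small C (Real.log (2 * C + 5) + 2 * Real.log (2 * (K + 1) + 1)) η η0
  obtain ⟨G₂, hG₂⟩ := exists_nat_ge (Real.log (4 * K + 1) / η)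
  refine ⟨max 1 (max G₁ G₂), ?_⟩
  intro Ω ι Z Y 𝒱 𝒟 ζ 𝒳 _ p x z y vv dd o jv jd g b W A N c X Xh gJ fD F κ e eT c₀ ec eB hg hb hbg
    hc₀ hcb hκ he heT hec heB I
  have g1 : 1 ≤ g := (le_max_left _ _).trans hg
  have g2 := hG₁ g (((le_max_left _ _).trans (le_max_right _ _)).trans hg)
  have g3 : Real.log (4 * K + 1) ≤ η * g := by
    have h1 : Real.log (4 * K + 1) / η ≤ (g : ℝ) := hG₂.trans (by
      exact_mod_cast ((le_max_right _ _).trans (le_max_right _ _)).trans hg)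
    rw [div_le_iff₀ η0] at h1
    linarith
  have gp : (0 : ℝ) < g := by exact_mod_cast g1
  obtain ⟨u, hu⟩ : ∃ u, u = η * (g : ℝ) := ⟨_, rfl⟩
  rw [← hu] at hbg hκ he heT hec heB g2 g3
  have u0 : 0 < u := by
    rw [hu]
    positivity
  have l2 : Real.log 2 ≤ 1 := by
    have := Real.log_two_lt_d9
    linarith
  have l2' : (0.69 : ℝ) ≤ Real.log 2 := by
    have := Real.log_two_gt_d9
    linarith
  have b0 : (0 : ℝ) ≤ b := Nat.cast_nonneg b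
  have hbl : (b : ℝ) * Real.log 2 ≤ u := by
    have : (b : ℝ) * Real.log 2 ≤ b * 1 := mul_le_mul_of_nonneg_left l2 b0
    linarith
  have key := dead_add I.hp hC hb I.hA I.hc I.hX hτ hc₀ hρ I.x1 I.x2 I.x3 I.x4 I.hI I.hE I.hdef
    I.hnum I.L0 I.LW I.LA I.LX2 I.hct I.hL (e₁ := 20 * u) (err := 4 * u) (by linarith) (by linarith)
    (by linarith)
  -- the counting term
  have k1 : (((g / b : ℕ) : ℝ) + 1) * (c₀ * (g * Real.log 2)) ≤ u := by
    have h1 : (((g / b : ℕ) : ℝ) + 1) * (c₀ * (g * Real.log 2)) =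
        ((((g / b : ℕ) : ℝ) + 1) * c₀) * (g * Real.log 2) := by ring
    rw [h1]
    have h2 : (0 : ℝ) ≤ g * Real.log 2 := by positivity
    have h3 := mul_le_mul_of_nonneg_right hcb h2
    have h4 : η * (g * Real.log 2) ≤ u := by
      rw [hu]
      have := mul_le_mul_of_nonneg_left l2 (show 0 ≤ η * (g : ℝ) by positivity)
      linarith
    linarith
  have k2 : (20 * u + 4 * u) / τ = 24 * (u / τ) := by ring
  rw [k2] at key
  have k3 : ρ * (((g / b : ℕ) + 1) * (c₀ * (g * Real.log 2)) + 24 * (u / τ) + 4 * u + 7 * e) ≤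
      ρ * (12 * u + 24 * (u / τ)) := mul_le_mul_of_nonneg_left (by linarith) hρ
  have k4 : ρ * (κ + 4 * e) ≤ ρ * (5 * u) := mul_le_mul_of_nonneg_left (by linarith) hρ
  -- everything is small
  have k5 : τ * (g * Real.log 2) ≤ 33 * u + ρ * (17 * u + 24 * (u / τ)) := by
    have : ρ * (17 * u + 24 * (u / τ)) = ρ * (5 * u) + ρ * (12 * u + 24 * (u / τ)) := by ring
    linarith
  have hr : 0 < 1 + ρ := by linarith
  have q1 : (1 + ρ) * u = τ * t / 200 * g := by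
    rw [hu, hη]
    field_simp
  have q2 : τ * t / 200 * g ≤ τ / 200 * g := by
    have : τ * t ≤ τ * 1 := mul_le_mul_of_nonneg_left t1 hτ.le
    have h2 : τ * t / 200 ≤ τ / 200 := by linarith
    exact mul_le_mul_of_nonneg_right h2 gp.le
  have q3 : (1 + ρ) * (u / τ) = t / 200 * g := by
    have : (1 + ρ) * (u / τ) = ((1 + ρ) * u) / τ := by ring
    rw [this, q1]
    field_simp
  have q4 : t / 200 * g ≤ τ / 200 * g := by
    refine mul_le_mul_of_nonneg_right ?_ gp.le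
    linarith
  have r1 : 33 * u + ρ * (17 * u + 24 * (u / τ)) ≤ (1 + ρ) * (33 * u) +
      24 * ((1 + ρ) * (u / τ)) := by
    have s1 : 0 ≤ ρ * u := by positivity
    have s2 : 0 ≤ u / τ := by positivity
    have s3 : (1 + ρ) * (33 * u) + 24 * ((1 + ρ) * (u / τ)) -
        (33 * u + ρ * (17 * u + 24 * (u / τ))) = 16 * (ρ * u) + 24 * (u / τ) := by ring
    linarith
  have r2 : (1 + ρ) * (33 * u) = 33 * ((1 + ρ) * u) := by ring
  have r3 : τ * (g * Real.log 2) ≤ 57 * (τ / 200 * g) := by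
    rw [r2] at r1
    linarith
  have r4 : τ * (g * 0.69) ≤ τ * (g * Real.log 2) :=
    mul_le_mul_of_nonneg_left (mul_le_mul_of_nonneg_left l2' gp.le) hτ.le
  have r5 : 0 < τ * g := by positivity
  linarith

end Pool.SAT43
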