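import Pool.Agent.H83.REC.Exq
import Pool.Agent.H17.COR.Law

/-!
# A coordinate given the coordinate before it, in a zoom with a record; the free digits of the time

`hu_row`: two coordinates `ε 0`, `ε 1` of the zoom `v` with the numbers `L` of the zooms, the
velocity of `ε 0` is active. If the visible variable knows `ε 0` to `U₀` places, then `ε 1` is free
behind the place `Q`, the number of `ε 1` over `ε 0`, given the exact value of `ε 0`.
`hc_row`: the digits of the time behind the window are free given the deviation of `ε 0` from a path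
which is known by the visible variable.
-/

set_option autoImplicit false

namespace Pool.OWN43

open Finset Real
open Pool.Agent.H49.Ent Pool.Agent.H32.Dense Pool.STK Pool.KA Pool.KSAT Pool.K2S Pool.PB Pool.S6C
open Pool.GEN Pool.REX Pool.REX83

variable {m n : ℕ}

/-- Exactness behind records in a given order, for all the families of the class. -/
theorem rexv_bas (hF : FZX n) {S : PCl m} {C₀ : ℝ} (hC₀ : 0 ≤ C₀) (htm : TmC S C₀) (hne : S.Ne)
    (v : Vz m) (ε : Fin n → Fin m) {L : Finset (Fin n) → Fin n → ℝ → ℝ → ℝ}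
    (hL : LamW (RecV S v ε) L) {N : ℚ → ℚ → ℝ} {al : ℝ} {g₀ : ℝ → ℝ} (hal : 0 < al)
    (hg₀ : ∀ e : ℝ, 0 < e → 0 < g₀ e) (hM : ActM N al g₀) {σ : Fin n → Fin n}
    (hσ : Function.Injective σ) (hact : ∀ k : Fin n, (k : ℕ) = 0 → ActB N (RecV S v ε) (σ k))
    {w : ℝ} (hw : w ∈ Wv L σ) {ρ : ℝ} (hρ : 0 < ρ) : Bas S (fun J F A =>
      ((∑ j : Fin n, (1 - v.sc (vs L σ w (j + 1)))) - ρ) * Real.log 2 * J ≤
        CH (Pool.Agent.H49.Ent.cond F.p A True) (fun ω j => F.X J ω (ε j))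
          (fun ω => (v.y J F ω, F.W ω))) := by
  have h1 := rexv n hF hC₀ htm v ε (recV_ne hne v ε) (fun _ _ _ _ h => h) hL hal hg₀ hM hσ hact hw
    ρ hρ
  obtain ⟨τ, hτ, J₁, hb⟩ := h1
  refine ⟨τ, hτ, J₁, fun J hJ F A hA => hb J hJ F A ⟨hA, fun h => ?_⟩⟩
  have hb0 := v.b0
  have hb1 := v.b1
  have hp0 := v.p0
  have hp1 := v.p1
  refine (RecV S v ε).mono ?_ (recV_mk hA h)
  have hc : 0 < (1 - v.b) * (1 - v.p) := mul_pos (by linarith) (by linarith)
  have h1c : 1 ≤ 1 / ((1 - v.b) * (1 - v.p)) := by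
    rw [le_div_iff₀ hc, one_mul]
    exact mul_le_one₀ (by linarith) (by linarith) (by linarith)
  calc τ = 1 * τ := (one_mul τ).symm
    _ ≤ 1 / ((1 - v.b) * (1 - v.p)) * τ := mul_le_mul_of_nonneg_right h1c hτ.le

/-- The first coordinate has the number `w` if it is active. -/
theorem act_num {S : PCl m} (hne : S.Ne) {C₀ : ℝ} (htm : TmC S C₀) (v : Vz m)
    (ε : Fin n → Fin m) {L : Finset (Fin n) → Fin n → ℝ → ℝ → ℝ} (hL : LamW (RecV S v ε) L)
    {N : ℚ → ℚ → ℝ} {al : ℝ} {g₀ : ℝ → ℝ} (hal : 0 < al) (hg₀ : ∀ e : ℝ, 0 < e → 0 < g₀ e)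
    (hM : ActM N al g₀) {κ : Fin n} (hB : ActB N (RecV S v ε) κ) {w r : ℝ} (hw0 : 0 ≤ w)
    (hw1 : w < 1) : L ∅ κ w r = w := by
  refine hL.act (recV_ne hne v ε) hal (hM.q hg₀) hB ⟨1, one_pos, 0, fun J _ F A hA => ?_⟩ hw0 hw1
  have hpos : ∀ (τ : ℝ) (J : ℕ) (F : Fam m J) (A : F.Ω → Prop), S.St τ J F A → 0 < Pe F.p A := by
    intro τ J F A h
    exact (htm (max τ 1) J F A (lt_of_lt_of_le one_pos (le_max_right _ _))
      (S.mono (le_max_left _ _) h)).1
  exact recv_pos v ε hpos 1 J F A hA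

/-- `sc` is affine. -/
theorem sc_le (v : Vz m) {w : ℝ} (hw : 0 ≤ w) : v.sc w ≤ v.sc 0 + w := by
  unfold Vz.sc
  have hb := v.b0
  have hb1 := v.b1
  have hp := v.p0
  have hp1 := v.p1
  have h1 : (1 - v.b) * (1 - v.p) ≤ 1 := mul_le_one₀ (by linarith) (by linarith) (by linarith)
  have h2 : (1 - v.b) * (1 - v.p) * w ≤ 1 * w := mul_le_mul_of_nonneg_right h1 hw
  nlinarith

/-- A small window outside a countable set. -/
theorem small_win {D : Set ℝ} (hD : D.Countable) {x : ℝ} (hx : 0 < x) :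
    ∃ w : ℝ, 0 < w ∧ w < x ∧ w ∉ D := by
  obtain ⟨w, h1, h2⟩ := (hD.dense_compl ℝ).exists_mem_open isOpen_Ioo
    (Set.nonempty_Ioo.mpr hx)
  exact ⟨w, h2.1, h2.2, h1⟩

/-- **Exactness of one coordinate.** -/
theorem hy_row (hF : FZX 1) {S : PCl m} {C₀ : ℝ} (hC₀ : 0 ≤ C₀) (htm : TmC S C₀) (hne : S.Ne)
    (v : Vz m) (ε : Fin 1 → Fin m) {L : Finset (Fin 1) → Fin 1 → ℝ → ℝ → ℝ}
    (hL : LamW (RecV S v ε) L) {N : ℚ → ℚ → ℝ} {al : ℝ} {g₀ : ℝ → ℝ} (hal : 0 < al)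
    (hg₀ : ∀ e : ℝ, 0 < e → 0 < g₀ e) (hM : ActM N al g₀) (hB : ActB N (RecV S v ε) 0)
    {ρ : ℝ} (hρ : 0 < ρ) : Bas S (fun J F A =>
      (1 - v.sc 0 - ρ) * Real.log 2 * J ≤ CH (Pool.Agent.H49.Ent.cond F.p A True)
        (fun ω => F.X J ω (ε 0)) (fun ω => (v.y J F ω, F.W ω))) := by
  have hl2 : 0 < Real.log 2 := Real.log_pos one_lt_two
  obtain ⟨w, hw0, hw1, hwD⟩ := small_win (vct_ae hL (fun j : Fin 1 => j))
    (x := min (1 / 2) (ρ / 2)) (lt_min (by norm_num) (by linarith))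
  have hwh : w < 1 / 2 := hw1.trans_le (min_le_left _ _)
  have hwρ : w < ρ / 2 := hw1.trans_le (min_le_right _ _)
  have hct : Vct L (fun j : Fin 1 => j) w := by
    by_contra h
    exact hwD h
  have hW : w ∈ Wv L (fun j : Fin 1 => j) := by
    refine ⟨hw0, by linarith, ?_, hct⟩
    intro j k _
    have : k = j := Subsingleton.elim _ _
    subst this
    exact (vs_succ L _ w k).le
  have h1 := rexv_bas hF hC₀ htm hne v ε hL hal hg₀ hM (σ := fun j => j) (fun a b h => h)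
    (fun k _ => by
      have : k = 0 := Subsingleton.elim _ _
      rw [this]
      exact hB) hW (ρ := ρ / 2) (by linarith)
  have hv1 : vs L (fun j : Fin 1 => j) w 1 = w := by
    have h2 := vs_succ L (fun j : Fin 1 => j) w 0
    simp only [Fin.isValue, Fin.val_zero, zero_add] at h2
    rw [h2]
    unfold vn
    have e1 : ((Finset.Iio (0 : Fin 1)).image fun j : Fin 1 => j) = ∅ := by
      ext a
      simp
    rw [e1]
    exact act_num hne htm v ε hL hal hg₀ hM hB hw0.le (by linarith)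
  refine Bas.mono 0 h1 ?_
  rintro J - F A h2
  have hJ : (0 : ℝ) ≤ J := Nat.cast_nonneg J
  rw [Fin.sum_univ_one] at h2
  simp only [Fin.isValue, Fin.val_zero, zero_add] at h2
  rw [hv1] at h2
  have h3 : CH (Pool.Agent.H49.Ent.cond F.p A True) (fun ω (j : Fin 1) => F.X J ω (ε j))
      (fun ω => (v.y J F ω, F.W ω)) ≤ CH (Pool.Agent.H49.Ent.cond F.p A True)
        (fun ω => F.X J ω (ε 0)) (fun ω => (v.y J F ω, F.W ω)) := by
    refine CH_mono_left (fun ω => cond_nonneg F.isLaw.nonneg A True ω) ?_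
    intro a a' _ _ h
    simp only [Prod.mk.injEq] at h ⊢
    funext j
    have : j = 0 := Subsingleton.elim _ _
    rw [this]
    exact h.1
  refine le_trans ?_ (h2.trans h3)
  refine mul_le_mul_of_nonneg_right (mul_le_mul_of_nonneg_right ?_ hl2.le) hJ
  have := sc_le v hw0.le
  linarith

/-- **A coordinate given the coordinate before it.** -/
theorem hu_row (hF : FZX 2) {S : PCl m} {C₀ : ℝ} (hC₀ : 0 ≤ C₀) (htm : TmC S C₀) (hne : S.Ne)
    (v : Vz m) (ε : Fin 2 → Fin m) {L : Finset (Fin 2) → Fin 2 → ℝ → ℝ → ℝ}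
    (hL : LamW (RecV S v ε) L) {N : ℚ → ℚ → ℝ} {al : ℝ} {g₀ : ℝ → ℝ} (hal : 0 < al)
    (hg₀ : ∀ e : ℝ, 0 < e → 0 < g₀ e) (hM : ActM N al g₀) (hB : ActB N (RecV S v ε) 0)
    {w₀ Q : ℝ} (hw₀ : 0 < w₀) (hQ : ∀ w : ℝ, 0 < w → w < w₀ → v.sc (L {0} 1 w w) ≤ Q) {U₀ : ℝ}
    (hy : ∀ h : ℝ, 0 < h → Bas S (fun J F A => CH (Pool.Agent.H49.Ent.cond F.p A True)
      (fun ω => F.X J ω (ε 0)) (fun ω => (v.y J F ω, F.W ω)) ≤ (1 - U₀ + h) * Real.log 2 * J))
    {ρ : ℝ} (hρ : 0 < ρ) : Bas S (fun J F A =>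
      (1 - Q - (v.sc 0 - U₀) - ρ) * Real.log 2 * J ≤ CH (Pool.Agent.H49.Ent.cond F.p A True)
        (fun ω => F.X J ω (ε 1)) (fun ω => (F.X J ω (ε 0), (v.y J F ω, F.W ω)))) := by
  have hl2 : 0 < Real.log 2 := Real.log_pos one_lt_two
  obtain ⟨w, hw0, hw1, hwD⟩ := small_win (vct_ae hL (fun j : Fin 2 => j))
    (x := min (min (1 / 2) w₀) (ρ / 4)) (lt_min (lt_min (by norm_num) hw₀) (by linarith))
  have hwh : w < 1 / 2 := hw1.trans_le ((min_le_left _ _).trans (min_le_left _ _))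
  have hww : w < w₀ := hw1.trans_le ((min_le_left _ _).trans (min_le_right _ _))
  have hwρ : w < ρ / 4 := hw1.trans_le (min_le_right _ _)
  have hct : Vct L (fun j : Fin 2 => j) w := by
    by_contra h
    exact hwD h
  have hv1 : vs L (fun j : Fin 2 => j) w 1 = w := by
    have h2 := vs_succ L (fun j : Fin 2 => j) w 0
    simp only [Fin.isValue, Fin.val_zero, zero_add] at h2
    rw [h2]
    unfold vn
    have e1 : ((Finset.Iio (0 : Fin 2)).image fun j : Fin 2 => j) = ∅ := by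
      ext a
      simp
    rw [e1]
    exact act_num hne htm v ε hL hal hg₀ hM hB hw0.le (by linarith)
  have hv2 : vs L (fun j : Fin 2 => j) w 2 = L {0} 1 w w := by
    have h2 := vs_succ L (fun j : Fin 2 => j) w 1
    simp only [Fin.isValue, Fin.val_one] at h2
    rw [h2]
    unfold vn
    have e1 : ((Finset.Iio (1 : Fin 2)).image fun j : Fin 2 => j) = {0} := by
      ext a
      fin_cases a <;> simp
    rw [e1]
    simp only [Fin.isValue, Fin.val_one]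
    rw [hv1]
  have hW : w ∈ Wv L (fun j : Fin 2 => j) := by
    refine ⟨hw0, by linarith, ?_, hct⟩
    intro j k hjk
    rcases eq_or_ne j k with h | h
    · subst h
      exact (vs_succ L _ w j).le
    · have hj : j = 0 := by
        have h1 : j < k := lt_of_le_of_ne hjk h
        have h2 : (j : ℕ) < (k : ℕ) := h1
        have h3 := k.2
        apply Fin.ext
        simp only [Fin.isValue, Fin.val_zero]
        omega
      subst hj
      simp only [Fin.isValue, Fin.val_zero, zero_add]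
      rw [hv1]
      unfold vn
      exact hL.low _ _ _ _ (by linarith)
  have h1 := rexv_bas hF hC₀ htm hne v ε hL hal hg₀ hM (σ := fun j => j) (fun a b h => h)
    (fun k hk => by
      have : k = 0 := Fin.ext hk
      rw [this]
      exact hB) hW (ρ := ρ / 4) (by linarith)
  refine Bas.mono 0 (h1.and (hy (ρ / 4) (by linarith))) ?_
  rintro J - F A ⟨h2, h3⟩
  have hJ : (0 : ℝ) ≤ J := Nat.cast_nonneg J
  have h0 : ∀ ω, 0 ≤ Pool.Agent.H49.Ent.cond F.p A True ω := fun ω =>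
    cond_nonneg F.isLaw.nonneg A True ω
  rw [Fin.sum_univ_two] at h2
  simp only [Fin.isValue, Fin.val_zero, zero_add, Fin.val_one] at h2
  rw [hv1, hv2] at h2
  have h4 : CH (Pool.Agent.H49.Ent.cond F.p A True) (fun ω (j : Fin 2) => F.X J ω (ε j))
      (fun ω => (v.y J F ω, F.W ω)) ≤ CH (Pool.Agent.H49.Ent.cond F.p A True)
        (fun ω => (F.X J ω (ε 1), F.X J ω (ε 0))) (fun ω => (v.y J F ω, F.W ω)) := by
    refine CH_mono_left h0 ?_
    intro a a' _ _ h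
    simp only [Prod.mk.injEq] at h ⊢
    funext j
    fin_cases j
    · exact h.1.2
    · exact h.1.1
  have h5 := CH_chain h0 (fun ω => F.X J ω (ε 1)) (fun ω => F.X J ω (ε 0))
    (fun ω => (v.y J F ω, F.W ω))
  have h6 := sc_le v hw0.le
  have h7 := hQ w hw0 hww
  have h8 : (1 - Q - (v.sc 0 - U₀) - ρ) * Real.log 2 * J +
      (1 - U₀ + ρ / 4) * Real.log 2 * J ≤
      (1 - v.sc w + (1 - v.sc (L {0} 1 w w)) - ρ / 4) * Real.log 2 * J := by
    have e1 : (1 - Q - (v.sc 0 - U₀) - ρ) * Real.log 2 * J +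
        (1 - U₀ + ρ / 4) * Real.log 2 * J =
        (1 - Q - v.sc 0 + 1 - 3 * ρ / 4) * Real.log 2 * J := by ring
    rw [e1]
    refine mul_le_mul_of_nonneg_right (mul_le_mul_of_nonneg_right ?_ hl2.le) hJ
    linarith
  linarith

/-! ### The free digits of the time -/

/-- **The digits of the time** behind the window are free given the rest of the time and a variable
`DY` with few values which determines `ε 0` at the time. -/
theorem hc_one {J w g : ℕ} {F : Fam m J} {q : F.Ω → ℝ} (hq : IsLaw q) {κ : Type} (y : F.Ω → κ)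
    (X : F.Ω → ℤ) (DY : F.Ω → ℤ) {e a D : ℝ} (hwg : w + g ≤ J)
    (hyl : ∀ ω ω' : F.Ω, 0 < q ω → 0 < q ω' → slam F w ω = slam F w ω' → y ω = y ω')
    (htm : (J : ℝ) * Real.log 2 - e ≤ CH q F.T (fun ω => (F.l ω, F.Z ω)))
    (hx : a ≤ CH q X (fun ω => (y ω, F.W ω)))
    (hX : ∀ ω ω' : F.Ω, 0 < q ω → 0 < q ω' → (y ω, F.W ω) = (y ω', F.W ω') → DY ω = DY ω' →
      X ω = X ω')
    (hD : ∀ ω ω' : F.Ω, 0 < q ω → 0 < q ω' → y ω = y ω' → |((DY ω - DY ω' : ℤ) : ℝ)| ≤ D) :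
    g * Real.log 2 - e + a - Real.log (2 * D + 1) ≤
      CH q (fun ω => Pool.OWN17.cT J w g (F.T ω)) (fun ω => (y ω, ((F.T1 w ω,
        Pool.OWN17.fT J w g (F.T ω)), (DY ω, F.Z ω)))) := by
  have h0 := hq.nonneg
  have hw : w ≤ J := by omega
  -- the digits given the line
  obtain ⟨c, hc⟩ : ∃ c : F.Ω → ℕ, c = fun ω => Pool.OWN17.cT J w g (F.T ω) := ⟨_, rfl⟩
  obtain ⟨R, hR⟩ : ∃ R : F.Ω → κ × ((ℕ × ℕ) × F.ζ), R = fun ω => (y ω, ((F.T1 w ω,
    Pool.OWN17.fT J w g (F.T ω)), F.Z ω)) := ⟨_, rfl⟩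
  have a1 : CH q F.T (fun ω => (F.l ω, F.Z ω)) ≤
      CH q (fun ω => (F.T1 w ω, Pool.OWN17.fT J w g (F.T ω))) (fun ω => (F.l ω, F.Z ω)) +
        CH q F.T (fun ω => ((F.T1 w ω, Pool.OWN17.fT J w g (F.T ω)), (F.l ω, F.Z ω))) :=
    CH_le_add h0 _ _ _
  have a2 : CH q (fun ω => (F.T1 w ω, Pool.OWN17.fT J w g (F.T ω))) (fun ω => (F.l ω, F.Z ω)) ≤
      (J - g : ℝ) * Real.log 2 := by
    have b1 := CH_le_card h0 hq.sum_one (fun ω => (F.T1 w ω, Pool.OWN17.fT J w g (F.T ω)))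
      (fun ω => (F.l ω, F.Z ω)) (fun _ => (Finset.range (2 ^ w)) ×ˢ (Finset.range (2 ^ (J - w - g))))
      (by
        intro ω _
        rw [Finset.mem_product, Finset.mem_range, Finset.mem_range]
        constructor
        · show F.T ω / 2 ^ (J - w) < 2 ^ w
          rw [Nat.div_lt_iff_lt_mul (by positivity), ← pow_add]
          have e1 : w + (J - w) = J := by omega
          rw [e1]
          exact F.tim ω
        · show F.T ω % 2 ^ (J - w) % 2 ^ (J - w - g) < 2 ^ (J - w - g)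
          exact Nat.mod_lt _ (by positivity))
    refine b1.trans (le_of_eq ?_)
    rw [Ex_const hq.sum_one, Finset.card_product, Finset.card_range, Finset.card_range]
    have e1 : ((2 ^ w * 2 ^ (J - w - g) : ℕ) : ℝ) = (2 : ℝ) ^ (w + (J - w - g)) := by
      push_cast
      rw [pow_add]
    have e2 : w + (J - w - g) = J - g := by omega
    rw [e1, e2, Real.log_pow, Nat.cast_sub (by omega)]
  have a3 : CH q F.T (fun ω => ((F.T1 w ω, Pool.OWN17.fT J w g (F.T ω)), (F.l ω, F.Z ω))) ≤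
      CH q c (fun ω => ((F.T1 w ω, Pool.OWN17.fT J w g (F.T ω)), (F.l ω, F.Z ω))) := by
    have b1 := CH_le_add h0 F.T c
      (fun ω => ((F.T1 w ω, Pool.OWN17.fT J w g (F.T ω)), (F.l ω, F.Z ω)))
    have b2 : CH q F.T (fun ω => (c ω, ((F.T1 w ω, Pool.OWN17.fT J w g (F.T ω)),
        (F.l ω, F.Z ω)))) = 0 := by
      refine CH_eq_zero h0 ?_
      intro ω ω' _ _ h
      rw [hc] at h
      simp only [Prod.mk.injEq] at h
      exact Pool.OWN17.T_of h.2.1.1 h.1 h.2.1.2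
    linarith
  have a4 : CH q c (fun ω => ((F.T1 w ω, Pool.OWN17.fT J w g (F.T ω)), (F.l ω, F.Z ω))) ≤
      CH q c R := by
    refine CH_mono_cond h0 ?_
    intro ω ω' hω hω' h
    simp only [Prod.mk.injEq] at h
    rw [hR]
    obtain ⟨⟨h1, h2⟩, h3, h4⟩ := h
    have h5 : slam F w ω = slam F w ω' := by
      unfold slam
      rw [h1, h3, h4]
    simp only [Prod.mk.injEq]
    exact ⟨hyl ω ω' hω hω' h5, ⟨h1, h2⟩, h4⟩
  -- `ε 0` at the time
  have a5 : a ≤ CH q DY (fun ω => (c ω, R ω)) := by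
    have b1 : CH q X (fun ω => (c ω, R ω)) ≤ CH q DY (fun ω => (c ω, R ω)) +
        CH q X (fun ω => (DY ω, (c ω, R ω))) := CH_le_add h0 _ _ _
    have b2 : CH q X (fun ω => (DY ω, (c ω, R ω))) = 0 := by
      refine CH_eq_zero h0 ?_
      intro ω ω' hω hω' h
      rw [hc, hR] at h
      simp only [Prod.mk.injEq] at h
      obtain ⟨h1, h2, h3, ⟨h4, h5⟩, h6⟩ := h
      have h7 : F.T ω = F.T ω' := Pool.OWN17.T_of h4 h2 h5
      refine hX ω ω' hω hω' ?_ h1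
      show (y ω, (F.T ω, F.Z ω)) = (y ω', (F.T ω', F.Z ω'))
      rw [h3, h7, h6]
    have b3 : CH q X (fun ω => (y ω, F.W ω)) ≤ CH q X (fun ω => (c ω, R ω)) := by
      refine CH_mono_cond h0 ?_
      intro ω ω' _ _ h
      have h1 : y ω = y ω' := (Prod.ext_iff.mp h).1
      have h2 : (F.T ω, F.Z ω) = (F.T ω', F.Z ω') := (Prod.ext_iff.mp h).2
      have h3 : F.T ω = F.T ω' := (Prod.ext_iff.mp h2).1
      have h4 : F.Z ω = F.Z ω' := (Prod.ext_iff.mp h2).2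
      rw [hc, hR]
      simp only [Prod.mk.injEq]
      exact ⟨by rw [h3], h1, ⟨by unfold Fam.T1; rw [h3], by rw [h3]⟩, h4⟩
    linarith
  have a6 : CH q DY R ≤ Real.log (2 * D + 1) := by
    have b1 := CH_le_int h0 hq.sum_one DY R (fun _ => D) (by
      intro ω ω' hω hω' h
      rw [hR] at h
      simp only [Prod.mk.injEq] at h
      exact hD ω ω' hω hω' h.1)
    rwa [Ex_const hq.sum_one] at b1
  have a7 := CH_bayes h0 c DY R
  have a8 : CH q c (fun ω => (DY ω, R ω)) ≤ CH q (fun ω => Pool.OWN17.cT J w g (F.T ω))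
      (fun ω => (y ω, ((F.T1 w ω, Pool.OWN17.fT J w g (F.T ω)), (DY ω, F.Z ω)))) := by
    rw [hc, hR]
    refine CH_mono_cond h0 ?_
    intro ω ω' _ _ h
    simp only [Prod.mk.injEq] at h ⊢
    tauto
  linarith

/-- **The free digits of the time, for a class.** `yr` is the position of a path which is known by
the visible variable, `X - yr` is at most `4 * 2 ^ (J - B - i)`. -/
theorem hc_row {S : PCl m} {C₀ : ℝ} (hC₀ : 0 ≤ C₀) (htm : TmC S C₀) (v : Vz m) (k : Fin m)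
    (hx : ∀ ρ : ℝ, 0 < ρ → Bas S (fun J F A =>
      (1 - v.sc 0 - ρ) * Real.log 2 * J ≤ CH (Pool.Agent.H49.Ent.cond F.p A True)
        (fun ω => F.X J ω k) (fun ω => (v.y J F ω, F.W ω)))) {ρ : ℝ} (hρ : 0 < ρ) :
    Bas S (fun J F A => ∀ g i : ℕ, v.B J + g ≤ J → i ≤ J - v.B J → ∀ yr : F.Ω → ℤ,
      (∀ ω ω' : F.Ω, A ω → A ω' → v.y J F ω = v.y J F ω' → F.W ω = F.W ω' → yr ω = yr ω') →
      (∀ ω, A ω → |F.X J ω k - yr ω| ≤ 4 * 2 ^ (J - v.B J - i)) →
      g * Real.log 2 - ρ * J - (v.sc 0 * J - v.B J - i) * Real.log 2 ≤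
        CH (Pool.Agent.H49.Ent.cond F.p A True)
          (fun ω => Pool.OWN17.cT J (v.B J) g (F.T ω))
          (fun ω => (v.y J F ω, ((F.T1 (v.B J) ω, Pool.OWN17.fT J (v.B J) g (F.T ω)),
            (F.X J ω k - yr ω, F.Z ω))))) := by
  have hl2 : 0 < Real.log 2 := Real.log_pos one_lt_two
  have hl2' : Real.log 2 ≤ 1 := by
    have := Real.log_two_lt_d9
    linarith
  obtain ⟨τ₁, hτ₁, J₁, hb⟩ := hx (ρ / 3) (by linarith)
  obtain ⟨τ, hτ⟩ : ∃ τ, τ = min τ₁ (ρ / (3 * (C₀ + 1))) := ⟨_, rfl⟩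
  have hτ0 : 0 < τ := by
    rw [hτ]
    exact lt_min hτ₁ (by positivity)
  have hτb : C₀ * τ ≤ ρ / 3 := by
    have h1 : τ ≤ ρ / (3 * (C₀ + 1)) := by rw [hτ]; exact min_le_right _ _
    rw [le_div_iff₀ (by positivity)] at h1
    nlinarith
  obtain ⟨J₂, hJ₂⟩ := exists_nat_ge (9 / ρ)
  refine ⟨τ, hτ0, max J₁ J₂, fun J hJ F A hA g i hg hi yr hyr hdev => ?_⟩
  have hJ0 : (0 : ℝ) ≤ J := Nat.cast_nonneg J
  have hj2 : 3 ≤ ρ / 3 * J := by
    have h1 : (J₂ : ℝ) ≤ J := by exact_mod_cast (le_max_right _ _).trans hJ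
    have h2 := hJ₂.trans h1
    rw [div_le_iff₀ hρ] at h2
    linarith
  have hApos := (htm τ J F A hτ0 hA).1
  have hq := isLaw_cond F.isLaw hApos
  have hsup : ∀ ω, 0 < Pool.Agent.H49.Ent.cond F.p A True ω → A ω := by
    intro ω hω
    have := ((cond_pos_iff F.isLaw.nonneg A True ω).mp hω).2
    exact this ▸ trivial
  have h1 := hb J ((le_max_left _ _).trans hJ) F A (S.mono (by rw [hτ]; exact min_le_left _ _) hA)
  have h2 : (J : ℝ) * Real.log 2 - C₀ * τ * J ≤ CH (Pool.Agent.H49.Ent.cond F.p A True) F.T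
      (fun ω => (F.l ω, F.Z ω)) := (htm τ J F A hτ0 hA).2 hq
  have key := hc_one (w := v.B J) (g := g) (F := F) hq (v.y J F) (fun ω => F.X J ω k)
    (fun ω => F.X J ω k - yr ω) (e := C₀ * τ * J) (D := 8 * 2 ^ (J - v.B J - i)) hg
    (fun ω ω' _ _ h => v.line J F ω ω' h) h2 h1
    (by
      intro ω ω' hω hω' h3 h4
      have h5 := hyr ω ω' (hsup ω hω) (hsup ω' hω') (Prod.ext_iff.mp h3).1 (Prod.ext_iff.mp h3).2
      show F.X J ω k = F.X J ω' k
      have h6 : F.X J ω k - yr ω = F.X J ω' k - yr ω' := h4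
      omega)
    (by
      intro ω ω' hω hω' _
      have h3 := abs_le.mp (hdev ω (hsup ω hω))
      have h4 := abs_le.mp (hdev ω' (hsup ω' hω'))
      have h5 : |(F.X J ω k - yr ω) - (F.X J ω' k - yr ω')| ≤ 8 * 2 ^ (J - v.B J - i) := by
        rw [abs_le]
        constructor <;> linarith [h3.1, h3.2, h4.1, h4.2]
      have h6 : ((|(F.X J ω k - yr ω) - (F.X J ω' k - yr ω')| : ℤ) : ℝ) ≤
          ((8 * 2 ^ (J - v.B J - i) : ℤ) : ℝ) := Int.cast_le.mpr h5
      push_cast at h6 ⊢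
      exact h6)
  have hlog : Real.log (2 * (8 * 2 ^ (J - v.B J - i)) + 1) ≤
      ((J : ℝ) - v.B J - i) * Real.log 2 + 3 := by
    have e0 : (1 : ℝ) ≤ 2 ^ (J - v.B J - i) := one_le_pow₀ (by norm_num)
    have e1 : (2 * (8 * 2 ^ (J - v.B J - i)) + 1 : ℝ) ≤ 2 ^ (J - v.B J - i) * Real.exp 3 := by
      have h3 : (17 : ℝ) ≤ Real.exp 3 := by
        have h4 : Real.exp 3 = Real.exp 1 * Real.exp 1 * Real.exp 1 := by
          rw [← Real.exp_add, ← Real.exp_add]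
          norm_num
        have h5 := Real.exp_one_gt_d9
        have h6 : (2.7 : ℝ) ≤ Real.exp 1 := by linarith
        rw [h4]
        have h7 : (2.7 : ℝ) * 2.7 ≤ Real.exp 1 * Real.exp 1 :=
          mul_le_mul h6 h6 (by norm_num) (by positivity)
        have h8 : (2.7 * 2.7 : ℝ) * 2.7 ≤ Real.exp 1 * Real.exp 1 * Real.exp 1 :=
          mul_le_mul h7 h6 (by norm_num) (by positivity)
        linarith
      have h4 : (2 : ℝ) ^ (J - v.B J - i) * 17 ≤ 2 ^ (J - v.B J - i) * Real.exp 3 :=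
        mul_le_mul_of_nonneg_left h3 (by positivity)
      linarith
    have e2 := Real.log_le_log (by positivity) e1
    rw [Real.log_mul (by positivity) (by positivity), Real.log_exp, Real.log_pow] at e2
    have e3 : ((J - v.B J - i : ℕ) : ℝ) = (J : ℝ) - v.B J - i := by
      rw [Nat.cast_sub hi, Nat.cast_sub (by omega)]
    rw [e3] at e2
    exact e2
  have e4 : C₀ * τ * (J : ℝ) ≤ ρ / 3 * J := mul_le_mul_of_nonneg_right hτb hJ0
  have e5 : (1 - v.sc 0 - ρ / 3) * Real.log 2 * J =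
      (1 - v.sc 0) * Real.log 2 * J - ρ / 3 * Real.log 2 * J := by ring
  have e6 : ρ / 3 * Real.log 2 * J ≤ ρ / 3 * J := by
    have : ρ / 3 * Real.log 2 ≤ ρ / 3 * 1 := mul_le_mul_of_nonneg_left hl2' (by linarith)
    have := mul_le_mul_of_nonneg_right this hJ0
    linarith
  refine le_trans ?_ key
  rw [e5]
  have e7 : g * Real.log 2 - ρ * J - (v.sc 0 * J - v.B J - i) * Real.log 2 =
      g * Real.log 2 + (1 - v.sc 0) * Real.log 2 * J - ((J : ℝ) - v.B J - i) * Real.log 2 -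
        ρ * J := by ring
  rw [e7]
  linarith

/-! ### With the data `RDt` -/

/-- Exactness of one coordinate. -/
theorem hy_rdt (hF : FZX 1) {S : PCl m} {C₀ : ℝ} (hC₀ : 0 ≤ C₀) (htm : TmC S C₀) (hne : S.Ne)
    {v : Vz m} {ε : Fin 1 → Fin m} {p : ℝ} {κ : Fin 1}
    {L : Finset (Fin 1) → Fin 1 → ℝ → ℝ → ℝ} (h : RDt S v ε p κ L) {ρ : ℝ} (hρ : 0 < ρ) :
    Bas S (fun J F A =>
      (1 - (v.b + (1 - v.b) * p) - ρ) * Real.log 2 * J ≤
        CH (Pool.Agent.H49.Ent.cond F.p A True)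
          (fun ω => F.X J ω (ε 0)) (fun ω => (v.y J F ω, F.W ω))) := by
  obtain ⟨p0, p1, hL, ⟨Na, al, g₀, hal, hg₀, hM, hB⟩, -⟩ := h
  have hκ : κ = 0 := Subsingleton.elim _ _
  rw [hκ] at hB
  have h1 := hy_row hF hC₀ htm hne (atp v p p0.le (p1.trans (by norm_num))) ε hL hal hg₀ hM hB hρ
  have e1 : (atp v p p0.le (p1.trans (by norm_num))).sc 0 = v.b + (1 - v.b) * p := by
    show v.b + (1 - v.b) * (p + (1 - p) * 0) = _
    ring
  rw [e1] at h1
  exact h1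

/-- **The free digits of the time** in a zoom with a record. -/
theorem hc_rdt (hF : FZX 1) {S : PCl m} {C₀ : ℝ} (hC₀ : 0 ≤ C₀) (htm : TmC S C₀) (hne : S.Ne)
    {v : Vz m} {ε : Fin 1 → Fin m} {p : ℝ} {κ : Fin 1}
    {L : Finset (Fin 1) → Fin 1 → ℝ → ℝ → ℝ} (h : RDt S v ε p κ L) {ρ : ℝ} (hρ : 0 < ρ) :
    Bas S (fun J F A => ∀ g i : ℕ, v.B J + g ≤ J → i ≤ J - v.B J → ∀ yr : F.Ω → ℤ,
      (∀ ω ω' : F.Ω, A ω → A ω' → v.y J F ω = v.y J F ω' → F.W ω = F.W ω' → yr ω = yr ω') →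
      (∀ ω, A ω → |F.X J ω (ε 0) - yr ω| ≤ 4 * 2 ^ (J - v.B J - i)) →
      g * Real.log 2 - ρ * J -
          ((v.b + (1 - v.b) * p) * J - v.B J - i) * Real.log 2 ≤
        CH (Pool.Agent.H49.Ent.cond F.p A True)
          (fun ω => Pool.OWN17.cT J (v.B J) g (F.T ω))
          (fun ω => (v.y J F ω, ((F.T1 (v.B J) ω, Pool.OWN17.fT J (v.B J) g (F.T ω)),
            (F.X J ω (ε 0) - yr ω, F.Z ω))))) := by
  obtain ⟨p0, p1, -⟩ := id h
  have e1 : (atp v p p0.le (p1.trans (by norm_num))).sc 0 = v.b + (1 - v.b) * p := by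
    show v.b + (1 - v.b) * (p + (1 - p) * 0) = _
    ring
  have h1 := hc_row hC₀ htm (atp v p p0.le (p1.trans (by norm_num))) (ε 0) (by
    intro ρ' hρ'
    rw [e1]
    exact hy_rdt hF hC₀ htm hne h hρ') hρ
  rw [e1] at h1
  exact h1

/-- **A coordinate given the coordinate before it.** -/
theorem hu_rdt (hF : FZX 2) {S : PCl m} {C₀ : ℝ} (hC₀ : 0 ≤ C₀) (htm : TmC S C₀) (hne : S.Ne)
    {v : Vz m} {ε : Fin 2 → Fin m} {p : ℝ} {L : Finset (Fin 2) → Fin 2 → ℝ → ℝ → ℝ}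
    (h : RDt S v ε p 0 L) {w₀ Q : ℝ} (hw₀ : 0 < w₀)
    (hQ : ∀ w : ℝ, 0 < w → w < w₀ → v.b + (1 - v.b) * (p + (1 - p) * L {0} 1 w w) ≤ Q) {U₀ : ℝ}
    (hy : ∀ h : ℝ, 0 < h → Bas S (fun J F A => CH (Pool.Agent.H49.Ent.cond F.p A True)
      (fun ω => F.X J ω (ε 0)) (fun ω => (v.y J F ω, F.W ω)) ≤ (1 - U₀ + h) * Real.log 2 * J))
    {ρ : ℝ} (hρ : 0 < ρ) : Bas S (fun J F A =>
      (1 - Q - (v.b + (1 - v.b) * p - U₀) - ρ) * Real.log 2 * J ≤
        CH (Pool.Agent.H49.Ent.cond F.p A True)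
          (fun ω => F.X J ω (ε 1)) (fun ω => (F.X J ω (ε 0), (v.y J F ω, F.W ω)))) := by
  obtain ⟨p0, p1, hL, ⟨Na, al, g₀, hal, hg₀, hM, hB⟩, -⟩ := h
  have h1 := hu_row hF hC₀ htm hne (atp v p p0.le (p1.trans (by norm_num))) ε hL hal hg₀ hM hB
    hw₀ hQ hy hρ
  have e1 : (atp v p p0.le (p1.trans (by norm_num))).sc 0 = v.b + (1 - v.b) * p := by
    show v.b + (1 - v.b) * (p + (1 - p) * 0) = _
    ring
  rw [e1] at h1
  exact h1

/-- The exact position has few values given a path which is known by the visible variable. -/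
theorem hy_cnt {S : PCl m} {C₀ : ℝ} (htm : TmC S C₀) (v : Vz m) (k : Fin m)
    {i : ℕ → ℕ} {U₀ : ℝ} (hi : ∀ J, i J ≤ J - v.B J)
    (hU : ∀ h : ℝ, 0 < h → ∃ J₀ : ℕ, ∀ J ≥ J₀, (U₀ - h) * (J : ℝ) ≤ v.B J + i J)
    (hr : Bas S (fun J F A => ∃ yr : F.Ω → ℤ,
      (∀ ω ω' : F.Ω, A ω → A ω' → v.y J F ω = v.y J F ω' → F.W ω = F.W ω' → yr ω = yr ω') ∧
      (∀ ω, A ω → |F.X J ω k - yr ω| ≤ 4 * 2 ^ (J - v.B J - i J)))) {h : ℝ} (hh : 0 < h) :
    Bas S (fun J F A => CH (Pool.Agent.H49.Ent.cond F.p A True)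
      (fun ω => F.X J ω k) (fun ω => (v.y J F ω, F.W ω)) ≤ (1 - U₀ + h) * Real.log 2 * J) := by
  have hl2 : 0 < Real.log 2 := Real.log_pos one_lt_two
  obtain ⟨τ₁, hτ₁, J₁, hb⟩ := hr
  obtain ⟨J₂, hJ₂⟩ := hU (h / 2) (by linarith)
  obtain ⟨J₃, hJ₃⟩ := exists_nat_ge (3 / (h / 2 * Real.log 2))
  refine ⟨τ₁, hτ₁, max J₁ (max J₂ J₃), fun J hJ F A hA => ?_⟩
  have hJ0 : (0 : ℝ) ≤ J := Nat.cast_nonneg J
  obtain ⟨yr, hyr, hdev⟩ := hb J ((le_max_left _ _).trans hJ) F A hA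
  have hu := hJ₂ J (((le_max_left _ _).trans (le_max_right _ _)).trans hJ)
  have hj3 : 3 ≤ h / 2 * Real.log 2 * J := by
    have h1 : (J₃ : ℝ) ≤ J := by
      exact_mod_cast ((le_max_right _ _).trans (le_max_right _ _)).trans hJ
    have h2 := hJ₃.trans h1
    rw [div_le_iff₀ (by positivity)] at h2
    linarith
  have hApos := (htm τ₁ J F A hτ₁ hA).1
  have hq := isLaw_cond F.isLaw hApos
  have hsup : ∀ ω, 0 < Pool.Agent.H49.Ent.cond F.p A True ω → A ω := by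
    intro ω hω
    have := ((cond_pos_iff F.isLaw.nonneg A True ω).mp hω).2
    exact this ▸ trivial
  have b1 := CH_le_int hq.nonneg hq.sum_one (fun ω => F.X J ω k) (fun ω => (v.y J F ω, F.W ω))
    (fun _ => (8 * 2 ^ (J - v.B J - i J) : ℝ)) (by
      intro ω ω' hω hω' h3
      have h5 := hyr ω ω' (hsup ω hω) (hsup ω' hω') (Prod.ext_iff.mp h3).1 (Prod.ext_iff.mp h3).2
      have h6 := abs_le.mp (hdev ω (hsup ω hω))
      have h7 := abs_le.mp (hdev ω' (hsup ω' hω'))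
      have h8 : |F.X J ω k - F.X J ω' k| ≤ 8 * 2 ^ (J - v.B J - i J) := by
        rw [abs_le]
        rw [h5] at h6
        constructor <;> linarith [h6.1, h6.2, h7.1, h7.2]
      have h9 : ((|F.X J ω k - F.X J ω' k| : ℤ) : ℝ) ≤ ((8 * 2 ^ (J - v.B J - i J) : ℤ) : ℝ) :=
        Int.cast_le.mpr h8
      push_cast at h9 ⊢
      exact h9)
  rw [Ex_const hq.sum_one] at b1
  have hlog : Real.log (2 * (8 * 2 ^ (J - v.B J - i J)) + 1) ≤
      ((J : ℝ) - v.B J - i J) * Real.log 2 + 3 := by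
    have e0 : (1 : ℝ) ≤ 2 ^ (J - v.B J - i J) := one_le_pow₀ (by norm_num)
    have e1 : (2 * (8 * 2 ^ (J - v.B J - i J)) + 1 : ℝ) ≤ 2 ^ (J - v.B J - i J) * Real.exp 3 := by
      have h3 : (17 : ℝ) ≤ Real.exp 3 := by
        have h4 : Real.exp 3 = Real.exp 1 * Real.exp 1 * Real.exp 1 := by
          rw [← Real.exp_add, ← Real.exp_add]
          norm_num
        have h5 := Real.exp_one_gt_d9
        have h6 : (2.7 : ℝ) ≤ Real.exp 1 := by linarith
        rw [h4]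
        have h7 : (2.7 : ℝ) * 2.7 ≤ Real.exp 1 * Real.exp 1 :=
          mul_le_mul h6 h6 (by norm_num) (by positivity)
        have h8 : (2.7 * 2.7 : ℝ) * 2.7 ≤ Real.exp 1 * Real.exp 1 * Real.exp 1 :=
          mul_le_mul h7 h6 (by norm_num) (by positivity)
        linarith
      have h4 : (2 : ℝ) ^ (J - v.B J - i J) * 17 ≤ 2 ^ (J - v.B J - i J) * Real.exp 3 :=
        mul_le_mul_of_nonneg_left h3 (by positivity)
      linarith
    have e2 := Real.log_le_log (by positivity) e1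
    rw [Real.log_mul (by positivity) (by positivity), Real.log_exp, Real.log_pow] at e2
    have e3 : ((J - v.B J - i J : ℕ) : ℝ) = (J : ℝ) - v.B J - i J := by
      rw [Nat.cast_sub (hi J), Nat.cast_sub (v.floor_le J).1]
    rw [e3] at e2
    exact e2
  have e4 : ((J : ℝ) - v.B J - i J) * Real.log 2 ≤ ((J : ℝ) - (U₀ - h / 2) * J) * Real.log 2 :=
    mul_le_mul_of_nonneg_right (by linarith) hl2.le
  have e5 : (1 - U₀ + h) * Real.log 2 * J =
      ((J : ℝ) - (U₀ - h / 2) * J) * Real.log 2 + h / 2 * Real.log 2 * J := by ring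
  show CH (Pool.Agent.H49.Ent.cond F.p A True) (fun ω => F.X J ω k)
    (fun ω => (v.y J F ω, F.W ω)) ≤ (1 - U₀ + h) * Real.log 2 * J
  rw [e5]
  linarith

end Pool.OWN43
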