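import Pool.Agent.H43.OWN.Fld
import Pool.Agent.H43.OWN.P5
import Pool.Agent.H17.COR.Vk
import Pool.Agent.H6.OWN.NgD

/-!
# The rows of the zooms of the places
-/

set_option autoImplicit false

namespace Pool.OWN43

open Finset Real
open Pool.Agent.H49.Ent Pool.Agent.H32.Dense Pool.STK Pool.KA Pool.KSAT Pool.K2S Pool.PB Pool.S6C
  Pool.GEN Pool.RCD Pool.LA91 Pool.MIC6 Pool.REX Pool.REX83 Pool.OWN17 Pool.CH30 Pool.OWN68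

variable {m : ℕ} {S : PCl m}
  {y u v : Fin m} {b W O : ℝ} {hb0 : 0 ≤ b} {hb1 : b < 1} {hWb : W ≤ b}
  {NU NV iN I : ℕ → ℕ} {a b' a₁ b₁ : ∀ (J : ℕ) (F : Fam m J), LnT F → Fin 4 → ℝ}
  {𝒮 𝒬 : ∀ J : ℕ, Fam m J → Type} {cs : ∀ (J : ℕ) (F : Fam m J), LnT F → 𝒮 J F}
  {q : ∀ (J : ℕ) (F : Fam m J), LnT F → 𝒬 J F}

/-- The charts of the tube from the codes. -/
theorem hC_det {J : ℕ} {F : Fam m J} {w w₀ : ℕ} {al be : LnT F → Fin 4 → ℝ} {ω ω' : F.Ω}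
    (h1 : al (slam F w₀ ω) = al (slam F w₀ ω')) (h2 : be (slam F w₀ ω) = be (slam F w₀ ω'))
    (h3 : tw0 F w ω = tw0 F w ω') :
    Pool.OWN17.hC F w w₀ al be ω = Pool.OWN17.hC F w w₀ al be ω' := by
  unfold Pool.OWN17.hC
  rw [h1, h2, h3]

/-- The digits of the direction are nested. -/
theorem D_nest {J : ℕ} (F : Fam m J) {i j : ℕ} (h : i ≤ j) {ω ω' : F.Ω}
    (e : F.D j ω = F.D j ω') : F.D i ω = F.D i ω' := by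
  funext k
  have e1 : (⌊(2 : ℝ) ^ j * F.d ω k⌋ : ℤ) = ⌊(2 : ℝ) ^ j * F.d ω' k⌋ := congrFun e k
  have key : ∀ x : ℝ, (⌊(2 : ℝ) ^ i * x⌋ : ℤ) = ⌊(2 : ℝ) ^ j * x⌋ / (2 ^ (j - i) : ℕ) := by
    intro x
    rw [← Int.floor_div_natCast]
    congr 1
    have : (2 : ℝ) ^ j = 2 ^ (j - i) * 2 ^ i := by
      rw [← pow_add]
      congr 1
      omega
    push_cast
    rw [this]
    field_simp
  show (⌊(2 : ℝ) ^ i * F.d ω k⌋ : ℤ) = ⌊(2 : ℝ) ^ i * F.d ω' k⌋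
  rw [key, key, e1]

/-- A constant is small against the resolution. -/
theorem cst_small (C : ℝ) {h : ℝ} (hh : 0 < h) : ∃ J₀ : ℕ, ∀ J ≥ J₀, C ≤ h * (J : ℝ) := by
  obtain ⟨J₀, hJ₀⟩ := exists_nat_ge (C / h)
  refine ⟨J₀, fun J hJ => ?_⟩
  have h1 : (J₀ : ℝ) ≤ J := by exact_mod_cast hJ
  have h2 := hJ₀.trans h1
  rw [div_le_iff₀ hh] at h2
  linarith

theorem cond_sup {J : ℕ} {F : Fam m J} {A : F.Ω → Prop} {ω : F.Ω}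
    (hω : 0 < Pool.Agent.H49.Ent.cond F.p A True ω) : A ω := by
  have := ((cond_pos_iff F.isLaw.nonneg A True ω).1 hω).2
  exact of_eq_true this

theorem flr_le {b : ℝ} (hb0 : 0 ≤ b) (hb1 : b < 1) (J : ℕ) : ⌊b * (J : ℝ)⌋₊ ≤ J := by
  have hJ : (0 : ℝ) ≤ J := Nat.cast_nonneg J
  have h1 : (⌊b * (J : ℝ)⌋₊ : ℝ) ≤ b * J := Nat.floor_le (mul_nonneg hb0 hJ)
  have h2 : (⌊b * (J : ℝ)⌋₊ : ℝ) ≤ J := by nlinarith
  exact_mod_cast h2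

/-- (1) The record is few bits given the exact point and the digits of the direction. -/
theorem hrec_vk (hpos : ∀ (τ : ℝ) (J : ℕ) (F : Fam m J) (A : F.Ω → Prop), S.St τ J F A → 0 < Pe F.p A)
    {c : ℕ} {P₀ : ℝ}
    (hD : ∀ (τ : ℝ) (J : ℕ) (F : Fam m J) (A : F.Ω → Prop), S.St τ J F A →
      Dpl (Pool.Agent.H49.Ent.cond F.p A True) c J ⌊b * J⌋₊ (NU J) (NV J) (I J)
        (lnF F y u v ⌊b * J⌋₊) (hC F ⌊b * J⌋₊ ⌊W * J⌋₊ (a J F) (b' J F))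
        (fC F ⌊O * J⌋₊ (a₁ J F) (b₁ J F)) F.T (fun ω => F.X J ω y)
        (AuC F ⌊W * J⌋₊ ⌊O * J⌋₊ (a J F) (a₁ J F))
        (AvC F ⌊W * J⌋₊ ⌊O * J⌋₊ (b' J F) (a₁ J F) (b₁ J F)))
    (hcl : ∀ (τ : ℝ) (J : ℕ) (F : Fam m J) (A : F.Ω → Prop), S.St τ J F A →
      ∀ ω ω', A ω → A ω' → ptr F J ω = ptr F J ω' →
        cs J F (slam F ⌊b * J⌋₊ ω) = cs J F (slam F ⌊b * J⌋₊ ω') ∧
        a J F (slam F ⌊W * J⌋₊ ω) = a J F (slam F ⌊W * J⌋₊ ω') ∧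
        b' J F (slam F ⌊W * J⌋₊ ω) = b' J F (slam F ⌊W * J⌋₊ ω') ∧
        a₁ J F (slam F ⌊O * J⌋₊ ω) = a₁ J F (slam F ⌊O * J⌋₊ ω') ∧
        b₁ J F (slam F ⌊O * J⌋₊ ω) = b₁ J F (slam F ⌊O * J⌋₊ ω'))
    (hcs : ∀ (J : ℕ) (F : Fam m J) (ω ω' : F.Ω), cs J F (slam F ⌊b * J⌋₊ ω) =
      cs J F (slam F ⌊b * J⌋₊ ω') → a J F (slam F ⌊W * J⌋₊ ω) = a J F (slam F ⌊W * J⌋₊ ω') ∧
        b' J F (slam F ⌊W * J⌋₊ ω) = b' J F (slam F ⌊W * J⌋₊ ω') ∧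
        tw0 F ⌊b * J⌋₊ ω = tw0 F ⌊b * J⌋₊ ω')
    {J₀ : ℕ} (hi : ∀ J ≥ J₀, iN J ≤ I J ∧ iN J ≤ ⌊P₀ * J⌋₊)
    (hq : ∀ h : ℝ, 0 < h → Bas S (fun J F A => CH (Pool.Agent.H49.Ent.cond F.p A True)
      (fun ω => q J F (slam F ⌊b * J⌋₊ ω)) (fun ω => (F.D ⌊P₀ * J⌋₊ ω, (F.X J ω, F.W ω))) ≤
        h * J)) :
    ∀ h : ℝ, 0 < h → Bas S (fun J F A =>
      CH (Pool.Agent.H49.Ent.cond F.p A True)
        ((vkZ y u v b W hb0 hb1 hWb NU NV iN a b' cs q).y J F)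
        (fun ω => (F.D ⌊P₀ * J⌋₊ ω, (F.X J ω, F.W ω))) ≤ h * J) := by
  intro h hh
  obtain ⟨C, hCe⟩ : ∃ C : ℝ, C = 2 * Real.log (2 * ((3 * c : ℕ) + 1) + 1) +
    2 * Real.log (2 * ((6 * c : ℕ) + 1) + 1) + 3 * Real.log 11 := ⟨_, rfl⟩
  obtain ⟨J₁, hJ₁⟩ := cst_small C (half_pos hh)
  obtain ⟨τ, hτ, J₂, hb⟩ := hq (h / 2) (half_pos hh)
  refine ⟨τ, hτ, max J₀ (max J₁ J₂), fun J hJ F A hA => ?_⟩
  have j0 : J₀ ≤ J := (le_max_left _ _).trans hJ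
  have j1 : J₁ ≤ J := ((le_max_left _ _).trans (le_max_right _ _)).trans hJ
  have j2 : J₂ ≤ J := ((le_max_right _ _).trans (le_max_right _ _)).trans hJ
  have hp := isLaw_cond F.isLaw (hpos τ J F A hA)
  have h0 := hp.nonneg
  have hZ : ∀ ω ω' : F.Ω, 0 < Pool.Agent.H49.Ent.cond F.p A True ω →
      0 < Pool.Agent.H49.Ent.cond F.p A True ω' →
      (F.D ⌊P₀ * J⌋₊ ω, (F.X J ω, F.W ω)) = (F.D ⌊P₀ * J⌋₊ ω', (F.X J ω', F.W ω')) →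
      F.D (iN J) ω = F.D (iN J) ω' ∧ F.X J ω = F.X J ω' ∧ F.T ω = F.T ω' ∧
      cs J F (slam F ⌊b * J⌋₊ ω) = cs J F (slam F ⌊b * J⌋₊ ω') ∧
      a J F (slam F ⌊W * J⌋₊ ω) = a J F (slam F ⌊W * J⌋₊ ω') ∧
      b' J F (slam F ⌊W * J⌋₊ ω) = b' J F (slam F ⌊W * J⌋₊ ω') ∧
      a₁ J F (slam F ⌊O * J⌋₊ ω) = a₁ J F (slam F ⌊O * J⌋₊ ω') ∧
      b₁ J F (slam F ⌊O * J⌋₊ ω) = b₁ J F (slam F ⌊O * J⌋₊ ω') := by
    intro ω ω' h1 h2 hh'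
    simp only [Prod.mk.injEq] at hh'
    obtain ⟨k1, k2, k3⟩ := hh'
    exact ⟨D_nest F (hi J j0).2 k1, k2, congrArg Prod.fst k3,
      hcl τ J F A hA ω ω' (cond_sup h1) (cond_sup h2) (Prod.ext k2 k3)⟩
  have k1 := rec_fld (p := Pool.Agent.H49.Ent.cond F.p A True) (cs := fun ω =>
    cs J F (slam F ⌊b * J⌋₊ ω)) (Z := fun ω => (F.D ⌊P₀ * J⌋₊ ω, (F.X J ω, F.W ω))) hp
    (hD τ J F A hA) (hi J j0).1 (fun ω ω' _ _ hh' => by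
      obtain ⟨k2, k3, k4⟩ := hcs J F ω ω' hh'
      exact hC_det k2 k3 k4) (fun ω ω' h1 h2 hh' => by
      obtain ⟨k2, k3, k4, -⟩ := hZ ω ω' h1 h2 hh'
      simp only [Prod.mk.injEq]
      exact ⟨congrFun k2 y, k4, congrFun k3 y⟩) (fun ω ω' h1 h2 hh' =>
      (hZ ω ω' h1 h2 hh').2.2.2.1) (fun ω ω' h1 h2 hh' => by
      obtain ⟨-, -, k4, -, k5, k6, k7, k8⟩ := hZ ω ω' h1 h2 hh'
      unfold AuC Fam.t
      rw [k4, k5, k7]) (fun ω ω' h1 h2 hh' => by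
      obtain ⟨-, -, k4, -, k5, k6, k7, k8⟩ := hZ ω ω' h1 h2 hh'
      unfold AvC Fam.t
      rw [k4, k6, k7, k8]) (fun ω ω' h1 h2 hh' => by
      obtain ⟨-, -, k4, -, k5, k6, k7, k8⟩ := hZ ω ω' h1 h2 hh'
      unfold fC
      rw [k7, k8])
  have k2 := hb J j2 F A hA
  have k3 := CH_subadd h0 (fun ω => q J F (slam F ⌊b * J⌋₊ ω))
    (Rd J ⌊b * J⌋₊ (NU J) (NV J) (iN J) (lnF F y u v ⌊b * J⌋₊)
      (hC F ⌊b * J⌋₊ ⌊W * J⌋₊ (a J F) (b' J F)) F.T (fun ω => cs J F (slam F ⌊b * J⌋₊ ω)))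
    (fun ω => (F.D ⌊P₀ * J⌋₊ ω, (F.X J ω, F.W ω)))
  have k4 := hJ₁ J j1
  rw [← hCe] at k1
  refine k3.trans ?_
  linarith

/-- (2) The exact coordinate. -/
theorem hy_vk (hpos : ∀ (τ : ℝ) (J : ℕ) (F : Fam m J) (A : F.Ω → Prop), S.St τ J F A → 0 < Pe F.p A)
    {Y : ℝ} {J₀ : ℕ} (hwi : ∀ J ≥ J₀, ⌊b * J⌋₊ + iN J ≤ J)
    (hY : ∀ r : ℝ, 0 < r → ∃ J₀ : ℕ, ∀ J ≥ J₀, (Y - r) * (J : ℝ) ≤ ⌊b * J⌋₊ + iN J) :
    ∀ h : ℝ, 0 < h → Bas S (fun J F A =>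
      CH (Pool.Agent.H49.Ent.cond F.p A True) (fun ω => F.X J ω y)
        (fun ω => ((vkZ y u v b W hb0 hb1 hWb NU NV iN a b' cs q).y J F ω, F.W ω)) ≤
        (1 - Y + h) * Real.log 2 * J) := by
  intro h hh
  obtain ⟨J₁, hJ₁⟩ := cst_small (Real.log 9) (mul_pos (half_pos hh) (Real.log_pos one_lt_two))
  obtain ⟨J₂, hJ₂⟩ := hY (h / 2) (half_pos hh)
  refine ⟨1, one_pos, max J₀ (max J₁ J₂), fun J hJ F A hA => ?_⟩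
  have j0 : J₀ ≤ J := (le_max_left _ _).trans hJ
  have j1 : J₁ ≤ J := ((le_max_left _ _).trans (le_max_right _ _)).trans hJ
  have j2 : J₂ ≤ J := ((le_max_right _ _).trans (le_max_right _ _)).trans hJ
  have hp := isLaw_cond F.isLaw (hpos 1 J F A hA)
  have k1 := hy_fld (p := Pool.Agent.H49.Ent.cond F.p A True) (y := y) (u := u) (v := v)
    (NU := NU J) (NV := NV J) (cs := fun ω => cs J F (slam F ⌊b * J⌋₊ ω))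
    (h := hC F ⌊b * J⌋₊ ⌊W * J⌋₊ (a J F) (b' J F))
    (Z := fun ω => ((vkZ y u v b W hb0 hb1 hWb NU NV iN a b' cs q).y J F ω, F.W ω)) hp
    (hwi J j0) (fun ω ω' h1 h2 hh' => by
      have k1 := (Prod.ext_iff.mp (Prod.ext_iff.mp hh').1).2
      have k2 : F.T ω = F.T ω' := congrArg Prod.fst (Prod.ext_iff.mp hh').2
      exact Prod.ext k1 k2)
  have k2 := hJ₁ J j1
  have k3 := hJ₂ J j2
  have hl2 : 0 < Real.log 2 := Real.log_pos one_lt_two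
  refine k1.trans ?_
  have k4 := mul_le_mul_of_nonneg_right k3 hl2.le
  have e1 : ((J : ℝ) - ⌊b * J⌋₊ - iN J) * Real.log 2 =
      J * Real.log 2 - (⌊b * J⌋₊ + iN J) * Real.log 2 := by ring
  have e2 : (1 - Y + h) * Real.log 2 * J = J * Real.log 2 - (Y - h / 2) * J * Real.log 2 +
      h / 2 * Real.log 2 * J := by ring
  rw [e1, e2]
  linarith

/-- (3) The exact coordinates `u`, `v`. -/
theorem huv_vk (hpos : ∀ (τ : ℝ) (J : ℕ) (F : Fam m J) (A : F.Ω → Prop), S.St τ J F A → 0 < Pe F.p A)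
    {E κ : ℝ} {e g : ℕ → ℕ}
    (hbd : ∀ (τ : ℝ) (J : ℕ) (F : Fam m J) (A : F.Ω → Prop), S.St τ J F A → ∀ ω, A ω →
      |a J F (slam F ⌊W * J⌋₊ ω) 2| ≤ 2 ^ e J ∧ |b' J F (slam F ⌊W * J⌋₊ ω) 2| ≤ 2 ^ e J ∧
        |b' J F (slam F ⌊W * J⌋₊ ω) 3| ≤ 2 ^ e J)
    (hcs : ∀ (J : ℕ) (F : Fam m J) (ω ω' : F.Ω), cs J F (slam F ⌊b * J⌋₊ ω) =
      cs J F (slam F ⌊b * J⌋₊ ω') → a J F (slam F ⌊W * J⌋₊ ω) = a J F (slam F ⌊W * J⌋₊ ω') ∧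
        b' J F (slam F ⌊W * J⌋₊ ω) = b' J F (slam F ⌊W * J⌋₊ ω') ∧
        tw0 F ⌊b * J⌋₊ ω = tw0 F ⌊b * J⌋₊ ω')
    (hup : Bas S (fun J F A => CH (Pool.Agent.H49.Ent.cond F.p A True)
      (fun ω => (hgU J ⌊b * J⌋₊ (NU J + iN J + g J) (lnF F y u v ⌊b * J⌋₊)
          (hC F ⌊b * J⌋₊ ⌊W * J⌋₊ (a J F) (b' J F)) F.T ω,
        hgV J ⌊b * J⌋₊ (NV J + iN J + g J) (lnF F y u v ⌊b * J⌋₊)
          (hC F ⌊b * J⌋₊ ⌊W * J⌋₊ (a J F) (b' J F)) F.T ω))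
      (Nd J ⌊b * J⌋₊ (NU J) (NV J) (iN J) (lnF F y u v ⌊b * J⌋₊)
        (hC F ⌊b * J⌋₊ ⌊W * J⌋₊ (a J F) (b' J F)) F.T (fun ω => F.X J ω y)
        (fun ω => cs J F (slam F ⌊b * J⌋₊ ω))) ≤ κ * J))
    {J₀ : ℕ} (hN : ∀ J ≥ J₀, NU J + iN J + g J + e J ≤ J ∧ NV J + iN J + g J + e J ≤ J)
    (hE : ∀ J ≥ J₀, κ * J + (2 * J - (NU J + NV J + 2 * iN J + 2 * g J)) * Real.log 2 +
      (3 * Real.log 11 + Real.log 9) ≤ (2 - E) * Real.log 2 * J) :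
    Bas S (fun J F A =>
      CH (Pool.Agent.H49.Ent.cond F.p A True) (fun ω => (F.X J ω u, F.X J ω v))
        (fun ω => (F.X J ω y, ((vkZ y u v b W hb0 hb1 hWb NU NV iN a b' cs q).y J F ω, F.W ω))) ≤
        (2 - E) * Real.log 2 * J) := by
  have hb := hup
  obtain ⟨τ, hτ, J₂, hb⟩ := hb
  refine ⟨τ, hτ, max J₀ J₂, fun J hJ F A hA => ?_⟩
  have j0 : J₀ ≤ J := (le_max_left _ _).trans hJ
  have j2 : J₂ ≤ J := (le_max_right _ _).trans hJ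
  have hp := isLaw_cond F.isLaw (hpos τ J F A hA)
  have k1 := huv_fld (p := Pool.Agent.H49.Ent.cond F.p A True) (F := F) (y := y) (u := u) (v := v)
    (w := ⌊b * J⌋₊) (NU := NU J) (NV := NV J) (i := iN J) (g := g J)
    (al := fun ω => a J F (slam F ⌊W * J⌋₊ ω)) (be := fun ω => b' J F (slam F ⌊W * J⌋₊ ω))
    (cs := fun ω => cs J F (slam F ⌊b * J⌋₊ ω)) (E := e J)
    (Z := fun ω => (F.X J ω y,
      ((vkZ y u v b W hb0 hb1 hWb NU NV iN a b' cs q).y J F ω, F.W ω))) hp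
    (flr_le hb0 hb1 J) (hN J j0).1 (hN J j0).2
    (fun ω ω' _ _ hh' => (hcs J F ω ω' hh').1) (fun ω ω' _ _ hh' => (hcs J F ω ω' hh').2.1)
    (fun ω hω => (hbd τ J F A hA ω (cond_sup hω)).1)
    (fun ω hω => (hbd τ J F A hA ω (cond_sup hω)).2) (fun ω ω' h1 h2 hh' => by
      have k1 : F.X J ω y = F.X J ω' y := (Prod.ext_iff.mp hh').1
      have k2 := (Prod.ext_iff.mp hh').2
      have k3 := (Prod.ext_iff.mp (Prod.ext_iff.mp k2).1).2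
      have k4 : F.T ω = F.T ω' := congrArg Prod.fst (Prod.ext_iff.mp k2).2
      exact Prod.ext k3 (Prod.ext k4 k1))
  have k2 := hb J j2 F A hA
  have k3 := hE J j0
  refine k1.trans (le_trans ?_ k3)
  have k4 : CH (Pool.Agent.H49.Ent.cond F.p A True)
      (fun ω => (hgU J ⌊b * J⌋₊ (NU J + iN J + g J) (lnF F y u v ⌊b * J⌋₊)
          (hC F ⌊b * J⌋₊ ⌊W * J⌋₊ (a J F) (b' J F)) F.T ω,
        hgV J ⌊b * J⌋₊ (NV J + iN J + g J) (lnF F y u v ⌊b * J⌋₊)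
          (hC F ⌊b * J⌋₊ ⌊W * J⌋₊ (a J F) (b' J F)) F.T ω))
      (Nd J ⌊b * J⌋₊ (NU J) (NV J) (iN J) (lnF F y u v ⌊b * J⌋₊)
        (hC F ⌊b * J⌋₊ ⌊W * J⌋₊ (a J F) (b' J F)) F.T (fun ω => F.X J ω y)
        (fun ω => cs J F (slam F ⌊b * J⌋₊ ω))) ≤ κ * J := k2
  refine (add_le_add (add_le_add (add_le_add (add_le_add k4 le_rfl) le_rfl) le_rfl)
    le_rfl).trans (le_of_eq ?_)
  push_cast
  ring

/-- (4) The row of `u` in the zoom. -/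
theorem hU_vk (hF : FZX 2) {C₀ : ℝ} (hC₀ : 0 ≤ C₀) (htm : TmC S C₀) (hS : S.Ne)
    (hpos : ∀ (τ : ℝ) (J : ℕ) (F : Fam m J) (A : F.Ω → Prop), S.St τ J F A → 0 < Pe F.p A)
    {L : Finset (Fin m) → Fin m → ℝ → ℝ → ℝ} (hL : LamW S L)
    {p : ℝ} {L₂ : Finset (Fin 2) → Fin 2 → ℝ → ℝ → ℝ}
    (hR : RDt S (vkZ y u v b W hb0 hb1 hWb NU NV iN a b' cs q) (![y, u] : Fin 2 → Fin m) p 0 L₂)
    (hact : ∀ (h0 : 0 ≤ p) (h1 : p < 1), ActZ S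
      (atp (vkZ y u v b W hb0 hb1 hWb NU NV iN a b' cs q) p h0 h1) (![y, u] : Fin 2 → Fin m) 0)
    {Ub t₁ a₀ a₂ x : ℝ} (ht₁ : b < t₁) (hx : 0 < x) (hUb : ∀ t, b < t → t < t₁ → L {y} u t 0 ≤ Ub)
    (ha₀ : a₀ < a₂) (ha0 : 0 < a₂) (ha1 : a₂ < 1)
    (hdp : Ub + (1 - b) * p + (a₂ - b) + x ≤ L {y} u a₀ a₀) {e gN : ℕ → ℕ}
    (hbd : ∀ (τ : ℝ) (J : ℕ) (F : Fam m J) (A : F.Ω → Prop), S.St τ J F A → ∀ ω, A ω →
      |a J F (slam F ⌊W * J⌋₊ ω) 2| ≤ 2 ^ e J)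
    (hcs : ∀ (J : ℕ) (F : Fam m J) (ω ω' : F.Ω), cs J F (slam F ⌊b * J⌋₊ ω) =
      cs J F (slam F ⌊b * J⌋₊ ω') → a J F (slam F ⌊W * J⌋₊ ω) = a J F (slam F ⌊W * J⌋₊ ω') ∧
        b' J F (slam F ⌊W * J⌋₊ ω) = b' J F (slam F ⌊W * J⌋₊ ω') ∧
        tw0 F ⌊b * J⌋₊ ω = tw0 F ⌊b * J⌋₊ ω')
    {Y : ℝ} {J₀ : ℕ} (hwi : ∀ J ≥ J₀, ⌊b * J⌋₊ + iN J ≤ J)
    (hY : ∀ r : ℝ, 0 < r → ∃ J₀ : ℕ, ∀ J ≥ J₀, (Y - r) * (J : ℝ) ≤ ⌊b * J⌋₊ + iN J)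
    (hN : ∀ J ≥ J₀, NU J + iN J + gN J + e J ≤ J) {eU : ℝ} (heU : 0 ≤ eU)
    (he : ∀ J ≥ J₀, (Ub + 2 * ((1 - b) * p) + b - Y) * J - (NU J + iN J) ≤ eU * J)
    {ρ : ℝ} (hρ : 0 < ρ) :
    Bas S (fun J F A => (gN J : ℝ) * Real.log 2 - (eU + ρ) * J ≤
      CH (Pool.Agent.H49.Ent.cond F.p A True)
        (hgU J ⌊b * J⌋₊ (NU J + iN J + gN J) (lnF F y u v ⌊b * J⌋₊)
          (hC F ⌊b * J⌋₊ ⌊W * J⌋₊ (a J F) (b' J F)) F.T)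
        (fun ω => (q J F (slam F ⌊b * J⌋₊ ω),
          (Rd J ⌊b * J⌋₊ (NU J) (NV J) (iN J) (lnF F y u v ⌊b * J⌋₊)
            (hC F ⌊b * J⌋₊ ⌊W * J⌋₊ (a J F) (b' J F)) F.T
            (fun ω => cs J F (slam F ⌊b * J⌋₊ ω)) ω, (F.T ω, F.X J ω y))))) := by
  have hl2 : 0 < Real.log 2 := Real.log_pos one_lt_two
  have hl2' : Real.log 2 ≤ 1 := by
    have := Real.log_two_lt_d9
    linarith
  obtain ⟨p0, p1, hL', -⟩ := id hR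
  have hp1 : p < 1 := p1.trans (by norm_num)
  have hact' := hact p0.le hp1
  obtain ⟨vv, hvv⟩ : ∃ vv, vv = atp (vkZ y u v b W hb0 hb1 hWb NU NV iN a b' cs q) p p0.le hp1 :=
    ⟨_, rfl⟩
  have hvb : vv.b = b := by rw [hvv]; rfl
  have hvp : vv.p = p := by rw [hvv]; rfl
  have hcp : 0 < (1 - b) * (1 - p) := mul_pos (by linarith) (by linarith)
  -- the windows near `b`
  obtain ⟨w₀, hw₀e⟩ : ∃ w₀ : ℝ, w₀ = min (1 / 2) ((t₁ - b) / 2) := ⟨_, rfl⟩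
  have hw₀ : 0 < w₀ := by
    rw [hw₀e]
    exact lt_min (by norm_num) (by linarith)
  have hw₀1 : w₀ ≤ 1 / 2 := by rw [hw₀e]; exact min_le_left _ _
  have hw₀2 : 2 * w₀ ≤ t₁ - b := by
    have : w₀ ≤ (t₁ - b) / 2 := by rw [hw₀e]; exact min_le_right _ _
    linarith
  have hQ : ∀ w : ℝ, 0 < w → w < w₀ → b + (1 - b) * (p + (1 - p) * L₂ {0} 1 w w) ≤
      Ub + (1 - b) * p := by
    intro w hw hww
    have k1 := ng_num hC₀ htm hS vv (![y, u] : Fin 2 → Fin m) hL (L' := L₂) (by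
      rw [hvv]
      exact hL') (κ := 0) (k := 1) (by
      rw [hvv]
      exact hact') (w' := w) (w := (w + w₀) / 2) (a₀ := a₀) (a := a₂) (r' := w) (by linarith)
      (by linarith) (by linarith) ha₀ ha0 ha1
    have e1 : vv.tm ((w + w₀) / 2) = b + (1 - b) * (1 - p) * ((w + w₀) / 2) := by
      unfold Vz.tm
      rw [hvb, hvp]
    have e2 : vv.sc (L₂ {0} 1 w w) = b + (1 - b) * (p + (1 - p) * L₂ {0} 1 w w) := by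
      unfold Vz.sc
      rw [hvb, hvp]
    have hcp1 : (1 - b) * (1 - p) ≤ 1 := by nlinarith
    have k2 : b < vv.tm ((w + w₀) / 2) := by
      rw [e1]
      have : 0 < (1 - b) * (1 - p) * ((w + w₀) / 2) := mul_pos hcp (by linarith)
      linarith
    have k3 : vv.tm ((w + w₀) / 2) < t₁ := by
      rw [e1]
      have : (1 - b) * (1 - p) * ((w + w₀) / 2) ≤ 1 * ((w + w₀) / 2) :=
        mul_le_mul_of_nonneg_right hcp1 (by linarith)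
      linarith
    have k4 := hUb _ k2 k3
    have k5 : min (vv.sc (L₂ {0} 1 w w) - vv.p * (1 - vv.b))
        (L {y} u a₀ a₀ - (a₂ - vv.tm ((w + w₀) / 2)) - vv.p * (1 - vv.b)) ≤ Ub := k1.trans k4
    rw [hvb, hvp, e2] at k5
    rcases min_le_iff.1 k5 with k6 | k6
    · linarith
    · exfalso
      linarith
  have hy' := hy_vk (m := m) (S := S) (y := y) (u := u) (v := v) (b := b) (W := W) (hb0 := hb0)
    (hb1 := hb1) (hWb := hWb) (NU := NU) (NV := NV) (iN := iN) (a := a) (b' := b') (cs := cs)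
    (q := q) hpos hwi hY
  have hH := hu_rdt hF hC₀ htm hS hR hw₀ hQ (U₀ := Y) hy' (half_pos hρ)
  obtain ⟨J₁, hJ₁⟩ := cst_small (Real.log 9) (half_pos hρ)
  obtain ⟨τ, hτ, J₂, hb⟩ := hH
  refine ⟨τ, hτ, max J₀ (max J₁ J₂), fun J hJ F A hA => ?_⟩
  have j0 : J₀ ≤ J := (le_max_left _ _).trans hJ
  have j1 : J₁ ≤ J := ((le_max_left _ _).trans (le_max_right _ _)).trans hJ
  have j2 : J₂ ≤ J := ((le_max_right _ _).trans (le_max_right _ _)).trans hJ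
  have hJ0 : (0 : ℝ) ≤ J := Nat.cast_nonneg J
  have hp := isLaw_cond F.isLaw (hpos τ J F A hA)
  have k1 := hU_fld (p := Pool.Agent.H49.Ent.cond F.p A True) (F := F) (y := y) (u := u) (v := v)
    (w := ⌊b * J⌋₊) (NU := NU J) (NV := NV J) (i := iN J) (g := gN J)
    (al := fun ω => a J F (slam F ⌊W * J⌋₊ ω)) (be := fun ω => b' J F (slam F ⌊W * J⌋₊ ω))
    (cs := fun ω => cs J F (slam F ⌊b * J⌋₊ ω)) (q := fun ω => q J F (slam F ⌊b * J⌋₊ ω))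
    (E := e J) hp (flr_le hb0 hb1 J) (hN J j0)
    (fun ω ω' _ _ hh' => (hcs J F ω ω' hh').1)
    (fun ω hω => hbd τ J F A hA ω (cond_sup hω)) (hb J j2 F A hA)
  have k2 := hJ₁ J j1
  have k3 := he J j0
  refine le_trans ?_ k1
  have e1 : (vkZ y u v b W hb0 hb1 hWb NU NV iN a b' cs q).b = b := rfl
  rw [e1]
  push_cast
  have k4 : ((Ub + 2 * ((1 - b) * p) + b - Y) * J - (NU J + iN J)) * Real.log 2 ≤ eU * J := by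
    have k5 : ((Ub + 2 * ((1 - b) * p) + b - Y) * J - (NU J + iN J)) * Real.log 2 ≤
        eU * J * Real.log 2 := mul_le_mul_of_nonneg_right k3 hl2.le
    have k6 : eU * J * Real.log 2 ≤ eU * J * 1 :=
      mul_le_mul_of_nonneg_left hl2' (mul_nonneg heU hJ0)
    linarith
  have k5 : ρ / 2 * J * Real.log 2 ≤ ρ / 2 * J * 1 :=
    mul_le_mul_of_nonneg_left hl2' (mul_nonneg (half_pos hρ).le hJ0)
  have e2 : (1 - (Ub + (1 - b) * p) - (b + (1 - b) * p - Y) - ρ / 2) * Real.log 2 * J -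
      (J - (NU J + iN J + gN J)) * Real.log 2 = gN J * Real.log 2 -
      ((Ub + 2 * ((1 - b) * p) + b - Y) * J - (NU J + iN J)) * Real.log 2 -
      ρ / 2 * J * Real.log 2 := by ring
  rw [e2]
  linarith

/-- (5) The row of the times in the zoom. -/
theorem hc_vk (hF : FZX 1) {C₀ : ℝ} (hC₀ : 0 ≤ C₀) (htm : TmC S C₀) (hS : S.Ne)
    {p : ℝ} {L₁ : Finset (Fin 1) → Fin 1 → ℝ → ℝ → ℝ}
    (hR : RDt S (vkZ y u v b W hb0 hb1 hWb NU NV iN a b' cs q) (![y] : Fin 1 → Fin m) p 0 L₁)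
    {gN : ℕ → ℕ} {J₀ : ℕ} (hwi : ∀ J ≥ J₀, ⌊b * J⌋₊ + iN J ≤ J ∧ ⌊b * J⌋₊ + gN J ≤ J) {ec : ℝ}
    (hec : 0 ≤ ec)
    (he : ∀ J ≥ J₀, (b + (1 - b) * p) * J - (⌊b * J⌋₊ + iN J) ≤ ec * J)
    {ρ : ℝ} (hρ : 0 < ρ) :
    Bas S (fun J F A => (gN J : ℝ) * Real.log 2 - (ec + ρ) * J ≤
      CH (Pool.Agent.H49.Ent.cond F.p A True) (fun ω => cT J ⌊b * J⌋₊ (gN J) (F.T ω))
        (fun ω => (q J F (slam F ⌊b * J⌋₊ ω),
          (Rd J ⌊b * J⌋₊ (NU J) (NV J) (iN J) (lnF F y u v ⌊b * J⌋₊)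
            (hC F ⌊b * J⌋₊ ⌊W * J⌋₊ (a J F) (b' J F)) F.T
            (fun ω => cs J F (slam F ⌊b * J⌋₊ ω)) ω, (fT J ⌊b * J⌋₊ (gN J) (F.T ω),
          DY J ⌊b * J⌋₊ (rfo ⌊b * J⌋₊ (NU J) (NV J) (iN J) (lnF F y u v ⌊b * J⌋₊)
            (hC F ⌊b * J⌋₊ ⌊W * J⌋₊ (a J F) (b' J F))) F.T (fun ω => F.X J ω y) ω))))) := by
  have hl2 : 0 < Real.log 2 := Real.log_pos one_lt_two
  have hl2' : Real.log 2 ≤ 1 := by
    have := Real.log_two_lt_d9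
    linarith
  obtain ⟨τ, hτ, J₂, hb⟩ := hc_rdt hF hC₀ htm hS hR hρ
  refine ⟨τ, hτ, max J₀ J₂, fun J hJ F A hA => ?_⟩
  have j0 : J₀ ≤ J := (le_max_left _ _).trans hJ
  have j2 : J₂ ≤ J := (le_max_right _ _).trans hJ
  have hJ0 : (0 : ℝ) ≤ J := Nat.cast_nonneg J
  obtain ⟨w1, w2⟩ := hwi J j0
  have k1 := hb J j2 F A hA (gN J) (iN J) w2 (by
    show iN J ≤ J - ⌊b * J⌋₊
    omega)
  have k2 := hc_fld' (F := F) (A := A) (y := y) (u := u) (v := v) (w := ⌊b * J⌋₊)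
    (NU := NU J) (NV := NV J) (i := iN J) (g := gN J) (cs := fun ω => cs J F (slam F ⌊b * J⌋₊ ω))
    (q := fun ω => q J F (slam F ⌊b * J⌋₊ ω)) (h := hC F ⌊b * J⌋₊ ⌊W * J⌋₊ (a J F) (b' J F))
    (Yv := (vkZ y u v b W hb0 hb1 hWb NU NV iN a b' cs q).y J F) (fun ω ω' _ _ hh' =>
      ⟨(Prod.ext_iff.mp hh').1, (Prod.ext_iff.mp hh').2⟩) w1 k1
  refine le_trans ?_ k2
  have k3 := he J j0
  have k4 : ((b + (1 - b) * p) * J - (⌊b * J⌋₊ + iN J)) * Real.log 2 ≤ ec * J := by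
    have k5 := mul_le_mul_of_nonneg_right k3 hl2.le
    have k6 : ec * J * Real.log 2 ≤ ec * J * 1 :=
      mul_le_mul_of_nonneg_left hl2' (mul_nonneg hec hJ0)
    linarith
  have e1 : (vkZ y u v b W hb0 hb1 hWb NU NV iN a b' cs q).b = b := rfl
  have e2 : (vkZ y u v b W hb0 hb1 hWb NU NV iN a b' cs q).B J = ⌊b * J⌋₊ := rfl
  rw [e1, e2]
  have e3 : ((b + (1 - b) * p) * J - (⌊b * J⌋₊ : ℝ) - iN J) * Real.log 2 =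
      ((b + (1 - b) * p) * J - (⌊b * J⌋₊ + iN J)) * Real.log 2 := by ring
  rw [e3]
  linarith

end Pool.OWN43
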