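import Pool.Agent.H17.COR.Deep

/-!
# The fields of the corner from the rows of a family

`hU_fld`: from the row of `u` to its own height. `hc_fld`: from the row of the times. `hy_fld`: the
exact coordinate given the tube. `huv_fld`: from the own heights to the row of `u`, `v`.
`rec_fld`: the record of the tube is few bits given the exact point and the digits of the direction.
-/

set_option autoImplicit false

namespace Pool.OWN43

open Finset Real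
open Pool.Agent.H49.Ent Pool.Agent.H32.Dense Pool.STK Pool.KA Pool.OWN17 Pool.CH30 Pool.KM7
  Pool.OWN68

/-! ### Digits -/

section dig

variable {Ω S : Type} [Fintype Ω] {p : Ω → ℝ}

/-- **The digits of a position** which is an own height plus a known number. -/
theorem dig_few (hp : IsLaw p) {N J B : ℕ} (hN : N ≤ J) {x oh c : Ω → ℝ}
    (h : ∀ ω, 0 < p ω → |x ω - (oh ω + c ω)| ≤ B / 2 ^ N) {Z : Ω → S}
    (hZ : Det p Z (fun ω => ((⌊2 ^ N * oh ω⌋ : ℤ), c ω))) :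
    CH p (fun ω => (⌊2 ^ J * x ω⌋ : ℤ)) Z ≤
      ((J : ℝ) - N) * Real.log 2 + Real.log (2 * B + 7) := by
  have e2 : (2 : ℝ) ^ J = 2 ^ (J - N) * 2 ^ N := by
    rw [← pow_add]
    congr 1
    omega
  have p1 : (1 : ℝ) ≤ 2 ^ (J - N) := one_le_pow₀ (by norm_num)
  have k1 : CH p (fun ω => (⌊2 ^ J * x ω⌋ : ℤ)) Z ≤
      Real.log (2 * (((B + 2) * 2 ^ (J - N) : ℕ) + 1) + 1) := by
    refine cnt_det hp (c := fun ω => 2 ^ J * ((⌊2 ^ N * oh ω⌋ : ℤ) / 2 ^ N + c ω)) ?_ _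
      fun ω hω => ?_
    · intro ω ω' h1 h2 hh
      have := hZ ω ω' h1 h2 hh
      simp only [Prod.mk.injEq] at this
      simp only [this.1, this.2]
    · have f1 := fl_err (2 ^ J * x ω)
      have f2 := fl_div (n := N) (oh ω)
      have e1 : ((⌊2 ^ J * x ω⌋ : ℤ) : ℝ) - 2 ^ J * ((⌊2 ^ N * oh ω⌋ : ℤ) / 2 ^ N + c ω) =
          (((⌊2 ^ J * x ω⌋ : ℤ) : ℝ) - 2 ^ J * x ω) +
          (2 ^ J * (x ω - (oh ω + c ω)) + 2 ^ J * (oh ω - (⌊2 ^ N * oh ω⌋ : ℤ) / 2 ^ N)) := by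
        ring
      have m1 : |2 ^ J * (x ω - (oh ω + c ω))| ≤ 2 ^ (J - N) * B := by
        rw [abs_mul, abs_of_pos (by positivity : (0 : ℝ) < 2 ^ J)]
        refine (mul_le_mul_of_nonneg_left (h ω hω) (by positivity)).trans (le_of_eq ?_)
        rw [e2]
        field_simp
      have m2 : |2 ^ J * (oh ω - (⌊2 ^ N * oh ω⌋ : ℤ) / 2 ^ N)| ≤ 2 ^ (J - N) := by
        rw [abs_mul, abs_of_pos (by positivity : (0 : ℝ) < 2 ^ J)]
        refine (mul_le_mul_of_nonneg_left f2 (by positivity)).trans (le_of_eq ?_)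
        rw [e2]
        field_simp
      rw [e1]
      have t1 := abs_add_le (((⌊2 ^ J * x ω⌋ : ℤ) : ℝ) - 2 ^ J * x ω)
        (2 ^ J * (x ω - (oh ω + c ω)) + 2 ^ J * (oh ω - (⌊2 ^ N * oh ω⌋ : ℤ) / 2 ^ N))
      have t2 := abs_add_le (2 ^ J * (x ω - (oh ω + c ω)))
        (2 ^ J * (oh ω - (⌊2 ^ N * oh ω⌋ : ℤ) / 2 ^ N))
      push_cast
      have e3 : ((B : ℝ) + 2) * 2 ^ (J - N) = 2 ^ (J - N) * B + 2 * 2 ^ (J - N) := by ring
      rw [e3]
      linarith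
  refine k1.trans ?_
  have e3 : ((J : ℝ) - N) * Real.log 2 = Real.log (2 ^ (J - N)) := by
    rw [Real.log_pow, Nat.cast_sub hN]
  have hB : (0 : ℝ) ≤ B := Nat.cast_nonneg B
  rw [e3, ← Real.log_mul (by positivity) (by positivity)]
  refine Real.log_le_log (by positivity) ?_
  push_cast
  nlinarith

end dig

section fam

variable {m J : ℕ} {F : Fam m J} {p : F.Ω → ℝ} {y u v : Fin m} {w NU NV i g : ℕ}
  {al be : F.Ω → Fin 4 → ℝ} {𝒮 Q S : Type} {cs : F.Ω → 𝒮} {q : F.Ω → Q}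

/-- The charts of a sample, from codes. -/
noncomputable def hK (F : Fam m J) (w : ℕ) (al be : F.Ω → Fin 4 → ℝ) (ω : F.Ω) : Cht :=
  chF (tw0 F w ω) (al ω) (be ω)

/-- The exact coordinate. -/
theorem x_fl (F : Fam m J) (k : Fin m) (ω : F.Ω) : |F.x ω k - (F.X J ω k : ℤ) / 2 ^ J| ≤ 1 / 2 ^ J :=
  fl_div (n := J) (F.x ω k)

/-- The digits of `u` given the digits of its own height. -/
theorem u_few (hp : IsLaw p) (hw : w ≤ J) {N E : ℕ} (hN : N + E ≤ J)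
    (ha : ∀ ω, 0 < p ω → |al ω 2| ≤ 2 ^ E) {Z : F.Ω → S}
    (hZ : Det p Z (fun ω => (hgU J w N (lnF F y u v w) (hK F w al be) F.T ω,
      (al ω, (F.T ω, F.X J ω y))))) :
    CH p (fun ω => F.X J ω u) Z ≤ ((J : ℝ) - N) * Real.log 2 + Real.log 9 := by
  have h9 : Real.log (2 * ((1 : ℕ) : ℝ) + 7) = Real.log 9 := by norm_num
  rw [← h9]
  refine dig_few hp (by omega) (x := fun ω => F.x ω u)
    (oh := fun ω => (lnF F y u v w ω).hu (hK F w al be ω) (tT J w (F.T ω)))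
    (c := fun ω => al ω 0 + al ω 1 * F.t ω + al ω 2 * ((F.X J ω y : ℤ) / 2 ^ J)) ?_ ?_
  · intro ω hω
    have e1 : (lnF F y u v w ω).hu (hK F w al be ω) (tT J w (F.T ω)) =
        F.x ω u - (al ω 0 + al ω 1 * F.t ω + al ω 2 * F.x ω y) :=
      lnF_hu F y u v hw (al ω) (be ω) ω
    rw [e1]
    have e2 : F.x ω u - (F.x ω u - (al ω 0 + al ω 1 * F.t ω + al ω 2 * F.x ω y) +
        (al ω 0 + al ω 1 * F.t ω + al ω 2 * ((F.X J ω y : ℤ) / 2 ^ J))) =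
        al ω 2 * (F.x ω y - (F.X J ω y : ℤ) / 2 ^ J) := by ring
    rw [e2, abs_mul]
    refine (mul_le_mul (ha ω hω) (x_fl F y ω) (abs_nonneg _) (by positivity)).trans ?_
    rw [mul_one_div, div_le_div_iff₀ (by positivity) (by positivity), ← pow_add]
    push_cast
    rw [one_mul]
    exact pow_le_pow_right₀ (by norm_num) (by omega)
  · intro ω ω' h1 h2 hh
    have h3 := hZ ω ω' h1 h2 hh
    simp only [Prod.mk.injEq] at h3 ⊢
    obtain ⟨a1, a2, a3, a4⟩ := h3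
    unfold hgU at a1
    have e1 : F.t ω = F.t ω' := by
      unfold Fam.t
      rw [a3]
    exact ⟨a1, by rw [a2, a4, e1]⟩

/-- The digits of `v` given the digits of its own height. -/
theorem v_few (hp : IsLaw p) (hw : w ≤ J) {N E : ℕ} (hN : N + E ≤ J)
    (hb : ∀ ω, 0 < p ω → |be ω 2| ≤ 2 ^ E ∧ |be ω 3| ≤ 2 ^ E) {Z : F.Ω → S}
    (hZ : Det p Z (fun ω => (hgV J w N (lnF F y u v w) (hK F w al be) F.T ω,
      (be ω, (F.T ω, (F.X J ω y, F.X J ω u)))))) :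
    CH p (fun ω => F.X J ω v) Z ≤ ((J : ℝ) - N) * Real.log 2 + Real.log 11 := by
  have h11 : Real.log (2 * ((2 : ℕ) : ℝ) + 7) = Real.log 11 := by norm_num
  rw [← h11]
  refine dig_few hp (by omega) (x := fun ω => F.x ω v)
    (oh := fun ω => (lnF F y u v w ω).hv (hK F w al be ω) (tT J w (F.T ω)))
    (c := fun ω => be ω 0 + be ω 1 * F.t ω + be ω 2 * ((F.X J ω y : ℤ) / 2 ^ J) +
      be ω 3 * ((F.X J ω u : ℤ) / 2 ^ J)) ?_ ?_
  · intro ω hω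
    have e1 : (lnF F y u v w ω).hv (hK F w al be ω) (tT J w (F.T ω)) =
        F.x ω v - (be ω 0 + be ω 1 * F.t ω + be ω 2 * F.x ω y + be ω 3 * F.x ω u) :=
      lnF_hv F y u v hw (al ω) (be ω) ω
    rw [e1]
    have e2 : F.x ω v - (F.x ω v - (be ω 0 + be ω 1 * F.t ω + be ω 2 * F.x ω y +
        be ω 3 * F.x ω u) + (be ω 0 + be ω 1 * F.t ω + be ω 2 * ((F.X J ω y : ℤ) / 2 ^ J) +
        be ω 3 * ((F.X J ω u : ℤ) / 2 ^ J))) =
        be ω 2 * (F.x ω y - (F.X J ω y : ℤ) / 2 ^ J) +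
        be ω 3 * (F.x ω u - (F.X J ω u : ℤ) / 2 ^ J) := by ring
    rw [e2]
    obtain ⟨b2, b3⟩ := hb ω hω
    have m1 : |be ω 2 * (F.x ω y - (F.X J ω y : ℤ) / 2 ^ J)| ≤ 2 ^ E * (1 / 2 ^ J) := by
      rw [abs_mul]
      exact mul_le_mul b2 (x_fl F y ω) (abs_nonneg _) (by positivity)
    have m2 : |be ω 3 * (F.x ω u - (F.X J ω u : ℤ) / 2 ^ J)| ≤ 2 ^ E * (1 / 2 ^ J) := by
      rw [abs_mul]
      exact mul_le_mul b3 (x_fl F u ω) (abs_nonneg _) (by positivity)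
    have m3 : (2 : ℝ) ^ E * (1 / 2 ^ J) ≤ 1 / 2 ^ N := by
      rw [mul_one_div, div_le_div_iff₀ (by positivity) (by positivity), ← pow_add, one_mul]
      exact pow_le_pow_right₀ (by norm_num) (by omega)
    have m4 : ((2 : ℕ) : ℝ) / 2 ^ N = 1 / 2 ^ N + 1 / 2 ^ N := by
      push_cast
      ring
    rw [m4]
    refine (abs_add_le _ _).trans ?_
    linarith
  · intro ω ω' h1 h2 hh
    have h3 := hZ ω ω' h1 h2 hh
    simp only [Prod.mk.injEq] at h3 ⊢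
    obtain ⟨a1, a2, a3, a4, a5⟩ := h3
    unfold hgV at a1
    have e1 : F.t ω = F.t ω' := by
      unfold Fam.t
      rw [a3]
    exact ⟨a1, by rw [a2, a4, a5, e1]⟩

/-- **(1) From the row of `u` to its own height.** -/
theorem hU_fld (hp : IsLaw p) (hw : w ≤ J) {E : ℕ} (hN : NU + i + g + E ≤ J)
    (hcs : Det p cs al) (ha : ∀ ω, 0 < p ω → |al ω 2| ≤ 2 ^ E) {c : ℝ}
    (H : c ≤ CH p (fun ω => F.X J ω u) (fun ω => (F.X J ω y,
      ((q ω, Rd J w NU NV i (lnF F y u v w) (hK F w al be) F.T cs ω), F.W ω)))) :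
    c - ((J : ℝ) - (NU + i + g : ℕ)) * Real.log 2 - Real.log 9 ≤
      CH p (hgU J w (NU + i + g) (lnF F y u v w) (hK F w al be) F.T) (fun ω => (q ω,
        (Rd J w NU NV i (lnF F y u v w) (hK F w al be) F.T cs ω, (F.T ω, F.X J ω y)))) := by
  have h0 := hp.nonneg
  have k1 := CH_le_add h0 (fun ω => F.X J ω u)
    (hgU J w (NU + i + g) (lnF F y u v w) (hK F w al be) F.T) (fun ω => (F.X J ω y,
      ((q ω, Rd J w NU NV i (lnF F y u v w) (hK F w al be) F.T cs ω), F.W ω)))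
  have k2 := u_few (Z := fun ω => (hgU J w (NU + i + g) (lnF F y u v w) (hK F w al be) F.T ω,
      (F.X J ω y, ((q ω, Rd J w NU NV i (lnF F y u v w) (hK F w al be) F.T cs ω), F.W ω))))
    (y := y) (u := u) (v := v) (be := be) hp hw hN ha (by
      intro ω ω' h1 h2 hh
      simp only [Rd, Prod.mk.injEq] at hh
      obtain ⟨a1, a2, ⟨-, a3, -⟩, a4⟩ := hh
      have e1 : F.T ω = F.T ω' := congrArg Prod.fst a4
      simp only [Prod.mk.injEq]
      exact ⟨a1, hcs ω ω' h1 h2 a3, e1, a2⟩)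
  have k3 : CH p (hgU J w (NU + i + g) (lnF F y u v w) (hK F w al be) F.T)
      (fun ω => (F.X J ω y,
        ((q ω, Rd J w NU NV i (lnF F y u v w) (hK F w al be) F.T cs ω), F.W ω))) ≤
      CH p (hgU J w (NU + i + g) (lnF F y u v w) (hK F w al be) F.T) (fun ω => (q ω,
        (Rd J w NU NV i (lnF F y u v w) (hK F w al be) F.T cs ω, (F.T ω, F.X J ω y)))) :=
    CH_mono_cond h0 (fun ω ω' _ _ hh => by
      simp only [Prod.mk.injEq] at hh ⊢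
      have e1 : F.T ω = F.T ω' := congrArg Prod.fst hh.2.2
      exact ⟨hh.2.1.1, hh.2.1.2, e1, hh.1⟩)
  linarith

/-! ### The reference line -/

/-- The coordinate on the reference line. -/
noncomputable def yrC (F : Fam m J) (y u v : Fin m) (w NU NV i : ℕ) (h : F.Ω → Cht) (ω : F.Ω) : ℤ :=
  ⌊2 ^ J * ((rfo w NU NV i (lnF F y u v w) h ω).y +
    tT J w (F.T ω) * (rfo w NU NV i (lnF F y u v w) h ω).e)⌋

/-- The reference line is a function of the record and of the time. -/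
theorem rfo_det {h : F.Ω → Cht} {ω ω' : F.Ω}
    (hR : Rd J w NU NV i (lnF F y u v w) h F.T cs ω =
      Rd J w NU NV i (lnF F y u v w) h F.T cs ω') :
    (rfo w NU NV i (lnF F y u v w) h ω).y = (rfo w NU NV i (lnF F y u v w) h ω').y ∧
    (rfo w NU NV i (lnF F y u v w) h ω).e = (rfo w NU NV i (lnF F y u v w) h ω').e := by
  simp only [Rd, Prod.mk.injEq] at hR
  obtain ⟨-, -, ⟨a1, a2⟩, -⟩ := hR
  unfold rfo rf
  simp only [a1, a2, and_self]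

theorem yrC_det {h : F.Ω → Cht} {ω ω' : F.Ω}
    (hR : Rd J w NU NV i (lnF F y u v w) h F.T cs ω =
      Rd J w NU NV i (lnF F y u v w) h F.T cs ω') (hT : F.T ω = F.T ω') :
    yrC F y u v w NU NV i h ω = yrC F y u v w NU NV i h ω' := by
  obtain ⟨a1, a2⟩ := rfo_det hR
  unfold yrC
  rw [a1, a2, hT]

/-- The exact coordinate is near the reference line. -/
theorem y_near (hwi : w + i ≤ J) (h : F.Ω → Cht) (ω : F.Ω) :
    |((F.X J ω y : ℤ) : ℝ) - 2 ^ J * ((rfo w NU NV i (lnF F y u v w) h ω).y +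
      tT J w (F.T ω) * (rfo w NU NV i (lnF F y u v w) h ω).e)| ≤ 2 * 2 ^ (J - w - i) + 1 := by
  have hw : w ≤ J := by omega
  have f1 := fl_err (2 ^ J * F.x ω y)
  have f2 := fl_div (n := w + i) (lnF F y u v w ω).y
  have f3 := fl_div (n := i) (lnF F y u v w ω).e
  have e0 := lnF_y F y u v hw ω
  have ht0 := tT_nonneg (J := J) (w := w) (F.T ω)
  have ht1 := tT_lt (J := J) (w := w) hw (F.T ω)
  have r1 : (rfo w NU NV i (lnF F y u v w) h ω).y =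
      (⌊2 ^ (w + i) * (lnF F y u v w ω).y⌋ : ℤ) / 2 ^ (w + i) := rfl
  have r2 : (rfo w NU NV i (lnF F y u v w) h ω).e =
      (⌊2 ^ i * (lnF F y u v w ω).e⌋ : ℤ) / 2 ^ i := rfl
  rw [r1, r2]
  obtain ⟨ly, hly⟩ : ∃ ly, ly = (lnF F y u v w ω).y := ⟨_, rfl⟩
  obtain ⟨le, hle⟩ : ∃ le, le = (lnF F y u v w ω).e := ⟨_, rfl⟩
  rw [← hly, ← hle] at e0 ⊢
  rw [← hly] at f2
  rw [← hle] at f3
  have e1 : ((F.X J ω y : ℤ) : ℝ) - 2 ^ J * ((⌊2 ^ (w + i) * ly⌋ : ℤ) / 2 ^ (w + i) +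
      tT J w (F.T ω) * ((⌊2 ^ i * le⌋ : ℤ) / 2 ^ i)) =
      (((⌊2 ^ J * F.x ω y⌋ : ℤ) : ℝ) - 2 ^ J * F.x ω y) +
      (2 ^ J * (ly - (⌊2 ^ (w + i) * ly⌋ : ℤ) / 2 ^ (w + i)) +
        2 ^ J * (tT J w (F.T ω) * (le - (⌊2 ^ i * le⌋ : ℤ) / 2 ^ i))) := by
    rw [← e0]
    show ((⌊2 ^ J * F.x ω y⌋ : ℤ) : ℝ) - _ = _
    rw [← e0]
    ring
  have pJ : (2 : ℝ) ^ J = 2 ^ (J - w - i) * 2 ^ (w + i) := by
    rw [← pow_add]
    congr 1
    omega
  have m1 : |2 ^ J * (ly - (⌊2 ^ (w + i) * ly⌋ : ℤ) / 2 ^ (w + i))| ≤ 2 ^ (J - w - i) := by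
    rw [abs_mul, abs_of_pos (by positivity : (0 : ℝ) < 2 ^ J)]
    refine (mul_le_mul_of_nonneg_left f2 (by positivity)).trans (le_of_eq ?_)
    rw [pJ]
    field_simp
  have m2 : |2 ^ J * (tT J w (F.T ω) * (le - (⌊2 ^ i * le⌋ : ℤ) / 2 ^ i))| ≤
      2 ^ (J - w - i) := by
    rw [abs_mul, abs_mul, abs_of_pos (by positivity : (0 : ℝ) < 2 ^ J), abs_of_nonneg ht0]
    calc 2 ^ J * (tT J w (F.T ω) * |le - (⌊2 ^ i * le⌋ : ℤ) / 2 ^ i|) ≤
          2 ^ J * (tT J w (F.T ω) * (1 / 2 ^ i)) := by gcongr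
      _ = 2 ^ (J - w - i) * (tT J w (F.T ω) * 2 ^ w) := by
          rw [pJ, pow_add]
          field_simp
      _ ≤ 2 ^ (J - w - i) * 1 := mul_le_mul_of_nonneg_left ht1 (by positivity)
      _ = _ := mul_one _
  rw [e1]
  have t1 := abs_add_le (((⌊2 ^ J * F.x ω y⌋ : ℤ) : ℝ) - 2 ^ J * F.x ω y)
    (2 ^ J * (ly - (⌊2 ^ (w + i) * ly⌋ : ℤ) / 2 ^ (w + i)) +
      2 ^ J * (tT J w (F.T ω) * (le - (⌊2 ^ i * le⌋ : ℤ) / 2 ^ i)))
  have t2 := abs_add_le (2 ^ J * (ly - (⌊2 ^ (w + i) * ly⌋ : ℤ) / 2 ^ (w + i)))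
    (2 ^ J * (tT J w (F.T ω) * (le - (⌊2 ^ i * le⌋ : ℤ) / 2 ^ i)))
  linarith

theorem yrC_near (hwi : w + i ≤ J) (h : F.Ω → Cht) (ω : F.Ω) :
    |F.X J ω y - yrC F y u v w NU NV i h ω| ≤ 4 * 2 ^ (J - w - i) := by
  have k1 := y_near (F := F) (y := y) (u := u) (v := v) (NU := NU) (NV := NV) hwi h ω
  have k2 := fl_err (2 ^ J * ((rfo w NU NV i (lnF F y u v w) h ω).y +
    tT J w (F.T ω) * (rfo w NU NV i (lnF F y u v w) h ω).e))
  have k3 : (1 : ℝ) ≤ 2 ^ (J - w - i) := one_le_pow₀ (by norm_num)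
  have k4 : |((F.X J ω y - yrC F y u v w NU NV i h ω : ℤ) : ℝ)| ≤
      ((4 * 2 ^ (J - w - i) : ℤ) : ℝ) := by
    push_cast
    unfold yrC
    have e1 : ((F.X J ω y : ℤ) : ℝ) - ((⌊2 ^ J * ((rfo w NU NV i (lnF F y u v w) h ω).y +
        tT J w (F.T ω) * (rfo w NU NV i (lnF F y u v w) h ω).e)⌋ : ℤ) : ℝ) =
        (((F.X J ω y : ℤ) : ℝ) - 2 ^ J * ((rfo w NU NV i (lnF F y u v w) h ω).y +
          tT J w (F.T ω) * (rfo w NU NV i (lnF F y u v w) h ω).e)) -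
        (((⌊2 ^ J * ((rfo w NU NV i (lnF F y u v w) h ω).y +
          tT J w (F.T ω) * (rfo w NU NV i (lnF F y u v w) h ω).e)⌋ : ℤ) : ℝ) -
          2 ^ J * ((rfo w NU NV i (lnF F y u v w) h ω).y +
          tT J w (F.T ω) * (rfo w NU NV i (lnF F y u v w) h ω).e)) := by ring
    rw [e1]
    refine (abs_sub _ _).trans ?_
    linarith
  rw [← Int.cast_abs] at k4
  exact_mod_cast k4

/-- **(3) The exact coordinate given the tube.** -/
theorem hy_fld (hp : IsLaw p) (hwi : w + i ≤ J) {h : F.Ω → Cht} {Z : F.Ω → S}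
    (hZ : Det p Z (fun ω => (Rd J w NU NV i (lnF F y u v w) h F.T cs ω, F.T ω))) :
    CH p (fun ω => F.X J ω y) Z ≤ ((J : ℝ) - w - i) * Real.log 2 + Real.log 9 := by
  have p1 : (1 : ℝ) ≤ 2 ^ (J - w - i) := one_le_pow₀ (by norm_num)
  have k1 : CH p (fun ω => F.X J ω y) Z ≤
      Real.log (2 * ((2 * 2 ^ (J - w - i) + 1 : ℕ) + 1) + 1) := by
    refine cnt_det hp (c := fun ω => 2 ^ J * ((rfo w NU NV i (lnF F y u v w) h ω).y +
      tT J w (F.T ω) * (rfo w NU NV i (lnF F y u v w) h ω).e)) ?_ _ fun ω _ => ?_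
    · intro ω ω' h1 h2 hh
      have := hZ ω ω' h1 h2 hh
      simp only [Prod.mk.injEq] at this
      obtain ⟨a1, a2⟩ := this
      obtain ⟨b1, b2⟩ := rfo_det a1
      simp only [b1, b2, a2]
    · push_cast
      exact y_near hwi h ω
  refine k1.trans ?_
  have e3 : ((J : ℝ) - w - i) * Real.log 2 = Real.log (2 ^ (J - w - i)) := by
    rw [Real.log_pow, Nat.cast_sub (by omega), Nat.cast_sub (by omega)]
  rw [e3, ← Real.log_mul (by positivity) (by norm_num)]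
  refine Real.log_le_log (by positivity) ?_
  push_cast
  linarith

/-- **(2) From the row of the times.** -/
theorem hc_fld (h0 : ∀ ω, 0 ≤ p ω) {h : F.Ω → Cht} {κ : Type} (Yv : F.Ω → κ)
    (hY : ∀ ω ω' : F.Ω, 0 < p ω → 0 < p ω' → Yv ω = Yv ω' → q ω = q ω' ∧
      Rd J w NU NV i (lnF F y u v w) h F.T cs ω = Rd J w NU NV i (lnF F y u v w) h F.T cs ω')
    {c : ℝ} (H : c ≤ CH p (fun ω => cT J w g (F.T ω)) (fun ω => (Yv ω,
      ((F.T1 w ω, fT J w g (F.T ω)), (F.X J ω y - yrC F y u v w NU NV i h ω, F.Z ω))))) :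
    c ≤ CH p (fun ω => cT J w g (F.T ω)) (fun ω => (q ω,
      (Rd J w NU NV i (lnF F y u v w) h F.T cs ω, (fT J w g (F.T ω),
        DY J w (rfo w NU NV i (lnF F y u v w) h) F.T (fun ω => F.X J ω y) ω)))) := by
  refine H.trans (CH_mono_cond h0 fun ω ω' h1 h2 hh => ?_)
  simp only [Prod.mk.injEq] at hh ⊢
  obtain ⟨a1, ⟨-, a2⟩, a3, -⟩ := hh
  obtain ⟨b1, b2⟩ := hY ω ω' h1 h2 a1
  exact ⟨b1, b2, a2, a3⟩

/-- **(2) From the rows of the times of a family.** -/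
theorem hc_fld' {A : F.Ω → Prop} {h : F.Ω → Cht} {κ : Type} {Yv : F.Ω → κ}
    (hY : ∀ ω ω' : F.Ω, A ω → A ω' → Yv ω = Yv ω' → q ω = q ω' ∧
      Rd J w NU NV i (lnF F y u v w) h F.T cs ω = Rd J w NU NV i (lnF F y u v w) h F.T cs ω')
    {c : ℝ} (hwi : w + i ≤ J)
    (H : ∀ yr : F.Ω → ℤ,
      (∀ ω ω' : F.Ω, A ω → A ω' → Yv ω = Yv ω' → F.W ω = F.W ω' → yr ω = yr ω') →
      (∀ ω, A ω → |F.X J ω y - yr ω| ≤ 4 * 2 ^ (J - w - i)) →
      c ≤ CH (Pool.Agent.H49.Ent.cond F.p A True) (fun ω => cT J w g (F.T ω))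
        (fun ω => (Yv ω, ((F.T1 w ω, fT J w g (F.T ω)), (F.X J ω y - yr ω, F.Z ω))))) :
    c ≤ CH (Pool.Agent.H49.Ent.cond F.p A True) (fun ω => cT J w g (F.T ω)) (fun ω => (q ω,
      (Rd J w NU NV i (lnF F y u v w) h F.T cs ω, (fT J w g (F.T ω),
        DY J w (rfo w NU NV i (lnF F y u v w) h) F.T (fun ω => F.X J ω y) ω)))) := by
  have hsup : ∀ {ω : F.Ω}, 0 < Pool.Agent.H49.Ent.cond F.p A True ω → A ω := fun {ω} hω => by
    have := ((cond_pos_iff F.isLaw.nonneg A True ω).1 hω).2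
    exact of_eq_true this
  have h0 : ∀ ω, 0 ≤ Pool.Agent.H49.Ent.cond F.p A True ω := cond_nonneg F.isLaw.nonneg A True
  refine hc_fld h0 Yv (fun ω ω' h1 h2 hh => hY ω ω' (hsup h1) (hsup h2) hh)
    (H (yrC F y u v w NU NV i h) ?_ fun ω _ => yrC_near hwi h ω)
  intro ω ω' h1 h2 h3 h4
  exact yrC_det (hY ω ω' h1 h2 h3).2 (congrArg Prod.fst h4)

/-- **(4) From the own heights to the row of `u`, `v`.** -/
theorem huv_fld (hp : IsLaw p) (hw : w ≤ J) {E : ℕ} (hNU : NU + i + g + E ≤ J)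
    (hNV : NV + i + g + E ≤ J) (hca : Det p cs al) (hcb : Det p cs be)
    (ha : ∀ ω, 0 < p ω → |al ω 2| ≤ 2 ^ E)
    (hb : ∀ ω, 0 < p ω → |be ω 2| ≤ 2 ^ E ∧ |be ω 3| ≤ 2 ^ E) {Z : F.Ω → S}
    (hZ : Det p Z (fun ω => (Rd J w NU NV i (lnF F y u v w) (hK F w al be) F.T cs ω,
      (F.T ω, F.X J ω y)))) :
    CH p (fun ω => (F.X J ω u, F.X J ω v)) Z ≤
      CH p (fun ω => (hgU J w (NU + i + g) (lnF F y u v w) (hK F w al be) F.T ω,
        hgV J w (NV + i + g) (lnF F y u v w) (hK F w al be) F.T ω))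
        (Nd J w NU NV i (lnF F y u v w) (hK F w al be) F.T (fun ω => F.X J ω y) cs) +
      ((J : ℝ) - (NU + i + g : ℕ)) * Real.log 2 + ((J : ℝ) - (NV + i + g : ℕ)) * Real.log 2 +
      3 * Real.log 11 + Real.log 9 := by
  have h0 := hp.nonneg
  obtain ⟨G, hG⟩ : ∃ G : F.Ω → ℤ × ℤ, G = fun ω =>
      (hgU J w (NU + i + g) (lnF F y u v w) (hK F w al be) F.T ω,
        hgV J w (NV + i + g) (lnF F y u v w) (hK F w al be) F.T ω) := ⟨_, rfl⟩
  obtain ⟨N, hN⟩ : ∃ N, N = Nd J w NU NV i (lnF F y u v w) (hK F w al be) F.T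
    (fun ω => F.X J ω y) cs := ⟨_, rfl⟩
  have k1 := CH_le_add h0 (fun ω => (F.X J ω u, F.X J ω v)) G Z
  have k2 := CH_le_add h0 G N Z
  have k3 : CH p N Z ≤ 2 * Real.log 11 := by
    rw [hN]
    exact Nd_few hp hw hZ
  have k4 : CH p G (fun ω => (N ω, Z ω)) ≤ CH p G N := CH_mono_cond h0 fun ω ω' _ _ hh =>
    (Prod.ext_iff.mp hh).1
  have dZ : ∀ ω ω', 0 < p ω → 0 < p ω' → Z ω = Z ω' → cs ω = cs ω' ∧ F.T ω = F.T ω' ∧
      F.X J ω y = F.X J ω' y := by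
    intro ω ω' h1 h2 hh
    have := hZ ω ω' h1 h2 hh
    simp only [Rd, Prod.mk.injEq] at this
    obtain ⟨⟨a1, -⟩, a2, a3⟩ := this
    exact ⟨a1, a2, a3⟩
  have k5 := CH_chain h0 (fun ω => F.X J ω v) (fun ω => F.X J ω u) (fun ω => (G ω, Z ω))
  have k6 : CH p (fun ω => (F.X J ω u, F.X J ω v)) (fun ω => (G ω, Z ω)) ≤
      CH p (fun ω => (F.X J ω v, F.X J ω u)) (fun ω => (G ω, Z ω)) :=
    CH_mono_left h0 fun ω ω' _ _ hh => by
      simp only [Prod.mk.injEq] at hh ⊢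
      exact ⟨hh.1.2, hh.1.1⟩
  have k7 := u_few (Z := fun ω => (G ω, Z ω)) (y := y) (u := u) (v := v) (be := be) hp hw hNU
    ha (by
      intro ω ω' h1 h2 hh
      simp only [hG, Prod.mk.injEq] at hh
      obtain ⟨⟨a1, -⟩, a2⟩ := hh
      obtain ⟨b1, b2, b3⟩ := dZ ω ω' h1 h2 a2
      simp only [Prod.mk.injEq]
      exact ⟨a1, hca ω ω' h1 h2 b1, b2, b3⟩)
  have k8 := v_few (Z := fun ω => (F.X J ω u, (G ω, Z ω))) (y := y) (u := u) (v := v)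
    (al := al) hp hw hNV hb (by
      intro ω ω' h1 h2 hh
      simp only [hG, Prod.mk.injEq] at hh
      obtain ⟨a0, ⟨-, a1⟩, a2⟩ := hh
      obtain ⟨b1, b2, b3⟩ := dZ ω ω' h1 h2 a2
      simp only [Prod.mk.injEq]
      exact ⟨a1, hcb ω ω' h1 h2 b1, b2, b3, a0⟩)
  rw [hG, hN] at k4
  rw [hG] at k1 k2 k5 k6 k7 k8
  rw [hN] at k2 k3
  linarith

/-- **(5) The record of the tube is few bits** given the exact point and the digits of the
direction. -/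
theorem rec_fld (hp : IsLaw p) {c I : ℕ} {h : F.Ω → Cht} {f : F.Ω → Pool.OWN17.Frm} {Au Av : F.Ω → ℝ}
    (H : Dpl p c J w NU NV I (lnF F y u v w) h f F.T (fun ω => F.X J ω y) Au Av) (hi : i ≤ I)
    (dh : Det p cs h) {Z : F.Ω → S}
    (hZ : Det p Z (fun ω => (F.D i ω y, (F.T ω, F.X J ω y)))) (hcs : Det p Z cs)
    (hAu : Det p Z Au) (hAv : Det p Z Av) (hf : Det p Z f) :
    CH p (Rd J w NU NV i (lnF F y u v w) h F.T cs) Z ≤
      2 * Real.log (2 * ((3 * c : ℕ) + 1) + 1) + 2 * Real.log (2 * ((6 * c : ℕ) + 1) + 1) +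
        3 * Real.log 11 := by
  have h0 := hp.nonneg
  obtain ⟨N, hN⟩ : ∃ N, N = Nd J w NU NV i (lnF F y u v w) h F.T (fun ω => F.X J ω y) cs :=
    ⟨_, rfl⟩
  have hh : Det p Z h := fun ω ω' h1 h2 hh => dh ω ω' h1 h2 (hcs ω ω' h1 h2 hh)
  have hZ' : ∀ ω ω', 0 < p ω → 0 < p ω' → Z ω = Z ω' →
      eD i (lnF F y u v w) ω = eD i (lnF F y u v w) ω' ∧ F.T ω = F.T ω' ∧
        F.X J ω y = F.X J ω' y := by
    intro ω ω' h1 h2 hh
    have := hZ ω ω' h1 h2 hh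
    simp only [Prod.mk.injEq] at this
    exact this
  have k1 := CH_le_add h0 (Rd J w NU NV i (lnF F y u v w) h F.T cs) N Z
  have k2 : CH p (Rd J w NU NV i (lnF F y u v w) h F.T cs) (fun ω => (N ω, Z ω)) ≤
      3 * Real.log 11 := by
    refine Rd_few (Y := fun ω => F.X J ω y) hp (by
      have := H.wJ
      omega) dh H.yc fun ω ω' _ _ hh => ?_
    have := (Prod.ext_iff.mp hh).1
    rw [hN] at this
    exact this
  have k3 := H.x_few hp hi (Z := Z) (by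
    intro ω ω' h1 h2 h3
    obtain ⟨-, b2, b3⟩ := hZ' ω ω' h1 h2 h3
    simp only [Prod.mk.injEq]
    exact ⟨hAu ω ω' h1 h2 h3, hAv ω ω' h1 h2 h3, hh ω ω' h1 h2 h3, hf ω ω' h1 h2 h3, b2, b3⟩)
  have k4 := H.d_few hp hi (Z := Z) (by
    intro ω ω' h1 h2 h3
    obtain ⟨b1, -, -⟩ := hZ' ω ω' h1 h2 h3
    simp only [Prod.mk.injEq]
    exact ⟨hh ω ω' h1 h2 h3, hf ω ω' h1 h2 h3, b1⟩)
  have k5 := CH_subadd h0
    (fun ω => (hgU J w (NU + i) (lnF F y u v w) h F.T ω,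
      hgV J w (NV + i) (lnF F y u v w) h F.T ω))
    (fun ω => (vU w (NU + i) (lnF F y u v w) h ω, vV w (NV + i) (lnF F y u v w) h ω)) Z
  have k6 : CH p N Z ≤ CH p (fun ω => ((hgU J w (NU + i) (lnF F y u v w) h F.T ω,
      hgV J w (NV + i) (lnF F y u v w) h F.T ω),
      (vU w (NU + i) (lnF F y u v w) h ω, vV w (NV + i) (lnF F y u v w) h ω))) Z := by
    rw [hN]
    refine CH_mono_left h0 fun ω ω' h1 h2 hh' => ?_
    simp only [Prod.mk.injEq] at hh'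
    obtain ⟨⟨⟨a1, a2⟩, a3, a4⟩, a5⟩ := hh'
    obtain ⟨b1, b2, b3⟩ := hZ' ω ω' h1 h2 a5
    unfold Nd
    simp only [Prod.mk.injEq]
    exact ⟨⟨⟨a1, a2⟩, a3, a4⟩, b1, hcs ω ω' h1 h2 a5, b2, b3⟩
  linarith

end fam

end Pool.OWN43
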