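import Pool.Agent.H32.Dense.Pair

/-!
# SAT: the entropies of two or three natural families at different depths

`z i` is the record of the ball `i` (position `x i` in the box of rows), `y` side information, `u i k`
the digits of a natural family between the balls `i` and `k`. `Add`: the few bits facts (c1), (c2),
(c3) and the additive number `f i k`. `add_step`: a deeper family behind a shallower one costs
exactly its number. `two_depth`, `near_two`, `near_learn` are the displayed entropies of row 361.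
-/

set_option autoImplicit false

namespace Pool.SAT43

open Finset Real
open Pool.Agent.H49.Ent Pool.Agent.H32.Dense

variable {Ω : Type} [Fintype Ω] {ι Z Y U V G G' : Type} {p : Ω → ℝ}

/-- Nested records. -/
def Nest (p : Ω → ℝ) (x : ι → ℝ) (z : ι → Ω → Z) (y : Ω → Y) (e : ℝ) : Prop :=
  ∀ i j, x i ≤ x j → CH p (z i) (fun ω => (z j ω, y ω)) ≤ e

/-- A natural family with an additive number `f i k`. -/
structure Add (p : Ω → ℝ) (x : ι → ℝ) (z : ι → Ω → Z) (y : Ω → Y) (u : ι → ι → Ω → U)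
    (f : ι → ι → ℝ) (κ e : ℝ) : Prop where
  add : ∀ i j k, x i ≤ x j → x j ≤ x k → |f i k - f i j - f j k| ≤ κ
  c1 : ∀ i j, x i ≤ x j → CH p (u i j) (fun ω => (z i ω, (z j ω, y ω))) ≤ e
  c2 : ∀ i j k, x i ≤ x j → x j ≤ x k →
    CH p (u j k) (fun ω => (u i k ω, (z j ω, (z i ω, y ω)))) ≤ e
  c3 : ∀ i j k, x i ≤ x j → x j ≤ x k → CH p (u i j) (fun ω => (u i k ω, (z i ω, y ω))) ≤ e
  lo : ∀ i k, x i ≤ x k → f i k - κ ≤ CH p (u i k) (fun ω => (z i ω, y ω))
  hi : ∀ i k, x i ≤ x k → CH p (u i k) (fun ω => (z i ω, y ω)) ≤ f i k + κ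

section

variable {x : ι → ℝ} {z : ι → Ω → Z} {y : Ω → Y} {u : ι → ι → Ω → U} {f : ι → ι → ℝ} {κ e : ℝ}

/-- **Upper bound** of a family behind itself. -/
theorem Add.up (hp : ∀ ω, 0 ≤ p ω) (A : Add p x z y u f κ e) {i j k : ι} (hij : x i ≤ x j)
    (hjk : x j ≤ x k) :
    CH p (u i k) (fun ω => (u i j ω, (z i ω, y ω))) ≤ f j k + (3 * κ + e) := by
  have h1 := CH_bayes hp (u i k) (u i j) (fun ω => (z i ω, y ω))
  have h2 := A.c3 i j k hij hjk
  have h3 := A.lo i j hij
  have h4 := A.hi i k (hij.trans hjk)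
  have h5 := (abs_le.mp (A.add i j k hij hjk)).2
  linarith

/-- **Lower bound** of a family behind the ball `j`, with more information `G` which is few bits
given the ball `j`. -/
theorem Add.down (hp : ∀ ω, 0 ≤ p ω) (A : Add p x z y u f κ e) (hz : Nest p x z y e)
    {G : Ω → V} {eG : ℝ} {i j k : ι} (hij : x i ≤ x j) (hjk : x j ≤ x k)
    (hG : CH p G (fun ω => (z j ω, (z i ω, y ω))) ≤ eG) :
    f j k - (κ + 2 * e + eG) ≤
      CH p (u i k) (fun ω => (z j ω, (G ω, (z i ω, y ω)))) := by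
  have h1 := A.lo j k hjk
  -- `u j k` given the ball `j` alone
  have h2 : CH p (u j k) (fun ω => (z j ω, y ω)) ≤
      CH p (fun ω => (G ω, z i ω)) (fun ω => (z j ω, y ω)) +
        CH p (u j k) (fun ω => ((G ω, z i ω), (z j ω, y ω))) := CH_le_add hp _ _ _
  have h3 : CH p (fun ω => (G ω, z i ω)) (fun ω => (z j ω, y ω)) =
      CH p (z i) (fun ω => (z j ω, y ω)) + CH p G (fun ω => (z i ω, (z j ω, y ω))) :=
    CH_chain hp _ _ _
  have h4 : CH p G (fun ω => (z i ω, (z j ω, y ω))) =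
      CH p G (fun ω => (z j ω, (z i ω, y ω))) := by
    refine CH_congr hp ?_ ?_ ?_ ?_ <;>
    · intro w w' _ _ h
      simp only [Prod.mk.injEq] at h ⊢
      tauto
  have h5 := hz i j hij
  have h6 : CH p (u j k) (fun ω => ((G ω, z i ω), (z j ω, y ω))) ≤
      CH p (u i k) (fun ω => ((G ω, z i ω), (z j ω, y ω))) +
        CH p (u j k) (fun ω => (u i k ω, ((G ω, z i ω), (z j ω, y ω)))) := CH_le_add hp _ _ _
  have h7 : CH p (u j k) (fun ω => (u i k ω, ((G ω, z i ω), (z j ω, y ω)))) ≤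
      CH p (u j k) (fun ω => (u i k ω, (z j ω, (z i ω, y ω)))) := by
    refine CH_mono_cond hp ?_
    intro w w' _ _ h
    simp only [Prod.mk.injEq] at h ⊢
    tauto
  have h8 := A.c2 i j k hij hjk
  have h9 : CH p (u i k) (fun ω => ((G ω, z i ω), (z j ω, y ω))) =
      CH p (u i k) (fun ω => (z j ω, (G ω, (z i ω, y ω)))) := by
    refine CH_congr hp ?_ ?_ ?_ ?_ <;>
    · intro w w' _ _ h
      simp only [Prod.mk.injEq] at h ⊢
      tauto
  linarith

/-- **STEP.** `G` is few bits given the ball `j` and contains the family up to `j`: the family up to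
`k` costs `f (x k - x j)` more, and the ball `j` does not help. -/
theorem Add.step (hp : ∀ ω, 0 ≤ p ω) (A : Add p x z y u f κ e) (hz : Nest p x z y e)
    {G : Ω → V} {eG eD : ℝ} {i j k : ι} (hij : x i ≤ x j) (hjk : x j ≤ x k)
    (hG : CH p G (fun ω => (z j ω, (z i ω, y ω))) ≤ eG)
    (hD : CH p (u i j) (fun ω => (G ω, (z i ω, y ω))) ≤ eD) :
    CH p (u i k) (fun ω => (G ω, (z i ω, y ω))) ≤ f j k + (3 * κ + e + eD) ∧
      f j k - (κ + 2 * e + eG) ≤
        CH p (u i k) (fun ω => (z j ω, (G ω, (z i ω, y ω)))) ∧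
      f j k - (κ + 2 * e + eG) ≤ CH p (u i k) (fun ω => (G ω, (z i ω, y ω))) := by
  have hd := A.down hp hz (G := G) hij hjk hG
  refine ⟨?_, hd, ?_⟩
  · have h1 : CH p (u i k) (fun ω => (G ω, (z i ω, y ω))) ≤
        CH p (u i j) (fun ω => (G ω, (z i ω, y ω))) +
          CH p (u i k) (fun ω => (u i j ω, (G ω, (z i ω, y ω)))) := CH_le_add hp _ _ _
    have h2 : CH p (u i k) (fun ω => (u i j ω, (G ω, (z i ω, y ω)))) ≤
        CH p (u i k) (fun ω => (u i j ω, (z i ω, y ω))) := by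
      refine CH_mono_cond hp ?_
      intro w w' _ _ h
      simp only [Prod.mk.injEq] at h ⊢
      tauto
    have h3 := A.up hp hij hjk
    linarith
  · refine hd.trans ?_
    refine CH_mono_cond hp ?_
    intro w w' _ _ h
    simp only [Prod.mk.injEq] at h ⊢
    tauto

end

/-! ### Two families -/

section two

variable {x : ι → ℝ} {z : ι → Ω → Z} {y : Ω → Y} {u : ι → ι → Ω → U} {v : ι → ι → Ω → V}
  {f g : ι → ι → ℝ} {κ e : ℝ}

/-- Swapping the components of the variable and joining. -/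
theorem CH_swap3 {A B W : Type} (hp : ∀ ω, 0 ≤ p ω) (X : Ω → A) (X' : Ω → B) (R : Ω → W) :
    CH p (fun ω => (X ω, X' ω)) R = CH p X R + CH p X' (fun ω => (X ω, R ω)) := by
  have h1 := CH_bayes hp X' X R
  have h2 := CH_chain hp X X' R
  have h3 := CH_bayes hp X X' R
  linarith

/-- **TWO DEPTHS.** The joint family `(u, v)` to the ball `j` and `v` alone to the ball `k ≥ j`. -/
theorem two_depth (hp : ∀ ω, 0 ≤ p ω)
    (J : Add p x z y (fun i k ω => (u i k ω, v i k ω)) g κ e) (A : Add p x z y v f κ e)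
    (hz : Nest p x z y e) {i j k : ι} (hij : x i ≤ x j) (hjk : x j ≤ x k) :
    CH p (fun ω => ((u i j ω, v i j ω), v i k ω)) (fun ω => (z i ω, y ω)) ≤
        g i j + f j k + (4 * κ + e) ∧
      g i j + f j k - (2 * κ + 3 * e) ≤
        CH p (fun ω => ((u i j ω, v i j ω), v i k ω)) (fun ω => (z i ω, y ω)) := by
  have hG : CH p (fun ω => (u i j ω, v i j ω)) (fun ω => (z j ω, (z i ω, y ω))) ≤ e := by
    refine le_trans (le_of_eq ?_) (J.c1 i j hij)
    refine CH_congr hp ?_ ?_ ?_ ?_ <;>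
    · intro w w' _ _ h
      simp only [Prod.mk.injEq] at h ⊢
      tauto
  have hD : CH p (v i j) (fun ω => ((u i j ω, v i j ω), (z i ω, y ω))) ≤ 0 := by
    refine le_of_eq (CH_eq_zero hp ?_)
    intro w w' _ _ h
    simp only [Prod.mk.injEq] at h
    exact h.1.2
  obtain ⟨h1, -, h3⟩ := A.step hp hz (G := fun ω => (u i j ω, v i j ω)) hij hjk hG hD
  have h4 := CH_swap3 hp (fun ω => (u i j ω, v i j ω)) (v i k) (fun ω => (z i ω, y ω))
  have h5 := J.lo i j hij
  have h6 := J.hi i j hij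
  constructor <;> linarith

/-- The form without `v i j`. -/
theorem two_depth' (hp : ∀ ω, 0 ≤ p ω)
    (J : Add p x z y (fun i k ω => (u i k ω, v i k ω)) g κ e) (A : Add p x z y v f κ e)
    (hz : Nest p x z y e) {i j k : ι} (hij : x i ≤ x j) (hjk : x j ≤ x k) :
    CH p (fun ω => (u i j ω, v i k ω)) (fun ω => (z i ω, y ω)) ≤
        g i j + f j k + (4 * κ + e) ∧
      g i j + f j k - (2 * κ + 4 * e) ≤
        CH p (fun ω => (u i j ω, v i k ω)) (fun ω => (z i ω, y ω)) := by
  obtain ⟨h1, h2⟩ := two_depth hp J A hz hij hjk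
  constructor
  · refine le_trans ?_ h1
    refine CH_mono_left hp ?_
    intro w w' _ _ h
    simp only [Prod.mk.injEq] at h ⊢
    tauto
  · have h3 : CH p (fun ω => ((u i j ω, v i j ω), v i k ω)) (fun ω => (z i ω, y ω)) ≤
        CH p (fun ω => (u i j ω, v i k ω)) (fun ω => (z i ω, y ω)) +
          CH p (fun ω => ((u i j ω, v i j ω), v i k ω))
            (fun ω => ((u i j ω, v i k ω), (z i ω, y ω))) := CH_le_add hp _ _ _
    have h4 : CH p (fun ω => ((u i j ω, v i j ω), v i k ω))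
        (fun ω => ((u i j ω, v i k ω), (z i ω, y ω))) =
        CH p (v i j) (fun ω => ((u i j ω, v i k ω), (z i ω, y ω))) := by
      refine CH_congr hp ?_ ?_ ?_ ?_ <;>
      · intro w w' _ _ h
        simp only [Prod.mk.injEq] at h ⊢
        tauto
    have h5 : CH p (v i j) (fun ω => ((u i j ω, v i k ω), (z i ω, y ω))) ≤
        CH p (v i j) (fun ω => (v i k ω, (z i ω, y ω))) := by
      refine CH_mono_cond hp ?_
      intro w w' _ _ h
      simp only [Prod.mk.injEq] at h ⊢
      tauto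
    have h6 := A.c3 i j k hij hjk
    linarith

/-- **NEAR DIGITS.** `u` between the balls `j` and `j'`, given `u` up to `j` and `v` up to `k ≥ j'`:
the entropy is `g j j' - f j j'`, it does not depend on `k`. -/
theorem near_two (hp : ∀ ω, 0 ≤ p ω)
    (J : Add p x z y (fun i k ω => (u i k ω, v i k ω)) g κ e) (A : Add p x z y v f κ e)
    (hz : Nest p x z y e)
    (hu : ∀ i j k, x i ≤ x j → x j ≤ x k → CH p (u i j) (fun ω => (u i k ω, (z i ω, y ω))) ≤ e)
    {i j j' k : ι} (hij : x i ≤ x j) (hjj : x j ≤ x j') (hjk : x j' ≤ x k) :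
    CH p (u i j') (fun ω => (u i j ω, (v i k ω, (z i ω, y ω)))) ≤
        g j j' - f j j' + (8 * κ + 6 * e) ∧
      g j j' - f j j' - (8 * κ + 5 * e) ≤
        CH p (u i j') (fun ω => (u i j ω, (v i k ω, (z i ω, y ω)))) := by
  obtain ⟨h1, h2⟩ := two_depth' hp J A hz hij (hjj.trans hjk)
  obtain ⟨h3, h4⟩ := two_depth' hp J A hz (hij.trans hjj) hjk
  -- `(u i j', v i k)` and `(u i j, v i k)`
  have h5 := CH_chain hp (u i j') (v i k) (fun ω => (z i ω, y ω))
  have h6 := CH_chain hp (u i j) (v i k) (fun ω => (z i ω, y ω))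
  have h7 := CH_bayes hp (u i j') (u i j) (fun ω => (v i k ω, (z i ω, y ω)))
  have h8 := CH_nonneg hp (u i j) (fun ω => (u i j' ω, (v i k ω, (z i ω, y ω))))
  have h9 : CH p (u i j) (fun ω => (u i j' ω, (v i k ω, (z i ω, y ω)))) ≤ e := by
    refine le_trans ?_ (hu i j j' hij hjj)
    refine CH_mono_cond hp ?_
    intro w w' _ _ h
    simp only [Prod.mk.injEq] at h ⊢
    tauto
  have h10 := abs_le.mp (J.add i j j' hij hjj)
  have h11 := abs_le.mp (A.add j j' k hjj hjk)
  have e0 : 0 ≤ e := h8.trans h9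
  constructor <;> linarith

/-- The base ball is `j` itself. -/
theorem near_base (hp : ∀ ω, 0 ≤ p ω)
    (J : Add p x z y (fun i k ω => (u i k ω, v i k ω)) g κ e) (A : Add p x z y v f κ e)
    (hz : Nest p x z y e) {j j' k : ι} (hjj : x j ≤ x j') (hjk : x j' ≤ x k) :
    CH p (u j j') (fun ω => (v j k ω, (z j ω, y ω))) ≤ g j j' - f j j' + (6 * κ + e) ∧
      g j j' - f j j' - (4 * κ + 4 * e) ≤
        CH p (u j j') (fun ω => (v j k ω, (z j ω, y ω))) := by
  obtain ⟨h1, h2⟩ := two_depth' hp J A hz hjj hjk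
  have h3 := CH_chain hp (u j j') (v j k) (fun ω => (z j ω, y ω))
  have h4 := A.lo j k (hjj.trans hjk)
  have h5 := A.hi j k (hjj.trans hjk)
  have h6 := abs_le.mp (A.add j j' k hjj hjk)
  constructor <;> linarith

/-- A family given the deeper base: the digits `v i k` are few bits given `v j k` and the balls. -/
theorem Add.rebase (hp : ∀ ω, 0 ≤ p ω) (A : Add p x z y v f κ e) (hz : Nest p x z y e)
    {i j k : ι} (hij : x i ≤ x j) (hjk : x j ≤ x k) :
    CH p (v i k) (fun ω => (v j k ω, (z j ω, (z i ω, y ω)))) ≤ 4 * κ + 5 * e := by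
  -- add `v i j`, few bits given the balls
  have hb : ∀ {B : Type} (X : Ω → B),
      CH p (v i j) (fun ω => (X ω, (z j ω, (z i ω, y ω)))) ≤ e := by
    intro B X
    refine le_trans ?_ (A.c1 i j hij)
    refine CH_mono_cond hp ?_
    intro w w' _ _ h
    simp only [Prod.mk.injEq] at h ⊢
    tauto
  have h1 : CH p (v i k) (fun ω => (v j k ω, (z j ω, (z i ω, y ω)))) ≤
      CH p (v i j) (fun ω => (v j k ω, (z j ω, (z i ω, y ω)))) +
        CH p (v i k) (fun ω => (v i j ω, (v j k ω, (z j ω, (z i ω, y ω))))) := CH_le_add hp _ _ _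
  have h2 := hb (v j k)
  have h3 : CH p (v i k) (fun ω => (v i j ω, (v j k ω, (z j ω, (z i ω, y ω))))) =
      CH p (v i k) (fun ω => (v j k ω, (v i j ω, (z j ω, (z i ω, y ω))))) := by
    refine CH_congr hp ?_ ?_ ?_ ?_ <;>
    · intro w w' _ _ h
      simp only [Prod.mk.injEq] at h ⊢
      tauto
  have h4 := CH_bayes hp (v i k) (v j k) (fun ω => (v i j ω, (z j ω, (z i ω, y ω))))
  have h5 : CH p (v i k) (fun ω => (v i j ω, (z j ω, (z i ω, y ω)))) ≤
      CH p (v i k) (fun ω => (v i j ω, (z i ω, y ω))) := by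
    refine CH_mono_cond hp ?_
    intro w w' _ _ h
    simp only [Prod.mk.injEq] at h ⊢
    tauto
  have h6 := A.up hp hij hjk
  have h7 : CH p (v j k) (fun ω => (v i k ω, (v i j ω, (z j ω, (z i ω, y ω))))) ≤ e := by
    refine le_trans ?_ (A.c2 i j k hij hjk)
    refine CH_mono_cond hp ?_
    intro w w' _ _ h
    simp only [Prod.mk.injEq] at h ⊢
    tauto
  -- `v j k` given the balls and `v i j`
  have h8 : CH p (v j k) (fun ω => (z j ω, y ω)) ≤
      CH p (fun ω => (v i j ω, z i ω)) (fun ω => (z j ω, y ω)) +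
        CH p (v j k) (fun ω => ((v i j ω, z i ω), (z j ω, y ω))) := CH_le_add hp _ _ _
  have h9 : CH p (fun ω => (v i j ω, z i ω)) (fun ω => (z j ω, y ω)) =
      CH p (z i) (fun ω => (z j ω, y ω)) + CH p (v i j) (fun ω => (z i ω, (z j ω, y ω))) :=
    CH_chain hp _ _ _
  have h10 := hz i j hij
  have h11 := A.c1 i j hij
  have h12 : CH p (v j k) (fun ω => ((v i j ω, z i ω), (z j ω, y ω))) =
      CH p (v j k) (fun ω => (v i j ω, (z j ω, (z i ω, y ω)))) := by
    refine CH_congr hp ?_ ?_ ?_ ?_ <;>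
    · intro w w' _ _ h
      simp only [Prod.mk.injEq] at h ⊢
      tauto
  have h13 := A.lo j k hjk
  linarith

/-- **THE BALL `j` DOES NOT HELP** for the near digits of `u` behind `j` in the presence of `v` up to
`k`: `I(u ; z j | ..)` is small, and the entropy given everything is `g j j' - f j j'`. -/
theorem near_learn (hp : ∀ ω, 0 ≤ p ω)
    (J : Add p x z y (fun i k ω => (u i k ω, v i k ω)) g κ e) (A : Add p x z y v f κ e)
    (hz : Nest p x z y e)
    (hu2 : ∀ i j k, x i ≤ x j → x j ≤ x k →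
      CH p (u j k) (fun ω => (u i k ω, (z j ω, (z i ω, y ω)))) ≤ e)
    {i j j' k : ι} (hij : x i ≤ x j) (hjj : x j ≤ x j') (hjk : x j' ≤ x k) :
    g j j' - f j j' - (8 * κ + 13 * e) ≤
      CH p (u i j') (fun ω => (u i j ω, (v i k ω, (z j ω, (z i ω, y ω))))) := by
  obtain ⟨-, h1⟩ := near_base hp J A hz hjj hjk
  -- replace `(v j k, z j, y)` by `(v i k, u i j, z j, z i, y)`
  have h2 : CH p (u j j') (fun ω => (v j k ω, (z j ω, y ω))) ≤
      CH p (fun ω => (v i k ω, (u i j ω, z i ω))) (fun ω => (v j k ω, (z j ω, y ω))) +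
        CH p (u j j') (fun ω => ((v i k ω, (u i j ω, z i ω)), (v j k ω, (z j ω, y ω)))) :=
    CH_le_add hp _ _ _
  have h3 : CH p (fun ω => (v i k ω, (u i j ω, z i ω))) (fun ω => (v j k ω, (z j ω, y ω))) =
      CH p (fun ω => (u i j ω, z i ω)) (fun ω => (v j k ω, (z j ω, y ω))) +
        CH p (v i k) (fun ω => ((u i j ω, z i ω), (v j k ω, (z j ω, y ω)))) := CH_chain hp _ _ _
  have h4 : CH p (fun ω => (u i j ω, z i ω)) (fun ω => (v j k ω, (z j ω, y ω))) =
      CH p (z i) (fun ω => (v j k ω, (z j ω, y ω))) +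
        CH p (u i j) (fun ω => (z i ω, (v j k ω, (z j ω, y ω)))) := CH_chain hp _ _ _
  have h5 : CH p (z i) (fun ω => (v j k ω, (z j ω, y ω))) ≤ e := by
    refine le_trans ?_ (hz i j hij)
    refine CH_mono_cond hp ?_
    intro w w' _ _ h
    simp only [Prod.mk.injEq] at h ⊢
    tauto
  have h6 : CH p (u i j) (fun ω => (z i ω, (v j k ω, (z j ω, y ω)))) ≤ e := by
    have h7 : CH p (u i j) (fun ω => (z i ω, (z j ω, y ω))) ≤ e := by
      refine le_trans ?_ (J.c1 i j hij)
      refine CH_mono_left hp ?_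
      intro w w' _ _ h
      simp only [Prod.mk.injEq] at h ⊢
      tauto
    refine le_trans ?_ h7
    refine CH_mono_cond hp ?_
    intro w w' _ _ h
    simp only [Prod.mk.injEq] at h ⊢
    tauto
  have h7 : CH p (v i k) (fun ω => ((u i j ω, z i ω), (v j k ω, (z j ω, y ω)))) ≤
      4 * κ + 5 * e := by
    refine le_trans ?_ (A.rebase hp hz hij (hjj.trans hjk))
    refine CH_mono_cond hp ?_
    intro w w' _ _ h
    simp only [Prod.mk.injEq] at h ⊢
    tauto
  have h8 : CH p (u j j') (fun ω => ((v i k ω, (u i j ω, z i ω)), (v j k ω, (z j ω, y ω)))) ≤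
      CH p (u j j') (fun ω => (u i j ω, (v i k ω, (z j ω, (z i ω, y ω))))) := by
    refine CH_mono_cond hp ?_
    intro w w' _ _ h
    simp only [Prod.mk.injEq] at h ⊢
    tauto
  have h9 : CH p (u j j') (fun ω => (u i j ω, (v i k ω, (z j ω, (z i ω, y ω))))) ≤
      CH p (u i j') (fun ω => (u i j ω, (v i k ω, (z j ω, (z i ω, y ω))))) +
        CH p (u j j') (fun ω => (u i j' ω, (u i j ω, (v i k ω, (z j ω, (z i ω, y ω)))))) :=
    CH_le_add hp _ _ _
  have h10 : CH p (u j j') (fun ω => (u i j' ω, (u i j ω, (v i k ω, (z j ω, (z i ω, y ω)))))) ≤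
      e := by
    refine le_trans ?_ (hu2 i j j' hij hjj)
    refine CH_mono_cond hp ?_
    intro w w' _ _ h
    simp only [Prod.mk.injEq] at h ⊢
    tauto
  have h11 := CH_nonneg hp (u j j') (fun ω => (u i j' ω, (u i j ω, (v i k ω, (z j ω, (z i ω, y ω))))))
  have e0 : 0 ≤ e := h11.trans h10
  linarith

end two

end Pool.SAT43
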